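import Pool.Agent.Helper25.EV.Fire

/-!
# Calculus of arithmetical predicates (chapter AR of MP_f84cd7)
-/

set_option autoImplicit false

namespace Pool.Agent.Helper24.AR

open Pool.Agent.Helper25.EV Encodable

theorem arCongr {P Q : Set ℕ → ℕ → Prop} (h : ArN P) (e : ∀ X n, Q X n ↔ P X n) : ArN Q := by
  have : Q = P := funext fun X => funext fun n => propext (e X n)
  rw [this]
  exact h

theorem arComp {P : Set ℕ → ℕ → Prop} (h : ArN P) :
    ∀ {f : ℕ → ℕ}, Primrec f → ArN fun X n => P X (f n) := by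
  induction h with
  | prim g hg => exact fun hf => ArN.prim _ (hg.comp hf)
  | mem g hg => exact fun hf => ArN.mem _ (hg.comp hf)
  | neg _ ih => exact fun hf => (ih hf).neg
  | and _ _ ih1 ih2 => exact fun hf => (ih1 hf).and (ih2 hf)
  | ex _ ih =>
    intro f hf
    have h1 : Primrec fun p : ℕ => Nat.pair (f (Nat.unpair p).1) (Nat.unpair p).2 :=
      Primrec₂.natPair.comp (hf.comp (Primrec.fst.comp Primrec.unpair))
        (Primrec.snd.comp Primrec.unpair)
    refine arCongr (ih h1).ex fun X n => ?_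
    simp only [Nat.unpair_pair]

theorem arSubst {P : Set ℕ → ℕ → Prop} (h : ArN P) {F : Set ℕ → Set ℕ} (hF : ArOp F) :
    ArN fun X n => P (F X) n := by
  induction h with
  | prim g hg => exact ArN.prim _ hg
  | mem g hg => exact arComp hF hg
  | neg _ ih => exact ih.neg
  | and _ _ ih1 ih2 => exact ih1.and ih2
  | ex _ ih => exact ih.ex

theorem arOr {P Q : Set ℕ → ℕ → Prop} (hP : ArN P) (hQ : ArN Q) : ArN fun X n => P X n ∨ Q X n :=
  arCongr ((hP.neg.and hQ.neg).neg) fun X n => by tauto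

theorem arAll {P : Set ℕ → ℕ → Prop} (hP : ArN P) : ArN fun X n => ∀ m, P X (Nat.pair n m) :=
  arCongr (hP.neg.ex.neg) fun X n => by push Not; rfl

theorem arPred {p : ℕ → Prop} (hp : PrimrecPred p) : ArN fun _ n => p n := by
  obtain ⟨hd, hp⟩ := hp
  exact arCongr (ArN.prim _ hp) fun X n => by simp

/-! ## Columns -/

/-- left column -/
def lc (Z : Set ℕ) : Set ℕ := {n | 2 * n ∈ Z}
/-- right column -/
def rc (Z : Set ℕ) : Set ℕ := {n | 2 * n + 1 ∈ Z}

@[simp] theorem lc_jn (A B : Set ℕ) : lc (jn A B) = A := by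
  ext n
  constructor
  · rintro (⟨m, hm, e⟩ | ⟨m, hm, e⟩)
    · have : n = m := by omega
      rwa [this]
    · omega
  · exact fun h => Or.inl ⟨n, h, rfl⟩

@[simp] theorem rc_jn (A B : Set ℕ) : rc (jn A B) = B := by
  ext n
  constructor
  · rintro (⟨m, hm, e⟩ | ⟨m, hm, e⟩)
    · omega
    · have : n = m := by omega
      rwa [this]
  · exact fun h => Or.inr ⟨n, h, rfl⟩

theorem mem_jn (A B : Set ℕ) (m : ℕ) :
    m ∈ jn A B ↔ (m % 2 = 0 ∧ m / 2 ∈ A) ∨ (m % 2 = 1 ∧ m / 2 ∈ B) := by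
  constructor
  · rintro (⟨n, hn, rfl⟩ | ⟨n, hn, rfl⟩)
    · left
      refine ⟨by omega, ?_⟩
      have : 2 * n / 2 = n := by omega
      rwa [this]
    · right
      refine ⟨by omega, ?_⟩
      have : (2 * n + 1) / 2 = n := by omega
      rwa [this]
  · rintro (⟨h, h'⟩ | ⟨h, h'⟩)
    · exact Or.inl ⟨_, h', by omega⟩
    · exact Or.inr ⟨_, h', by omega⟩

theorem primrec_double : Primrec fun n : ℕ => 2 * n := Primrec.nat_mul.comp (Primrec.const 2) Primrec.id

theorem primrec_double1 : Primrec fun n : ℕ => 2 * n + 1 := Primrec.succ.comp primrec_double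

theorem primrec_half : Primrec fun n : ℕ => n / 2 := Primrec.nat_div.comp Primrec.id (Primrec.const 2)

theorem primrecPred_mod2 (i : ℕ) : PrimrecPred fun n : ℕ => n % 2 = i :=
  Primrec.eq.comp (Primrec.nat_mod.comp Primrec.id (Primrec.const 2)) (Primrec.const i)

theorem arOp_id : ArOp fun X => X := ArN.mem _ Primrec.id

theorem arOp_lc : ArOp lc := ArN.mem _ primrec_double

theorem arOp_rc : ArOp rc := ArN.mem _ primrec_double1

theorem arOp_comp {F G : Set ℕ → Set ℕ} (hF : ArOp F) (hG : ArOp G) : ArOp fun X => F (G X) :=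
  arSubst hF hG

theorem arOp_jn {F G : Set ℕ → Set ℕ} (hF : ArOp F) (hG : ArOp G) :
    ArOp fun X => jn (F X) (G X) := by
  have h1 : ArN fun X n => (n % 2 = 0 ∧ n / 2 ∈ F X) ∨ (n % 2 = 1 ∧ n / 2 ∈ G X) :=
    arOr ((arPred (primrecPred_mod2 0)).and (arComp hF primrec_half))
      ((arPred (primrecPred_mod2 1)).and (arComp hG primrec_half))
  exact arCongr h1 fun X n => mem_jn _ _ _

theorem arOp_empty : ArOp fun _ => (∅ : Set ℕ) :=
  arCongr (ArN.prim (fun _ => false) (Primrec.const false)) fun X n => by simp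

/-! ## Execution of lists of instructions -/

theorem execs_append (L M : List Instr) (X : Set ℕ) : execs (L ++ M) X = execs M (execs L X) :=
  List.foldl_append ..

theorem execs_cons (I : Instr) (L : List Instr) (X : Set ℕ) :
    execs (I :: L) X = execs L (I.exec X) := rfl

theorem execs_nil (X : Set ℕ) : execs [] X = X := rfl

/-- the instruction acting on the left column -/
def liftL : Instr → Instr
  | .ar F => .ar fun Z => jn (F (lc Z)) (rc Z)
  | .cl G => .cl fun Z => jn (G (lc Z)) ∅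

theorem liftL_ok {I : Instr} (h : I.ok) : (liftL I).ok := by
  cases I with
  | ar F => exact arOp_jn (arOp_comp h arOp_lc) arOp_rc
  | cl G => exact arOp_jn (arOp_comp h arOp_lc) arOp_empty

theorem clS_zero (G : Set ℕ → Set ℕ) (X : Set ℕ) : clS G X 0 = X := by
  unfold clS
  exact Ordinal.limitRecOn_zero ..

theorem clS_succ (G : Set ℕ → Set ℕ) (X : Set ℕ) (α : Ordinal.{0}) :
    clS G X (α + 1) = clS G X α ∪ G (clS G X α) := by
  unfold clS
  exact Ordinal.limitRecOn_add_one ..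

theorem clS_lim (G : Set ℕ → Set ℕ) (X : Set ℕ) {l : Ordinal.{0}} (hl : Order.IsSuccLimit l) :
    clS G X l = {n | ∃ β < l, n ∈ clS G X β} := by
  unfold clS
  rw [Ordinal.limitRecOn_limit _ _ _ _ hl]
  ext n
  simp only [Set.mem_ofPred_eq, exists_prop]

theorem jn_union (A A' B B' : Set ℕ) : jn A B ∪ jn A' B' = jn (A ∪ A') (B ∪ B') := by
  ext n
  simp only [Set.mem_union, mem_jn]
  tauto

theorem clS_lift (G : Set ℕ → Set ℕ) (A B : Set ℕ) (α : Ordinal.{0}) :
    clS (fun Z => jn (G (lc Z)) ∅) (jn A B) α = jn (clS G A α) B := by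
  induction α using Ordinal.limitRecOn with
  | zero => rw [clS_zero, clS_zero]
  | add_one α ih => rw [clS_succ, clS_succ, ih, lc_jn, jn_union, Set.union_empty]
  | limit l hl ih =>
    rw [clS_lim _ _ hl, clS_lim _ _ hl]
    ext n
    have h0 : (0 : Ordinal.{0}) < l := hl.bot_lt
    simp only [Set.mem_ofPred_eq, mem_jn]
    constructor
    · rintro ⟨β, hβ, h⟩
      rw [ih β hβ, mem_jn] at h
      rcases h with ⟨h1, h2⟩ | ⟨h1, h2⟩
      · exact Or.inl ⟨h1, β, hβ, h2⟩
      · exact Or.inr ⟨h1, h2⟩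
    · rintro (⟨h1, β, hβ, h2⟩ | ⟨h1, h2⟩)
      · refine ⟨β, hβ, ?_⟩
        rw [ih β hβ, mem_jn]
        exact Or.inl ⟨h1, h2⟩
      · refine ⟨0, h0, ?_⟩
        rw [ih 0 h0, mem_jn]
        exact Or.inr ⟨h1, h2⟩

theorem liftL_exec (I : Instr) (A B : Set ℕ) : (liftL I).exec (jn A B) = jn (I.exec A) B := by
  cases I with
  | ar F =>
    show jn (F (lc (jn A B))) (rc (jn A B)) = jn (F A) B
    rw [lc_jn, rc_jn]
  | cl G =>
    show clos (fun Z => jn (G (lc Z)) ∅) (jn A B) = jn (clos G A) B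
    ext n
    simp only [clos, Set.mem_ofPred_eq, clS_lift, mem_jn]
    constructor
    · rintro ⟨α, h | h⟩
      · exact Or.inl ⟨h.1, α, h.2⟩
      · exact Or.inr h
    · rintro (⟨h, α, h'⟩ | h)
      · exact ⟨α, Or.inl ⟨h, h'⟩⟩
      · exact ⟨0, Or.inr h⟩

theorem execs_liftL (L : List Instr) : ∀ A B : Set ℕ,
    execs (L.map liftL) (jn A B) = jn (execs L A) B := by
  induction L with
  | nil => exact fun A B => rfl
  | cons I L ih =>
    intro A B
    rw [List.map_cons, execs_cons, liftL_exec, ih, execs_cons]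

/-- `F` is computed by a list of instructions, for the inputs in `K` -/
def Cp (K : Set (Set ℕ)) (F : Set ℕ → Set ℕ) : Prop :=
  ∃ L : List Instr, (∀ I ∈ L, I.ok) ∧ ∀ X ∈ K, execs L X = F X

variable {K : Set (Set ℕ)}

theorem Cp.congr {F G : Set ℕ → Set ℕ} (h : Cp K F) (e : ∀ X ∈ K, F X = G X) : Cp K G := by
  obtain ⟨L, hL, h⟩ := h
  exact ⟨L, hL, fun X hX => (h X hX).trans (e X hX)⟩

theorem Cp.id : Cp K fun X => X := ⟨[], by simp, fun _ _ => rfl⟩

theorem Cp.ar {F G : Set ℕ → Set ℕ} (hF : Cp K F) (hG : ArOp G) : Cp K fun X => G (F X) := by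
  obtain ⟨L, hL, h⟩ := hF
  refine ⟨L ++ [.ar G], ?_, fun X hX => ?_⟩
  · intro I hI
    rcases List.mem_append.mp hI with h | h
    · exact hL I h
    · rw [List.mem_singleton.mp h]
      exact hG
  · rw [execs_append, h X hX]
    rfl

theorem Cp.cl {F G : Set ℕ → Set ℕ} (hF : Cp K F) (hG : ArOp G) :
    Cp K fun X => clos G (F X) := by
  obtain ⟨L, hL, h⟩ := hF
  refine ⟨L ++ [.cl G], ?_, fun X hX => ?_⟩
  · intro I hI
    rcases List.mem_append.mp hI with h | h
    · exact hL I h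
    · rw [List.mem_singleton.mp h]
      exact hG
  · rw [execs_append, h X hX]
    rfl

theorem Cp.join {F G : Set ℕ → Set ℕ} (hF : Cp K F) (hG : Cp K G) :
    Cp K fun X => jn (F X) (G X) := by
  obtain ⟨L, hL, h⟩ := hF
  obtain ⟨M, hM, h'⟩ := hG
  have hsw : ArOp fun Z => jn (rc Z) (lc Z) := arOp_jn arOp_rc arOp_lc
  refine ⟨[.ar fun X => jn X X] ++ (L.map liftL ++ ([.ar fun Z => jn (rc Z) (lc Z)] ++
    (M.map liftL ++ [.ar fun Z => jn (rc Z) (lc Z)]))), ?_, fun X hX => ?_⟩
  · intro I hI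
    simp only [List.mem_append, List.mem_singleton, List.mem_map] at hI
    rcases hI with rfl | ⟨J, hJ, rfl⟩ | rfl | ⟨J, hJ, rfl⟩ | rfl
    · exact arOp_jn arOp_id arOp_id
    · exact liftL_ok (hL J hJ)
    · exact hsw
    · exact liftL_ok (hM J hJ)
    · exact hsw
  · rw [execs_append, execs_append, execs_append, execs_append]
    have e1 : execs [.ar fun X => jn X X] X = jn X X := rfl
    rw [e1, execs_liftL, h X hX]
    have e2 : execs [.ar fun Z => jn (rc Z) (lc Z)] (jn (F X) X) = jn X (F X) := by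
      show jn (rc (jn (F X) X)) (lc (jn (F X) X)) = _
      rw [rc_jn, lc_jn]
    rw [e2, execs_liftL, h' X hX]
    show jn (rc (jn (G X) (F X))) (lc (jn (G X) (F X))) = _
    rw [rc_jn, lc_jn]

end Pool.Agent.Helper24.AR
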