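import Pool.Agent.Helper24.AR.Tac

/-!
# Chains: iterations of macro-computable relations are macro-computable
-/

set_option autoImplicit false

namespace Pool.Agent.Helper24.AR

open Pool.Agent.Helper25.EV Encodable

variable {α β : Type} [Primcodable α] [Primcodable β] {K : Set (Set ℕ)}

omit [Primcodable β] in
/-- iterations of a relation along the natural numbers -/
theorem chain_iff {i : β → Prop} {s : ℕ → β → β → Prop} {R : ℕ → β → Prop}
    (h0 : ∀ b, R 0 b ↔ i b) (h1 : ∀ n b, R (n + 1) b ↔ ∃ r, R n r ∧ s n r b) :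
    ∀ n b, R n b ↔ ∃ L : List β, (∃ x, L[0]? = some x ∧ i x) ∧
      (∀ j, j < n → ∃ x y, L[j]? = some x ∧ L[j + 1]? = some y ∧ s j x y) ∧ L[n]? = some b := by
  intro n
  induction n with
  | zero =>
    intro b
    rw [h0]
    constructor
    · intro h
      exact ⟨[b], ⟨b, rfl, h⟩, fun j hj => absurd hj (Nat.not_lt_zero j), rfl⟩
    · rintro ⟨L, ⟨x, hx, h⟩, _, hb⟩
      rw [hx] at hb
      cases hb
      exact h
  | succ n ih =>
    intro b
    rw [h1]
    constructor
    · rintro ⟨r, hr, h⟩
      obtain ⟨L, ⟨x, hx, hi⟩, hs, hL⟩ := (ih r).mp hr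
      have hlen : n < L.length := by
        by_contra hc
        rw [List.getElem?_eq_none (not_lt.mp hc)] at hL
        cases hL
      have hlen' : (L.take (n + 1)).length = n + 1 := by
        rw [List.length_take]
        omega
      have get : ∀ j, j ≤ n → (L.take (n + 1) ++ [b])[j]? = L[j]? := by
        intro j hj
        rw [List.getElem?_append_left (by omega), List.getElem?_take_of_lt (by omega)]
      have get' : (L.take (n + 1) ++ [b])[n + 1]? = some b := by
        rw [List.getElem?_append_right (by omega), hlen']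
        simp
      refine ⟨L.take (n + 1) ++ [b], ⟨x, ?_, hi⟩, ?_, get'⟩
      · rw [get 0 (Nat.zero_le n)]
        exact hx
      · intro j hj
        rcases Nat.lt_succ_iff_lt_or_eq.mp hj with hj | rfl
        · obtain ⟨x, y, h1, h2, h3⟩ := hs j hj
          exact ⟨x, y, by rw [get j hj.le]; exact h1, by rw [get (j + 1) hj]; exact h2, h3⟩
        · exact ⟨r, b, by rw [get j le_rfl]; exact hL, get', h⟩
    · rintro ⟨L, hi, hs, hb⟩
      obtain ⟨x, y, h1, h2, h3⟩ := hs n (Nat.lt_succ_self n)
      rw [hb] at h2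
      cases h2
      exact ⟨x, (ih x).mpr ⟨L, hi, fun j hj => hs j (Nat.lt_succ_of_lt hj), h1⟩, h3⟩

theorem Mp.chain {i : Set ℕ → Set ℕ → α → β → Prop} {s : Set ℕ → Set ℕ → α → ℕ → β → β → Prop}
    (hi : Mp K fun X T (p : α × β) => i X T p.1 p.2)
    (hs : Mp K fun X T (p : α × ℕ × β × β) => s X T p.1 p.2.1 p.2.2.1 p.2.2.2)
    {R : Set ℕ → Set ℕ → α → ℕ → β → Prop}
    (h0 : ∀ X ∈ K, ∀ T a b, R X T a 0 b ↔ i X T a b)
    (h1 : ∀ X ∈ K, ∀ T a n b, R X T a (n + 1) b ↔ ∃ r, R X T a n r ∧ s X T a n r b) :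
    Mp K fun X T (p : α × ℕ × β) => R X T p.1 p.2.1 p.2.2 := by
  classical
  have e1 : ∀ (γ : Type) [Primcodable γ] (f : γ → List β) (g : γ → ℕ) (h : γ → β), PR f → PR g →
      PR h → Mp K fun _ _ a => (f a)[g a]? = some (h a) := fun γ _ f g h hf hg hh =>
    Mp.eq (PR.getO hf hg) (PR.some' hh)
  have hi' : ∀ (γ : Type) [Primcodable γ] (f : γ → α) (g : γ → β), PR f → PR g →
      Mp K fun X T a => i X T (f a) (g a) := fun γ _ f g hf hg =>
    hi.comp (f := fun a => (f a, g a)) (PR.pair' hf hg)
  have hs' : ∀ (γ : Type) [Primcodable γ] (f : γ → α) (n : γ → ℕ) (g h : γ → β), PR f → PR n →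
      PR g → PR h → Mp K fun X T a => s X T (f a) (n a) (g a) (h a) :=
    fun γ _ f n g h hf hn hg hh =>
      hs.comp (f := fun a => (f a, n a, g a, h a)) (PR.pair' hf (PR.pair' hn (PR.pair' hg hh)))
  have key : Mp K fun X T (p : α × ℕ × β) => ∃ L : List β, (∃ x, L[0]? = some x ∧ i X T p.1 x) ∧
      (∀ j, j < p.2.1 → ∃ x y, L[j]? = some x ∧ L[j + 1]? = some y ∧ s X T p.1 j x y) ∧
        L[p.2.1]? = some p.2.2 := by
    apply Mp.ex
    apply Mp.and
    · apply Mp.ex
      apply Mp.and
      · apply e1 <;> fun_prop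
      · apply hi' <;> fun_prop
    · apply Mp.and
      · apply Mp.all
        apply Mp.imp
        · apply Mp.lt <;> fun_prop
        · apply Mp.ex
          apply Mp.ex
          apply Mp.and
          · apply e1 <;> fun_prop
          · apply Mp.and
            · apply e1 <;> fun_prop
            · apply hs' <;> fun_prop
      · apply e1 <;> fun_prop
  refine key.congr fun X hX T p => ?_
  exact chain_iff (fun b => h0 X hX T p.1 b) (fun n b => h1 X hX T p.1 n b) p.2.1 p.2.2

/-- iterations along lists of bits -/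
theorem Mp.chR {i : Set ℕ → Set ℕ → α → β → Prop}
    {s : Set ℕ → Set ℕ → α → ℕ → Bool → β → β → Prop}
    (hi : Mp K fun X T (p : α × β) => i X T p.1 p.2)
    (hs : Mp K fun X T (p : α × ℕ × Bool × β × β) =>
      s X T p.1 p.2.1 p.2.2.1 p.2.2.2.1 p.2.2.2.2) :
    Mp K fun X T (p : α × List Bool × β) => ch (i X T p.1) (s X T p.1) p.2.1 p.2.2 := by
  have hi' : Mp K fun X T (p : (α × List Bool) × β) => i X T p.1.1 p.2 :=
    hi.comp (f := fun p : (α × List Bool) × β => (p.1.1, p.2)) (by fun_prop)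
  have hs' : Mp K fun X T (p : (α × List Bool) × ℕ × β × β) =>
      (∃ b, p.1.2[p.2.1]? = some b ∧ s X T p.1.1 p.2.1 b p.2.2.1 p.2.2.2) ∨
        (p.1.2.length ≤ p.2.1 ∧ p.2.2.1 = p.2.2.2) := by
    classical
    apply Mp.or
    · apply Mp.ex
      apply Mp.and
      · apply Mp.eq <;> fun_prop
      · exact hs.comp (f := fun p : ((α × List Bool) × ℕ × β × β) × Bool =>
          (p.1.1.1, p.1.2.1, p.2, p.1.2.2.1, p.1.2.2.2)) (by fun_prop)
    · apply Mp.and
      · apply Mp.le <;> fun_prop
      · apply Mp.eq <;> fun_prop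
  have key := Mp.chain (α := α × List Bool) (β := β) (i := fun X T a b => i X T a.1 b)
    (s := fun X T a n r b => (∃ c, a.2[n]? = some c ∧ s X T a.1 n c r b) ∨
      (a.2.length ≤ n ∧ r = b)) hi' hs'
    (R := fun X T a n b => Pool.Agent.Helper25.EV.chR (i X T a.1) (s X T a.1) (a.2.take n).reverse b) ?_ ?_
  · have h2 := key.comp (f := fun p : α × List Bool × β => ((p.1, p.2.1), p.2.1.length, p.2.2))
      (by fun_prop)
    refine h2.congr fun X hX T p => ?_
    show Pool.Agent.Helper25.EV.ch _ _ _ _ ↔ Pool.Agent.Helper25.EV.chR _ _ (p.2.1.take p.2.1.length).reverse _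
    rw [List.take_length]
    rfl
  · intro X _ T a b
    show Pool.Agent.Helper25.EV.chR _ _ (a.2.take 0).reverse b ↔ _
    rw [List.take_zero]
    rfl
  · intro X _ T a n b
    show Pool.Agent.Helper25.EV.chR _ _ (a.2.take (n + 1)).reverse b ↔ _
    rcases lt_or_ge n a.2.length with hn | hn
    · have e : (a.2.take (n + 1)).reverse = a.2[n] :: (a.2.take n).reverse := by
        rw [List.take_add_one, List.getElem?_eq_getElem hn]
        simp
      rw [e]
      have e2 : (a.2.take n).reverse.length = n := by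
        rw [List.length_reverse, List.length_take]
        omega
      constructor
      · rintro ⟨r, h1, h2⟩
        rw [e2] at h2
        exact ⟨r, h1, Or.inl ⟨a.2[n], List.getElem?_eq_getElem hn, h2⟩⟩
      · rintro ⟨r, h1, ⟨c, hc, h2⟩ | ⟨hc, _⟩⟩
        · rw [List.getElem?_eq_getElem hn] at hc
          cases hc
          refine ⟨r, h1, ?_⟩
          rw [e2]
          exact h2
        · omega
    · have e : a.2.take (n + 1) = a.2.take n := by
        rw [List.take_of_length_le (by omega), List.take_of_length_le hn]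
      rw [e]
      constructor
      · intro h
        exact ⟨b, h, Or.inr ⟨hn, rfl⟩⟩
      · rintro ⟨r, h1, ⟨c, hc, h2⟩ | ⟨_, rfl⟩⟩
        · rw [List.getElem?_eq_none hn] at hc
          cases hc
        · exact h1

end Pool.Agent.Helper24.AR
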