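import Pool.Agent.Helper24.AR.Chain

/-!
# The operators of `Hist.lean` are macro-computable: names
-/

set_option autoImplicit false

namespace Pool.Agent.Helper24.AR

open Pool.Agent.Helper25.EV Encodable

/-- a family of history structures over the natural numbers with macro-computable components -/
structure MH (K : Set (Set ℕ)) {π : Type} [Primcodable π] (h : Set ℕ → π → Hs ℕ) : Prop where
  D : Mp K fun X _ (p : π × ℕ) => (h X p.1).D p.2
  lt : Mp K fun X _ (p : π × ℕ × ℕ) => (h X p.1).lt p.2.1 p.2.2
  lab : Mp K fun X _ (p : π × ℕ × ℕ) => p.2.2 ∈ (h X p.1).lab p.2.1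
  num : Mp K fun X _ (p : π × ℕ × ℕ × ℕ) => (h X p.1).num p.2.1 p.2.2.1 p.2.2.2

/-- a family of firing predicates which is macro-computable -/
def MF (K : Set (Set ℕ)) {π : Type} [Primcodable π] (fr : Set ℕ → π → ℕ → ℕ → Prop) : Prop :=
  Mp K fun X _ (p : π × ℕ × ℕ) => fr X p.1 p.2.1 p.2.2

variable {K : Set (Set ℕ)} {π : Type} [Primcodable π] {h : Set ℕ → π → Hs ℕ}
  {fr : Set ℕ → π → ℕ → ℕ → Prop} {α : Type} [Primcodable α] {f : α → π}

theorem MH.D' (m : MH K h) (hf : PR f) {a : α → ℕ} (ha : PR a) :
    Mp K fun X _ x => (h X (f x)).D (a x) :=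
  m.D.comp (f := fun x => (f x, a x)) (by fun_prop)

theorem MH.lt' (m : MH K h) (hf : PR f) {a b : α → ℕ} (ha : PR a) (hb : PR b) :
    Mp K fun X _ x => (h X (f x)).lt (a x) (b x) :=
  m.lt.comp (f := fun x => (f x, a x, b x)) (by fun_prop)

theorem MH.lab' (m : MH K h) (hf : PR f) {a b : α → ℕ} (ha : PR a) (hb : PR b) :
    Mp K fun X _ x => b x ∈ (h X (f x)).lab (a x) :=
  m.lab.comp (f := fun x => (f x, a x, b x)) (by fun_prop)

theorem MH.num' (m : MH K h) (hf : PR f) {a b k : α → ℕ} (ha : PR a) (hb : PR b) (hk : PR k) :
    Mp K fun X _ x => (h X (f x)).num (a x) (b x) (k x) :=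
  m.num.comp (f := fun x => (f x, a x, b x, k x)) (by fun_prop)

theorem MF.fr' (m : MF K fr) (hf : PR f) {a c : α → ℕ} (ha : PR a) (hc : PR c) :
    Mp K fun X _ x => fr X (f x) (a x) (c x) :=
  Mp.comp (P := fun X _ (p : π × ℕ × ℕ) => fr X p.1 p.2.1 p.2.2) m
    (f := fun x => (f x, a x, c x)) (by fun_prop)


/-- restriction -/
theorem MH.res (m : MH K h) : MH K fun X (p : π × ℕ) => (h X p.1).res p.2 where
  D := by
    show Mp K fun X _ (p : (π × ℕ) × ℕ) => (h X p.1.1).D p.2 ∧ (h X p.1.1).lt p.2 p.1.2
    with_reducible apply Mp.and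
    (with_reducible apply MH.D') <;> first | fun_prop | assumption
    (with_reducible apply MH.lt') <;> first | fun_prop | assumption
  lt := by
    show Mp K fun X _ (p : (π × ℕ) × ℕ × ℕ) => (h X p.1.1).lt p.2.1 p.2.2
    (with_reducible apply MH.lt') <;> first | fun_prop | assumption
  lab := by
    show Mp K fun X _ (p : (π × ℕ) × ℕ × ℕ) => p.2.2 ∈ (h X p.1.1).lab p.2.1
    (with_reducible apply MH.lab') <;> first | fun_prop | assumption
  num := by
    show Mp K fun X _ (p : (π × ℕ) × ℕ × ℕ × ℕ) => (h X p.1.1).num p.2.1 p.2.2.1 p.2.2.2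
    (with_reducible apply MH.num') <;> first | fun_prop | assumption

theorem MF.res (m : MF K fr) : MF K fun X (p : π × ℕ) => fr X p.1 := by
  show Mp K fun X _ (p : (π × ℕ) × ℕ × ℕ) => fr X p.1.1 p.2.1 p.2.2
  (with_reducible apply MF.fr') <;> first | fun_prop | assumption

theorem MH.le' (m : MH K h) (hf : PR f) {a b : α → ℕ} (ha : PR a) (hb : PR b) :
    Mp K fun X _ x => (h X (f x)).le (a x) (b x) := by
  unfold Hs.le
  with_reducible apply Mp.or
  (with_reducible apply MH.lt') <;> first | fun_prop | assumption
  (with_reducible apply Mp.eq) <;> first | fun_prop | assumption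


theorem MH.isMin' (m : MH K h) (hf : PR f) {a : α → ℕ} (ha : PR a) :
    Mp K fun X _ x => (h X (f x)).isMin (a x) := by
  unfold Hs.isMin
  with_reducible apply Mp.and
  (with_reducible apply MH.D') <;> first | fun_prop | assumption
  with_reducible apply Mp.all
  with_reducible apply Mp.imp
  (with_reducible apply MH.D') <;> first | fun_prop | assumption
  with_reducible apply Mp.not
  (with_reducible apply MH.lt') <;> first | fun_prop | assumption

theorem MH.isMax' (m : MH K h) (hf : PR f) {a : α → ℕ} (ha : PR a) :
    Mp K fun X _ x => (h X (f x)).isMax (a x) := by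
  unfold Hs.isMax
  with_reducible apply Mp.and
  (with_reducible apply MH.D') <;> first | fun_prop | assumption
  with_reducible apply Mp.all
  with_reducible apply Mp.imp
  (with_reducible apply MH.D') <;> first | fun_prop | assumption
  with_reducible apply Mp.not
  (with_reducible apply MH.lt') <;> first | fun_prop | assumption


theorem MH.isLim' (m : MH K h) (hf : PR f) : Mp K fun X _ x => (h X (f x)).isLim := by
  unfold Hs.isLim
  with_reducible apply Mp.and
  with_reducible apply Mp.ex
  (with_reducible apply MH.D') <;> first | fun_prop | assumption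
  with_reducible apply Mp.all
  with_reducible apply Mp.not
  (with_reducible apply MH.isMax') <;> first | fun_prop | assumption

theorem MH.limAt' (m : MH K h) (hf : PR f) {a : α → ℕ} (ha : PR a) :
    Mp K fun X _ x => (h X (f x)).limAt (a x) := by
  unfold Hs.limAt
  apply Mp.and
  · (with_reducible apply MH.D') <;> first | fun_prop | assumption
  · exact m.res.isLim' (f := fun x => (f x, a x)) (by fun_prop)

theorem MH.sc' (m : MH K h) (hf : PR f) {a b : α → ℕ} (ha : PR a) (hb : PR b) :
    Mp K fun X _ x => (h X (f x)).sc (a x) (b x) := by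
  unfold Hs.sc
  with_reducible apply Mp.and
  (with_reducible apply MH.D') <;> first | fun_prop | assumption
  with_reducible apply Mp.and
  (with_reducible apply MH.D') <;> first | fun_prop | assumption
  with_reducible apply Mp.and
  (with_reducible apply MH.lt') <;> first | fun_prop | assumption
  with_reducible apply Mp.all
  with_reducible apply Mp.imp
  (with_reducible apply MH.D') <;> first | fun_prop | assumption
  with_reducible apply Mp.imp
  (with_reducible apply MH.lt') <;> first | fun_prop | assumption
  with_reducible apply Mp.not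
  (with_reducible apply MH.lt') <;> first | fun_prop | assumption


theorem MH.silF' (m : MH K h) (mf : MF K fr) (hf : PR f) {a c : α → ℕ} (ha : PR a) (hc : PR c) :
    Mp K fun X _ x => (h X (f x)).silF (fr X (f x)) (c x) (a x) := by
  unfold Hs.silF
  with_reducible apply Mp.all
  with_reducible apply Mp.imp
  (with_reducible apply MH.D') <;> first | fun_prop | assumption
  with_reducible apply Mp.imp
  (with_reducible apply MH.le') <;> first | fun_prop | assumption
  with_reducible apply Mp.not
  (with_reducible apply MF.fr') <;> first | fun_prop | assumption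


theorem MH.sil' (m : MH K h) (mf : MF K fr) (hf : PR f) {c : α → ℕ} (hc : PR c) :
    Mp K fun X _ x => (h X (f x)).sil (fr X (f x)) (c x) := by
  unfold Hs.sil
  with_reducible apply Mp.ex
  with_reducible apply Mp.and
  (with_reducible apply MH.D') <;> first | fun_prop | assumption
  (with_reducible apply MH.silF') <;> first | fun_prop | assumption

theorem MH.cutStep' (m : MH K h) (mf : MF K fr) (hf : PR f) {e : α → Bool} {c w v : α → ℕ}
    (he : PR e) (hc : PR c) (hw : PR w) (hv : PR v) :
    Mp K fun X _ x => (h X (f x)).cutStep (fr X (f x)) (e x) (c x) (w x) (v x) := by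
  unfold Hs.cutStep
  with_reducible apply Mp.and
  (with_reducible apply MH.D') <;> first | fun_prop | assumption
  with_reducible apply Mp.or
  with_reducible apply Mp.and
  (with_reducible apply Mp.eq) <;> first | fun_prop | assumption
  with_reducible apply Mp.and
  (with_reducible apply MH.le') <;> first | fun_prop | assumption
  with_reducible apply Mp.and
  (with_reducible apply MH.silF') <;> first | fun_prop | assumption
  with_reducible apply Mp.all
  with_reducible apply Mp.imp
  (with_reducible apply MH.D') <;> first | fun_prop | assumption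
  with_reducible apply Mp.imp
  (with_reducible apply MH.le') <;> first | fun_prop | assumption
  with_reducible apply Mp.imp
  (with_reducible apply MH.silF') <;> first | fun_prop | assumption
  (with_reducible apply MH.le') <;> first | fun_prop | assumption
  with_reducible apply Mp.and
  (with_reducible apply Mp.eq) <;> first | fun_prop | assumption
  with_reducible apply Mp.ex
  with_reducible apply Mp.and
  (with_reducible apply MH.D') <;> first | fun_prop | assumption
  with_reducible apply Mp.and
  (with_reducible apply MH.le') <;> first | fun_prop | assumption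
  with_reducible apply Mp.and
  (with_reducible apply MF.fr') <;> first | fun_prop | assumption
  with_reducible apply Mp.and
  with_reducible apply Mp.all
  with_reducible apply Mp.imp
  (with_reducible apply MH.D') <;> first | fun_prop | assumption
  with_reducible apply Mp.imp
  (with_reducible apply MH.le') <;> first | fun_prop | assumption
  with_reducible apply Mp.imp
  (with_reducible apply MF.fr') <;> first | fun_prop | assumption
  (with_reducible apply MH.le') <;> first | fun_prop | assumption
  (with_reducible apply MH.sc') <;> first | fun_prop | assumption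


theorem MH.cut' (m : MH K h) (mf : MF K fr) (hf : PR f) {τ : α → List Bool} {j v : α → ℕ}
    (hτ : PR τ) (hj : PR j) (hv : PR v) :
    Mp K fun X _ x => (h X (f x)).cut (fr X (f x)) (τ x) (j x) (v x) := by
  have h1 : Mp K fun X _ (p : (π × List Bool) × ℕ) => (h X p.1.1).isMin p.2 := by
      (with_reducible apply MH.isMin') <;> first | fun_prop | assumption
  have h2 : Mp K fun X _ (p : (π × List Bool) × ℕ × ℕ × ℕ) =>
      (h X p.1.1).cutStep (fr X p.1.1) (p.1.2.getD (sch p.2.1) false) (sch p.2.1) p.2.2.1
        p.2.2.2 := by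
            (with_reducible apply MH.cutStep') <;> first | fun_prop | assumption
  have key := Mp.chain (i := fun X _ (p : π × List Bool) v => (h X p.1).isMin v)
    (s := fun X _ (p : π × List Bool) j w v => (h X p.1).cutStep (fr X p.1)
      (p.2.getD (sch j) false) (sch j) w v) h1 h2
    (R := fun X _ (p : π × List Bool) j v => (h X p.1).cut (fr X p.1) p.2 j v)
    (fun _ _ _ _ _ => Iff.rfl) (fun _ _ _ _ _ _ => Iff.rfl)
  exact key.comp (f := fun x => ((f x, τ x), j x, v x)) (by fun_prop)

theorem MH.tg' (m : MH K h) (mf : MF K fr) (hf : PR f) {τ : α → List Bool} (hτ : PR τ) :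
    Mp K fun X _ x => (h X (f x)).tg (fr X (f x)) (τ x) := by
  unfold Hs.tg
  with_reducible apply Mp.all
  with_reducible apply Mp.imp
  (with_reducible apply Mp.lt) <;> first | fun_prop | assumption
  with_reducible apply Mp.iff
  (with_reducible apply Mp.eq) <;> first | fun_prop | assumption
  (with_reducible apply MH.sil') <;> first | fun_prop | assumption


/-- `nn` with a separate numbering `nu` of the earlier stages -/
def nnG (H : Hs ℕ) (fr : ℕ → ℕ → Prop) (nu : ℕ → ℕ → ℕ → Prop) (a k : ℕ) : Prop :=
  (∃ m, H.isMax m ∧ ((a = m ∧ k = 0) ∨ (H.lt a m ∧ ∃ k', nu m a k' ∧ k = k' + 1))) ∨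
  (H.isLim ∧ H.D a ∧ ∃ τ g, H.tg fr τ ∧ H.cut fr τ τ.length g ∧ H.lt a g ∧
    (∀ g', H.cut fr τ (τ.length - 1) g' → ¬ H.lt a g') ∧
    ∃ k', nu g a k' ∧ k = Nat.pair τ.length k')

theorem MH.nnG' (m : MH K h) (mf : MF K fr) (hf : PR f) {a k : α → ℕ} (ha : PR a) (hk : PR k)
    {nu : Set ℕ → Set ℕ → α → ℕ → ℕ → ℕ → Prop}
    (hnu : Mp K fun X T (p : α × ℕ × ℕ × ℕ) => nu X T p.1 p.2.1 p.2.2.1 p.2.2.2) :
    Mp K fun X T x => nnG (h X (f x)) (fr X (f x)) (nu X T x) (a x) (k x) := by
  have hnu' : ∀ {β : Type} [Primcodable β] {x : β → α} {g c i : β → ℕ}, PR x → PR g → PR c →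
      PR i → Mp K fun X T y => nu X T (x y) (g y) (c y) (i y) := fun hx hg hc hi =>
    hnu.comp (f := fun y => (_, _, _, _)) (hx.pair' (hg.pair' (hc.pair' hi)))
  unfold nnG
  with_reducible apply Mp.or
  with_reducible apply Mp.ex
  with_reducible apply Mp.and
  (with_reducible apply MH.isMax') <;> first | fun_prop | assumption
  with_reducible apply Mp.or
  with_reducible apply Mp.and
  (with_reducible apply Mp.eq) <;> first | fun_prop | assumption
  (with_reducible apply Mp.eq) <;> first | fun_prop | assumption
  with_reducible apply Mp.and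
  (with_reducible apply MH.lt') <;> first | fun_prop | assumption
  with_reducible apply Mp.ex
  with_reducible apply Mp.and
  (with_reducible apply hnu') <;> first | fun_prop | assumption
  (with_reducible apply Mp.eq) <;> first | fun_prop | assumption
  with_reducible apply Mp.and
  (with_reducible apply MH.isLim') <;> first | fun_prop | assumption
  with_reducible apply Mp.and
  (with_reducible apply MH.D') <;> first | fun_prop | assumption
  with_reducible apply Mp.ex
  with_reducible apply Mp.ex
  with_reducible apply Mp.and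
  (with_reducible apply MH.tg') <;> first | fun_prop | assumption
  with_reducible apply Mp.and
  (with_reducible apply MH.cut') <;> first | fun_prop | assumption
  with_reducible apply Mp.and
  (with_reducible apply MH.lt') <;> first | fun_prop | assumption
  with_reducible apply Mp.and
  with_reducible apply Mp.all
  with_reducible apply Mp.imp
  (with_reducible apply MH.cut') <;> first | fun_prop | assumption
  with_reducible apply Mp.not
  (with_reducible apply MH.lt') <;> first | fun_prop | assumption
  with_reducible apply Mp.ex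
  with_reducible apply Mp.and
  (with_reducible apply hnu') <;> first | fun_prop | assumption
  (with_reducible apply Mp.eq) <;> first | fun_prop | assumption

theorem MH.nn' (m : MH K h) (mf : MF K fr) (hf : PR f) {a k : α → ℕ} (ha : PR a) (hk : PR k) :
    Mp K fun X _ x => (h X (f x)).nn (fr X (f x)) (a x) (k x) :=
  m.nnG' mf hf ha hk (nu := fun X _ x => (h X (f x)).num) (by
      (with_reducible apply MH.num') <;> first | fun_prop | assumption)

theorem MH.nm' (m : MH K h) (mf : MF K fr) (hf : PR f) {τ : α → List Bool} {a k : α → ℕ}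
    (hτ : PR τ) (ha : PR a) (hk : PR k) :
    Mp K fun X _ x => (h X (f x)).nm (fr X (f x)) (τ x) (k x) (a x) := by
  unfold Hs.nm
  with_reducible apply Mp.ex
  with_reducible apply Mp.and
  (with_reducible apply MH.cut') <;> first | fun_prop | assumption
  (with_reducible apply MH.num') <;> first | fun_prop | assumption

/-! ## The `d`-cells and the `y`-cells -/

theorem MH.frD (m : MH K h) : MF K fun X p => (h X p).frD := by
  show Mp K fun X _ (p : π × ℕ × ℕ) => Nat.pair 0 (2 * p.2.2) ∈ (h X p.1).lab p.2.1
  (with_reducible apply MH.lab') <;> first | fun_prop | assumption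

theorem MH.frY (m : MH K h) : MF K fun X p => (h X p).frY := by
  show Mp K fun X _ (p : π × ℕ × ℕ) => Nat.pair 0 (2 * p.2.2 + 1) ∈ (h X p.1).lab p.2.1
  (with_reducible apply MH.lab') <;> first | fun_prop | assumption

theorem MH.frD' (m : MH K h) (hf : PR f) {a d : α → ℕ} (ha : PR a) (hd : PR d) :
    Mp K fun X _ x => (h X (f x)).frD (a x) (d x) := m.frD.fr' hf ha hd

theorem MH.frY' (m : MH K h) (hf : PR f) {a d : α → ℕ} (ha : PR a) (hd : PR d) :
    Mp K fun X _ x => (h X (f x)).frY (a x) (d x) := m.frY.fr' hf ha hd

theorem MH.nD' (m : MH K h) (hf : PR f) {a k : α → ℕ} (ha : PR a) (hk : PR k) :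
    Mp K fun X _ x => (h X (f x)).nD (a x) (k x) := m.nn' m.frD hf ha hk

theorem MH.nmD' (m : MH K h) (hf : PR f) {τ : α → List Bool} {a k : α → ℕ}
    (hτ : PR τ) (hk : PR k) (ha : PR a) :
    Mp K fun X _ x => (h X (f x)).nmD (τ x) (k x) (a x) := m.nm' m.frD hf hτ ha hk

theorem MH.cD' (m : MH K h) (hf : PR f) {a k : α → ℕ} (ha : PR a) (hk : PR k) :
    Mp K fun X _ x => (h X (f x)).cD (a x) (k x) := by
  unfold Hs.cD
  (with_reducible apply MH.lab') <;> first | fun_prop | assumption

theorem MH.silFD' (m : MH K h) (hf : PR f) {a c : α → ℕ} (ha : PR a) (hc : PR c) :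
    Mp K fun X _ x => (h X (f x)).silF (h X (f x)).frD (c x) (a x) := m.silF' m.frD hf ha hc

theorem MH.silD' (m : MH K h) (hf : PR f) {c : α → ℕ} (hc : PR c) :
    Mp K fun X _ x => (h X (f x)).sil (h X (f x)).frD (c x) := m.sil' m.frD hf hc

theorem MH.silY' (m : MH K h) (hf : PR f) {c : α → ℕ} (hc : PR c) :
    Mp K fun X _ x => (h X (f x)).sil (h X (f x)).frY (c x) := m.sil' m.frY hf hc

theorem MH.silDr' (m : MH K h) (hf : PR f) {a c : α → ℕ} (ha : PR a) (hc : PR c) :
    Mp K fun X _ x => ((h X (f x)).res (a x)).sil (h X (f x)).frD (c x) :=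
  m.res.sil' m.frD.res (f := fun x => (f x, a x)) (by fun_prop) hc

theorem MH.silYr' (m : MH K h) (hf : PR f) {a c : α → ℕ} (ha : PR a) (hc : PR c) :
    Mp K fun X _ x => ((h X (f x)).res (a x)).sil (h X (f x)).frY (c x) :=
  m.res.sil' m.frY.res (f := fun x => (f x, a x)) (by fun_prop) hc

theorem MH.nmDr' (m : MH K h) (hf : PR f) {b a k : α → ℕ} {τ : α → List Bool} (hb : PR b)
    (hτ : PR τ) (hk : PR k) (ha : PR a) :
    Mp K fun X _ x => ((h X (f x)).res (b x)).nmD (τ x) (k x) (a x) :=
  m.res.nmD' (f := fun x => (f x, b x)) (by fun_prop) hτ hk ha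


theorem MH.newC' (m : MH K h) (hf : PR f) {a : α → ℕ} (ha : PR a) :
    Mp K fun X _ x => (h X (f x)).newC (a x) := by
  unfold Hs.newC
  with_reducible apply Mp.ex
  with_reducible apply Mp.ex
  with_reducible apply Mp.ex
  with_reducible apply Mp.ex
  with_reducible apply Mp.and
  (with_reducible apply MH.D') <;> first | fun_prop | assumption
  with_reducible apply Mp.and
  (with_reducible apply MH.D') <;> first | fun_prop | assumption
  with_reducible apply Mp.and
  (with_reducible apply MH.le') <;> first | fun_prop | assumption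
  with_reducible apply Mp.and
  (with_reducible apply MH.nD') <;> first | fun_prop | assumption
  with_reducible apply Mp.and
  (with_reducible apply MH.nD') <;> first | fun_prop | assumption
  (with_reducible apply Mp.eq) <;> first | fun_prop | assumption


end Pool.Agent.Helper24.AR
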