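import Pool.Agent.Helper24.AR.D1

/-!
# The operators of `Hist.lean` are macro-computable: conditions
-/

set_option autoImplicit false

namespace Pool.Agent.Helper24.AR

open Pool.Agent.Helper25.EV Encodable

variable {K : Set (Set ℕ)} {π : Type} [Primcodable π] {h : Set ℕ → π → Hs ℕ}
  {α : Type} [Primcodable α] {f : α → π}

@[fun_prop] theorem PR.rst' {c : α → ℕ × ℕ × List Bool} {b : α → Bool} (hc : PR c) (hb : PR b) :
    PR fun x => Hs.rst (c x) (b x) := by
  unfold Hs.rst
  fun_prop

theorem MH.tab' (m : MH K h) (hf : PR f) {a x : α → ℕ} {σ τ : α → List Bool} (ha : PR a)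
    (hx : PR x) (hσ : PR σ) (hτ : PR τ) :
    Mp K fun X _ i => (h X (f i)).tab (a i) (x i) (σ i) (τ i) := by
  unfold Hs.tab
  (with_reducible apply MH.lab') <;> first | fun_prop | assumption

theorem MH.tr' (m : MH K h) (hf : PR f) {t a x k n : α → ℕ} {σ : α → List Bool} {b : α → Bool}
    (ht : PR t) (ha : PR a) (hx : PR x) (hk : PR k) (hn : PR n) (hσ : PR σ) (hb : PR b) :
    Mp K fun X _ i => (h X (f i)).tr (t i) (a i) (x i) (k i) (n i) (σ i) (b i) := by
  unfold Hs.tr
  (with_reducible apply MH.lab') <;> first | fun_prop | assumption

theorem MH.phi' (m : MH K h) (hf : PR f) {c : α → ℕ × ℕ × List Bool} {σ τ : α → List Bool}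
    (hc : PR c) (hσ : PR σ) (hτ : PR τ) : Mp K fun X _ i => (h X (f i)).phi (c i) (σ i) (τ i) := by
  unfold Hs.phi
  (with_reducible apply MH.tab') <;> first | fun_prop | assumption

theorem MH.isC' (m : MH K h) (hf : PR f) {c : α → ℕ × ℕ × List Bool} (hc : PR c) :
    Mp K fun X _ i => (h X (f i)).isC (c i) := by
  unfold Hs.isC
  with_reducible apply Mp.and
  (with_reducible apply MH.D') <;> first | fun_prop | assumption
  with_reducible apply Mp.ex
  (with_reducible apply MH.phi') <;> first | fun_prop | assumption

theorem MH.inT' (m : MH K h) (hf : PR f) {c : α → ℕ × ℕ × List Bool} {σ : α → List Bool}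
    (hc : PR c) (hσ : PR σ) : Mp K fun X _ i => (h X (f i)).inT (c i) (σ i) := by
  unfold Hs.inT
  with_reducible apply Mp.ex
  with_reducible apply Mp.ex
  with_reducible apply Mp.and
  (with_reducible apply MH.phi') <;> first | fun_prop | assumption
  (with_reducible apply Mp.pre) <;> first | fun_prop | assumption

theorem MH.Le' (m : MH K h) (hf : PR f) {c d : α → ℕ × ℕ × List Bool} (hc : PR c) (hd : PR d) :
    Mp K fun X _ i => (h X (f i)).Le (c i) (d i) := by
  unfold Hs.Le
  with_reducible apply Mp.all
  with_reducible apply Mp.all
  with_reducible apply Mp.imp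
  (with_reducible apply MH.phi') <;> first | fun_prop | assumption
  (with_reducible apply MH.inT') <;> first | fun_prop | assumption

theorem MH.Dj' (m : MH K h) (hf : PR f) {c d : α → ℕ × ℕ × List Bool} (hc : PR c) (hd : PR d) :
    Mp K fun X _ i => (h X (f i)).Dj (c i) (d i) := by
  unfold Hs.Dj
  with_reducible apply Mp.ex
  with_reducible apply Mp.all
  with_reducible apply Mp.imp
  (with_reducible apply Mp.eq) <;> first | fun_prop | assumption
  with_reducible apply Mp.all
  with_reducible apply Mp.imp
  (with_reducible apply MH.phi') <;> first | fun_prop | assumption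
  with_reducible apply Mp.not
  (with_reducible apply MH.inT') <;> first | fun_prop | assumption

theorem MH.rd' (m : MH K h) (hf : PR f) {t a n : α → ℕ} {c : α → ℕ × ℕ × List Bool}
    {σ : α → List Bool} {b : α → Bool}
    (ht : PR t) (hc : PR c) (ha : PR a) (hn : PR n) (hσ : PR σ) (hb : PR b) :
    Mp K fun X _ i => (h X (f i)).rd (t i) (c i) (a i) (n i) (σ i) (b i) := by
  unfold Hs.rd
  with_reducible apply Mp.and
  (with_reducible apply MH.D') <;> first | fun_prop | assumption
  with_reducible apply Mp.and
  (with_reducible apply MH.lt') <;> first | fun_prop | assumption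
  with_reducible apply Mp.ex
  with_reducible apply Mp.and
  (with_reducible apply MH.num') <;> first | fun_prop | assumption
  (with_reducible apply MH.tr') <;> first | fun_prop | assumption

theorem MH.Frc' (m : MH K h) (hf : PR f) {t a n : α → ℕ} {c : α → ℕ × ℕ × List Bool}
    (ht : PR t) (hc : PR c) (ha : PR a) (hn : PR n) :
    Mp K fun X _ i => (h X (f i)).Frc (t i) (c i) (a i) (n i) := by
  unfold Hs.Frc
  with_reducible apply Mp.and
  (with_reducible apply MH.D') <;> first | fun_prop | assumption
  with_reducible apply Mp.and
  (with_reducible apply MH.lt') <;> first | fun_prop | assumption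
  with_reducible apply Mp.all
  with_reducible apply Mp.not
  (with_reducible apply MH.rd') <;> first | fun_prop | assumption

theorem MH.Hit' (m : MH K h) (hf : PR f) {a n : α → ℕ} {c : α → ℕ × ℕ × List Bool}
    (ha : PR a) (hn : PR n) (hc : PR c) :
    Mp K fun X _ i => (h X (f i)).Hit (a i) (n i) (c i) := by
  unfold Hs.Hit
  with_reducible apply Mp.ex
  with_reducible apply Mp.and
  (with_reducible apply MH.D') <;> first | fun_prop | assumption
  with_reducible apply Mp.and
  (with_reducible apply MH.lt') <;> first | fun_prop | assumption
  with_reducible apply Mp.and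
  (with_reducible apply MH.lt') <;> first | fun_prop | assumption
  (with_reducible apply MH.Frc') <;> first | fun_prop | assumption

theorem MH.Dead' (m : MH K h) (hf : PR f) {a : α → ℕ} {c : α → ℕ × ℕ × List Bool}
    (hc : PR c) (ha : PR a) :
    Mp K fun X _ i => (h X (f i)).Dead (c i) (a i) := by
  unfold Hs.Dead
  with_reducible apply Mp.ex
  with_reducible apply Mp.all
  with_reducible apply Mp.imp
  (with_reducible apply Mp.eq) <;> first | fun_prop | assumption
  with_reducible apply Mp.ex
  with_reducible apply Mp.ex
  with_reducible apply Mp.and
  (with_reducible apply MH.D') <;> first | fun_prop | assumption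
  with_reducible apply Mp.and
  (with_reducible apply MH.le') <;> first | fun_prop | assumption
  with_reducible apply Mp.and
  (with_reducible apply MH.lt') <;> first | fun_prop | assumption
  with_reducible apply Mp.and
  (with_reducible apply MH.rd') <;> first | fun_prop | assumption
  (with_reducible apply MH.rd') <;> first | fun_prop | assumption

theorem MH.evt' (m : MH K h) (hf : PR f) {a b : α → ℕ} {c : α → ℕ × ℕ × List Bool}
    (ha : PR a) (hb : PR b) (hc : PR c) :
    Mp K fun X _ i => (h X (f i)).evt (a i) (b i) (c i) := by
  unfold Hs.evt
  with_reducible apply Mp.and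
  (with_reducible apply MH.D') <;> first | fun_prop | assumption
  with_reducible apply Mp.ex
  with_reducible apply Mp.ex
  with_reducible apply Mp.and
  (with_reducible apply MH.num') <;> first | fun_prop | assumption
  with_reducible apply Mp.and
  (with_reducible apply MH.num') <;> first | fun_prop | assumption
  (with_reducible apply MH.lab') <;> first | fun_prop | assumption

theorem MH.Q' (m : MH K h) (hf : PR f) {c : α → ℕ × ℕ × List Bool} (hc : PR c) :
    Mp K fun X _ i => (h X (f i)).Q (c i) := by
  unfold Hs.Q
  with_reducible apply Mp.and
  (with_reducible apply MH.isC') <;> first | fun_prop | assumption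
  with_reducible apply Mp.all
  with_reducible apply Mp.all
  with_reducible apply Mp.all
  with_reducible apply Mp.imp
  (with_reducible apply MH.evt') <;> first | fun_prop | assumption
  with_reducible apply Mp.imp
  (with_reducible apply MH.le') <;> first | fun_prop | assumption
  with_reducible apply Mp.imp
  (with_reducible apply MH.le') <;> first | fun_prop | assumption
  with_reducible apply Mp.or
  (with_reducible apply MH.Dead') <;> first | fun_prop | assumption
  (with_reducible apply MH.Le') <;> first | fun_prop | assumption

theorem MH.T0' (m : MH K h) (hf : PR f) {c : α → ℕ × ℕ × List Bool} {n : α → ℕ} (hc : PR c)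
    (hn : PR n) : Mp K fun X _ i => (h X (f i)).T0 (c i) (n i) := by
  unfold Hs.T0
  with_reducible apply Mp.all
  with_reducible apply Mp.imp
  (with_reducible apply MH.isC') <;> first | fun_prop | assumption
  with_reducible apply Mp.imp
  (with_reducible apply MH.Le') <;> first | fun_prop | assumption
  with_reducible apply Mp.not
  (with_reducible apply MH.Hit') <;> first | fun_prop | assumption

theorem MH.T1' (m : MH K h) (hf : PR f) {c : α → ℕ × ℕ × List Bool} {n : α → ℕ} (hc : PR c)
    (hn : PR n) : Mp K fun X _ i => (h X (f i)).T1 (c i) (n i) := by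
  unfold Hs.T1
  with_reducible apply Mp.all
  with_reducible apply Mp.imp
  (with_reducible apply MH.Q') <;> first | fun_prop | assumption
  with_reducible apply Mp.imp
  (with_reducible apply MH.Le') <;> first | fun_prop | assumption
  with_reducible apply Mp.not
  (with_reducible apply MH.T0') <;> first | fun_prop | assumption

theorem MH.nC' (m : MH K h) (hf : PR f) {c : α → ℕ × ℕ × List Bool} {n : α → ℕ} (hc : PR c)
    (hn : PR n) : Mp K fun X _ i => (h X (f i)).nC (c i) (n i) := by
  unfold Hs.nC
  with_reducible apply Mp.ex
  with_reducible apply Mp.and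
  (with_reducible apply MH.nD') <;> first | fun_prop | assumption
  (with_reducible apply Mp.eq) <;> first | fun_prop | assumption

theorem MH.Rq' (m : MH K h) (hf : PR f) {c : α → ℕ × ℕ × List Bool} {n : α → ℕ} (hn : PR n)
    (hc : PR c) : Mp K fun X _ i => (h X (f i)).Rq (n i) (c i) := by
  unfold Hs.Rq
  dsimp only
  with_reducible apply Mp.and
  with_reducible apply Mp.imp
  (with_reducible apply Mp.eq) <;> first | fun_prop | assumption
  with_reducible apply Mp.all
  with_reducible apply Mp.imp
  (with_reducible apply MH.D') <;> first | fun_prop | assumption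
  with_reducible apply Mp.imp
  (with_reducible apply MH.nD') <;> first | fun_prop | assumption
  (with_reducible apply MH.lt') <;> first | fun_prop | assumption
  with_reducible apply Mp.and
  with_reducible apply Mp.imp
  (with_reducible apply Mp.eq) <;> first | fun_prop | assumption
  with_reducible apply Mp.all
  with_reducible apply Mp.all
  with_reducible apply Mp.all
  with_reducible apply Mp.imp
  (with_reducible apply MH.D') <;> first | fun_prop | assumption
  with_reducible apply Mp.imp
  (with_reducible apply MH.nD') <;> first | fun_prop | assumption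
  with_reducible apply Mp.imp
  (with_reducible apply Mp.eq) <;> first | fun_prop | assumption
  with_reducible apply Mp.imp
  (with_reducible apply MH.isC') <;> first | fun_prop | assumption
  with_reducible apply Mp.or
  (with_reducible apply MH.Le') <;> first | fun_prop | assumption
  (with_reducible apply MH.Dj') <;> first | fun_prop | assumption
  with_reducible apply Mp.and
  with_reducible apply Mp.imp
  (with_reducible apply Mp.eq) <;> first | fun_prop | assumption
  with_reducible apply Mp.or
  (with_reducible apply MH.T0') <;> first | fun_prop | assumption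
  (with_reducible apply MH.T1') <;> first | fun_prop | assumption
  with_reducible apply Mp.imp
  (with_reducible apply Mp.eq) <;> first | fun_prop | assumption
  with_reducible apply Mp.all
  with_reducible apply Mp.imp
  (with_reducible apply MH.D') <;> first | fun_prop | assumption
  with_reducible apply Mp.imp
  (with_reducible apply MH.nD') <;> first | fun_prop | assumption
  with_reducible apply Mp.or
  (with_reducible apply MH.T0') <;> first | fun_prop | assumption
  with_reducible apply Mp.ex
  with_reducible apply Mp.and
  (with_reducible apply MH.D') <;> first | fun_prop | assumption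
  with_reducible apply Mp.and
  (with_reducible apply MH.lt') <;> first | fun_prop | assumption
  with_reducible apply Mp.and
  (with_reducible apply MH.lt') <;> first | fun_prop | assumption
  (with_reducible apply MH.Frc') <;> first | fun_prop | assumption

theorem MH.Ext' (m : MH K h) (hf : PR f) {c d : α → ℕ × ℕ × List Bool} {n : α → ℕ} (hn : PR n)
    (hc : PR c) (hd : PR d) : Mp K fun X _ i => (h X (f i)).Ext (n i) (c i) (d i) := by
  unfold Hs.Ext
  with_reducible apply Mp.and
  with_reducible apply Mp.and
  (with_reducible apply MH.Q') <;> first | fun_prop | assumption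
  with_reducible apply Mp.and
  (with_reducible apply MH.Le') <;> first | fun_prop | assumption
  (with_reducible apply MH.Rq') <;> first | fun_prop | assumption
  with_reducible apply Mp.all
  with_reducible apply Mp.all
  with_reducible apply Mp.all
  with_reducible apply Mp.imp
  (with_reducible apply MH.Q') <;> first | fun_prop | assumption
  with_reducible apply Mp.imp
  (with_reducible apply MH.Le') <;> first | fun_prop | assumption
  with_reducible apply Mp.imp
  (with_reducible apply MH.Rq') <;> first | fun_prop | assumption
  with_reducible apply Mp.imp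
  (with_reducible apply MH.nC') <;> first | fun_prop | assumption
  with_reducible apply Mp.imp
  (with_reducible apply MH.nC') <;> first | fun_prop | assumption
  (with_reducible apply Mp.le) <;> first | fun_prop | assumption

theorem MH.fus' (m : MH K h) (hf : PR f) {σ : α → List Bool} {c : α → ℕ × ℕ × List Bool}
    (hσ : PR σ) (hc : PR c) : Mp K fun X _ i => (h X (f i)).fus (σ i) (c i) := by
  have h1 : Mp K fun X _ (p : π × ℕ × ℕ × List Bool) =>
      (h X p.1).isMin p.2.1 ∧ p.2.2 = (0, []) := by
          with_reducible apply Mp.and
          (with_reducible apply MH.isMin') <;> first | fun_prop | assumption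
          (with_reducible apply Mp.eq) <;> first | fun_prop | assumption
  have h2 : Mp K fun X _ (p : π × ℕ × Bool × (ℕ × ℕ × List Bool) × ℕ × ℕ × List Bool) =>
      (h X p.1).Ext p.2.1 (Hs.rst p.2.2.2.1 p.2.2.1) p.2.2.2.2 := by
          (with_reducible apply MH.Ext') <;> first | fun_prop | assumption
  have key := Mp.chR (i := fun X _ (p : π) (c : ℕ × ℕ × List Bool) =>
      (h X p).isMin c.1 ∧ c.2 = (0, []))
    (s := fun X _ (p : π) k b c c' => (h X p).Ext k (Hs.rst c b) c') h1 h2
  exact key.comp (f := fun i => (f i, σ i, c i)) (by fun_prop)

end Pool.Agent.Helper24.AR
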