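import Pool.Agent.Helper24.AR.I2b

/-!
# Invariance, module I3: coding, forcing tables, fusion, new tables
-/

set_option autoImplicit false

namespace Pool.Agent.Helper24.AR

open Pool.Agent.Helper25.EV

universe u v

variable {A : Type u} {B : Type v} {H : Hs A} {H' : Hs B} {R : A → B → Prop} {W : ℕ → Prop}

theorem Gi.wt (g : Gi H H' R W) (hW : ∀ m, Wd m → W m) (n : ℕ) : H.wt n ↔ H'.wt n := by
  unfold Hs.wt
  exact g.exD fun a b hab _ _ => and_congr (g.nD hW hab _) (g.cD hW hab _)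

theorem Gi.th (g : Gi H H' R W) (hW : ∀ m, Wd m → W m) {c : A × ℕ × List Bool}
    {c' : B × ℕ × List Bool} (h : RC R c c') (σ τ : List Bool) : H.th c σ τ ↔ H'.th c' σ τ := by
  unfold Hs.th
  refine exists_congr fun u => and_congr Iff.rfl (and_congr ?_ (g.phi hW h u τ))
  refine forall_congr' fun m => imp_congr Iff.rfl (and_congr (imp_congr Iff.rfl
    (iff_congr Iff.rfl (g.wt hW _))) Iff.rfl)

theorem Gi.inK (g : Gi H H' R W) (hW : ∀ m, Wd m → W m) {a : A} {b : B} (hab : R a b)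
    (κ : List Bool × ℕ × ℕ × List Bool × ℕ) (s : List Bool) : H.inK a κ s ↔ H'.inK b κ s := by
  unfold Hs.inK
  have g' := g.res hab
  refine g.ex (fun x hx => g'.nm_dom1 hx.1) (fun x hx => g'.nm_dom2 hx.1) fun x y hxy => ?_
  refine and_congr (g'.nmD hW _ _ hxy) (exists_congr fun u => exists_congr fun τ =>
    and_congr (g.phi hW (g.rc hxy _ _) u τ) (and_congr Iff.rfl ?_))
  exact forall_congr' fun m => imp_congr Iff.rfl (iff_congr Iff.rfl (g.cD hW hab m))

theorem Gi.row (g : Gi H H' R W) (hW : ∀ m, Wd m → W m) (P : LPr) {c : A × ℕ × List Bool}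
    {c' : B × ℕ × List Bool} (h : RC R c c') {T : A → Set ℕ} {T' : B → Set ℕ}
    {a : A} {b : B} (hab : R a b)
    (hT : ∀ x y, R x y → H.D x → H.lt x a → T x = T' y)
    (z : Bool) (σ : List Bool) (n : ℕ) (i : Bool) :
    H.row P c T a z σ n i ↔ H'.row P c' T' b z σ n i := by
  have hZt : ∀ σ : List Bool, (∃ β, H.D β ∧ H.lt β a ∧ ∀ α', H.D α' → H.le β α' →
      H.lt α' a → ∀ τ, σ <+: τ → Hs.enF false τ n true ∉ T α') ↔
      (∃ β, H'.D β ∧ H'.lt β b ∧ ∀ α', H'.D α' → H'.le β α' →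
      H'.lt α' b → ∀ τ, σ <+: τ → Hs.enF false τ n true ∉ T' α') := by
    intro σ
    refine g.exD fun x y hxy _ _ => and_congr (g.lt _ _ _ _ hxy hab) ?_
    refine g.allD fun x' y' hxy' hD _ => imp_congr (g.le hxy hxy') ?_
    constructor
    · intro h1 h2 τ hτ
      rw [← hT x' y' hxy' hD ((g.lt _ _ _ _ hxy' hab).mpr h2)]
      exact h1 ((g.lt _ _ _ _ hxy' hab).mpr h2) τ hτ
    · intro h1 h2 τ hτ
      rw [hT x' y' hxy' hD h2]
      exact h1 ((g.lt _ _ _ _ hxy' hab).mp h2) τ hτ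
  have hZf : ∀ σ : List Bool, (∀ τ, σ <+: τ → ¬ ∃ β, H.D β ∧ H.lt β a ∧ ∀ α', H.D α' →
      H.le β α' → H.lt α' a → ∀ τ', τ <+: τ' → Hs.enF false τ' n true ∉ T α') ↔
      (∀ τ, σ <+: τ → ¬ ∃ β, H'.D β ∧ H'.lt β b ∧ ∀ α', H'.D α' → H'.le β α' →
      H'.lt α' b → ∀ τ', τ <+: τ' → Hs.enF false τ' n true ∉ T' α') := fun σ =>
    forall_congr' fun τ => imp_congr Iff.rfl (not_congr (hZt τ))
  unfold Hs.row
  refine or_congr (and_congr Iff.rfl (and_congr (g.limAt hab)
    (or_congr (and_congr Iff.rfl (hZt σ)) (and_congr Iff.rfl (hZf σ)))))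
    (and_congr Iff.rfl (or_congr ?_ (or_congr ?_ Iff.rfl)))
  · refine exists_congr fun n' => and_congr Iff.rfl (or_congr ?_ (or_congr ?_ ?_))
    · refine and_congr (g.isMin hab) (or_congr ?_ Iff.rfl)
      exact exists_congr fun k => and_congr Iff.rfl (exists_congr fun τ =>
        and_congr (g.th hW h σ τ) Iff.rfl)
    · refine g.ex (fun x hx => g.tot1 x hx.1.1) (fun x hx => g.tot2 x hx.1.1) fun x y hxy => ?_
      have key : H.sc x a → T x = T' y := fun hs => hT x y hxy hs.1 hs.2.2.1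
      constructor
      · rintro ⟨h1, h2⟩
        rw [key h1] at h2
        exact ⟨(g.sc hxy hab).mp h1, h2⟩
      · rintro ⟨h1, h2⟩
        have h1' := (g.sc hxy hab).mpr h1
        rw [← key h1'] at h2
        exact ⟨h1', h2⟩
    · refine and_congr (g.limAt hab) (or_congr Iff.rfl (and_congr Iff.rfl (or_congr
        (and_congr Iff.rfl (hZt σ)) (and_congr Iff.rfl (hZf σ)))))
  · refine exists_congr fun κ => and_congr Iff.rfl (or_congr (and_congr Iff.rfl ?_)
      (and_congr Iff.rfl ?_))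
    · exact forall_congr' fun σ' => forall_congr' fun τ => imp_congr Iff.rfl
        (imp_congr (g.th hW h σ' τ) (g.inK hW hab κ τ))
    · exact exists_congr fun τ => and_congr (g.th hW h σ τ) (not_congr (g.inK hW hab κ τ))

theorem Gi.RR (g : Gi H H' R W) (hW : ∀ m, Wd m → W m) (P : LPr) {c : A × ℕ × List Bool}
    {c' : B × ℕ × List Bool} (h : RC R c c') {a : A} {b : B} (hab : R a b)
    (z : Bool) (σ : List Bool) (n : ℕ) (i : Bool) :
    H.RR P c a z σ n i ↔ H'.RR P c' b z σ n i := by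
  -- both directions use a table which corresponds to the given one
  have key : ∀ (T : A → Set ℕ) (T' : B → Set ℕ), (∀ x y, R x y → T x = T' y) →
      ((∀ α', H.D α' → H.le α' a → ∀ m, m ∈ T α' ↔
        ∃ z σ n i, m = Hs.enF z σ n i ∧ H.row P c T α' z σ n i) ∧ Hs.enF z σ n i ∈ T a ↔
      (∀ α', H'.D α' → H'.le α' b → ∀ m, m ∈ T' α' ↔
        ∃ z σ n i, m = Hs.enF z σ n i ∧ H'.row P c' T' α' z σ n i) ∧ Hs.enF z σ n i ∈ T' b) := by
    intro T T' hTT
    refine and_congr ?_ (by rw [hTT a b hab])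
    refine g.allD fun x y hxy _ _ => imp_congr (g.le hxy hab) (forall_congr' fun m => ?_)
    rw [hTT x y hxy]
    refine iff_congr Iff.rfl ?_
    exact exists_congr fun z => exists_congr fun σ => exists_congr fun n => exists_congr fun i =>
      and_congr Iff.rfl (g.row hW P h hxy (fun x' y' hxy' _ _ => hTT x' y' hxy') z σ n i)
  unfold Hs.RR
  constructor
  · rintro ⟨T, hT⟩
    refine ⟨fun y => {m | ∃ x, R x y ∧ m ∈ T x}, (key T _ ?_).mp hT⟩
    intro x y hxy
    ext m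
    simp only [Set.mem_ofPred_eq]
    constructor
    · intro hm
      exact ⟨x, hxy, hm⟩
    · rintro ⟨x', hx', hm⟩
      rwa [(g.eq x y x' y hxy hx').mpr rfl]
  · rintro ⟨T', hT'⟩
    refine ⟨fun x => {m | ∃ y, R x y ∧ m ∈ T' y}, (key _ T' ?_).mpr hT'⟩
    intro x y hxy
    ext m
    simp only [Set.mem_ofPred_eq]
    constructor
    · rintro ⟨y', hy', hm⟩
      rwa [(g.eq x y x y' hxy hy').mp rfl]
    · intro hm
      exact ⟨y, hxy, hm⟩

end Pool.Agent.Helper24.AR
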