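import Pool.Agent.Helper24.AR.D2
import Pool.Agent.Helper24.AR.I3

/-!
# The operators of `Hist.lean` are macro-computable: forcing tables
-/

set_option autoImplicit false

namespace Pool.Agent.Helper24.AR

open Pool.Agent.Helper25.EV Encodable

universe u

/-! ## The forcing table -/

section Tab

variable {A : Type u} {H : Hs A}

theorem giRefl (H : Hs A) : Gi H H (fun a b => a = b) fun _ => True where
  dom := by rintro a _ rfl; rfl
  tot1 := fun a _ => ⟨a, rfl⟩
  tot2 := fun a _ => ⟨a, rfl⟩
  eq := by rintro a _ b _ rfl rfl; rfl
  lt := by rintro a _ b _ rfl rfl; rfl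
  lab := by rintro a _ m rfl _; rfl
  num := by rintro a _ b _ k rfl rfl; rfl
  num1 := fun _ a _ _ _ => ⟨a, rfl⟩
  num2 := fun _ a _ _ _ => ⟨a, rfl⟩

theorem row_local (P : LPr) (c : A × ℕ × List Bool) {T T' : A → Set ℕ} {a : A}
    (hT : ∀ x, H.D x → H.lt x a → T x = T' x) (z : Bool) (σ : List Bool) (n : ℕ) (i : Bool) :
    H.row P c T a z σ n i ↔ H.row P c T' a z σ n i :=
  (giRefl H).row (fun _ _ => trivial) P (c := c) (c' := c) ⟨rfl, rfl⟩ rfl
    (by rintro x _ rfl h1 h2; exact hT x h1 h2) z σ n i

/-- all rows of the forcing table -/
theorem exists_tab (H : Hs A) (wf : WellFounded fun x y => H.D x ∧ H.lt x y) (P : LPr)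
    (c : A × ℕ × List Bool) : ∃ T : A → Set ℕ, ∀ a m, m ∈ T a ↔
      ∃ z σ n i, m = Hs.enF z σ n i ∧ H.row P c T a z σ n i := by
  refine ⟨wf.fix fun a ih => {m | ∃ z σ n i, m = Hs.enF z σ n i ∧
    H.row P c (fun x => {m | ∃ h : H.D x ∧ H.lt x a, m ∈ ih x h}) a z σ n i}, fun a m => ?_⟩
  rw [wf.fix_eq]
  show (∃ z σ n i, m = Hs.enF z σ n i ∧ _) ↔ _
  refine exists_congr fun z => exists_congr fun σ => exists_congr fun n => exists_congr fun i =>
    and_congr Iff.rfl (row_local P c (fun x h1 h2 => ?_) z σ n i)
  ext m
  exact ⟨fun ⟨_, h⟩ => h, fun h => ⟨⟨h1, h2⟩, h⟩⟩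

theorem RR_iff (wf : WellFounded fun x y => H.D x ∧ H.lt x y)
    (tr : ∀ a b c, H.lt a b → H.lt b c → H.lt a c) (P : LPr) (c : A × ℕ × List Bool)
    {T : A → Set ℕ} (hT : ∀ a m, m ∈ T a ↔
      ∃ z σ n i, m = Hs.enF z σ n i ∧ H.row P c T a z σ n i)
    (a : A) (z : Bool) (σ : List Bool) (n : ℕ) (i : Bool) :
    H.RR P c a z σ n i ↔ (H.D a → Hs.enF z σ n i ∈ T a) := by
  constructor
  · rintro ⟨T', h1, h2⟩ ha
    have key : ∀ x, H.D x → H.le x a → T' x = T x := by
      intro x
      induction x using wf.induction with
      | _ x ih =>
        intro hx hxa
        ext m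
        rw [h1 x hx hxa m, hT x m]
        refine exists_congr fun z => exists_congr fun σ => exists_congr fun n =>
          exists_congr fun i => and_congr Iff.rfl (row_local P c (fun y hy hyx => ?_) z σ n i)
        refine ih y ⟨hy, hyx⟩ hy (Or.inl ?_)
        rcases hxa with h | rfl
        · exact tr _ _ _ hyx h
        · exact hyx
    rw [key a ha (Or.inr rfl)] at h2
    exact h2
  · intro h
    classical
    refine ⟨fun x => if H.D x then T x else Set.univ, fun x hx _ m => ?_, ?_⟩
    · beta_reduce
      rw [if_pos hx, hT x m]
      refine exists_congr fun z => exists_congr fun σ => exists_congr fun n =>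
          exists_congr fun i => and_congr Iff.rfl (row_local P c (fun y hy hyx => ?_) z σ n i)
      rw [if_pos hy]
    · beta_reduce
      by_cases ha : H.D a
      · rw [if_pos ha]
        exact h ha
      · rw [if_neg ha]
        trivial

end Tab

variable {K : Set (Set ℕ)} {π : Type} [Primcodable π] {h : Set ℕ → π → Hs ℕ}
  {α : Type} [Primcodable α] {f : α → π} {P : LPr}

/-! ## The components of the local process -/

@[fun_prop] theorem PR.ini' [hP : Fact P.Prim] {n : α → ℕ} (hn : PR n) :
    PR fun x => P.ini (n x) := Primrec.comp hP.out.ini hn

@[fun_prop] theorem PR.nb' [hP : Fact P.Prim] {n : α → ℕ} (hn : PR n) :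
    PR fun x => P.nb (n x) := Primrec.comp hP.out.nb hn

@[fun_prop] theorem PR.rs' [hP : Fact P.Prim] {n : α → ℕ} (hn : PR n) :
    PR fun x => P.rs (n x) := Primrec.comp hP.out.rs hn

@[fun_prop] theorem PR.ev' [hP : Fact P.Prim] {n : α → ℕ} {v : α → List Bool} (hn : PR n)
    (hv : PR v) : PR fun x => P.ev (n x) (v x) := Primrec₂.comp hP.out.ev hn hv

@[fun_prop] theorem PR.enF' {z i : α → Bool} {σ : α → List Bool} {n : α → ℕ} (hz : PR z)
    (hσ : PR σ) (hn : PR n) (hi : PR i) : PR fun x => Hs.enF (z x) (σ x) (n x) (i x) := by
  unfold Hs.enF
  fun_prop

theorem MH.wt' (m : MH K h) (hf : PR f) {a : α → ℕ} (ha : PR a) :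
    Mp K fun X _ x => (h X (f x)).wt (a x) := by
  unfold Hs.wt
  with_reducible apply Mp.ex
  with_reducible apply Mp.and
  (with_reducible apply MH.D') <;> first | fun_prop | assumption
  with_reducible apply Mp.and
  (with_reducible apply MH.nD') <;> first | fun_prop | assumption
  (with_reducible apply MH.cD') <;> first | fun_prop | assumption

theorem MH.th' (m : MH K h) (hf : PR f) {c : α → ℕ × ℕ × List Bool} {σ τ : α → List Bool}
    (hc : PR c) (hσ : PR σ) (hτ : PR τ) : Mp K fun X _ i => (h X (f i)).th (c i) (σ i) (τ i) := by
  unfold Hs.th
  with_reducible apply Mp.ex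
  with_reducible apply Mp.and
  (with_reducible apply Mp.eq) <;> first | fun_prop | assumption
  with_reducible apply Mp.and
  with_reducible apply Mp.all
  with_reducible apply Mp.imp
  (with_reducible apply Mp.lt) <;> first | fun_prop | assumption
  with_reducible apply Mp.and
  with_reducible apply Mp.imp
  (with_reducible apply Mp.eq) <;> first | fun_prop | assumption
  with_reducible apply Mp.iff
  (with_reducible apply Mp.eq) <;> first | fun_prop | assumption
  (with_reducible apply MH.wt') <;> first | fun_prop | assumption
  with_reducible apply Mp.imp
  (with_reducible apply Mp.eq) <;> first | fun_prop | assumption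
  (with_reducible apply Mp.eq) <;> first | fun_prop | assumption
  (with_reducible apply MH.phi') <;> first | fun_prop | assumption

theorem MH.inK' (m : MH K h) (hf : PR f) {a : α → ℕ}
    {κ : α → List Bool × ℕ × ℕ × List Bool × ℕ} {s : α → List Bool}
    (ha : PR a) (hκ : PR κ) (hs : PR s) : Mp K fun X _ i => (h X (f i)).inK (a i) (κ i) (s i) := by
  unfold Hs.inK
  with_reducible apply Mp.ex
  with_reducible apply Mp.and
  (with_reducible apply MH.nmDr') <;> first | fun_prop | assumption
  with_reducible apply Mp.ex
  with_reducible apply Mp.ex
  with_reducible apply Mp.and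
  (with_reducible apply MH.phi') <;> first | fun_prop | assumption
  with_reducible apply Mp.and
  (with_reducible apply Mp.pre) <;> first | fun_prop | assumption
  with_reducible apply Mp.all
  with_reducible apply Mp.imp
  (with_reducible apply Mp.lt) <;> first | fun_prop | assumption
  with_reducible apply Mp.iff
  (with_reducible apply Mp.eq) <;> first | fun_prop | assumption
  (with_reducible apply MH.cD') <;> first | fun_prop | assumption

/-- the table used in the calculus -/
def inT' (t : ℕ → ℕ → Prop) (a m : ℕ) : Prop := t a m

theorem MH.rowG (m : MH K h) (hf : PR f) [hP : Fact P.Prim] {c : α → ℕ × ℕ × List Bool}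
    {a n : α → ℕ} {z i : α → Bool} {σ : α → List Bool} (hc : PR c) (ha : PR a) (hz : PR z)
    (hσ : PR σ) (hn : PR n) (hi : PR i) {t : Set ℕ → Set ℕ → α → ℕ → ℕ → Prop}
    (ht : Mp K fun X T (p : α × ℕ × ℕ) => t X T p.1 p.2.1 p.2.2) :
    Mp K fun X T x => (h X (f x)).row P (c x) (fun a => {m | t X T x a m}) (a x) (z x) (σ x) (n x)
      (i x) := by
  have ht' : ∀ {β : Type} [Primcodable β] {x : β → α} {a m : β → ℕ}, PR x → PR a → PR m →
      Mp K fun X T y => m y ∈ {m | t X T (x y) (a y) m} := fun hx ha hm =>
    ht.comp (f := fun y => (_, _, _)) (hx.pair' (ha.pair' hm))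
  unfold Hs.row
  dsimp only
  with_reducible apply Mp.or
  with_reducible apply Mp.and
  (with_reducible apply Mp.eq) <;> first | fun_prop | assumption
  with_reducible apply Mp.and
  (with_reducible apply MH.limAt') <;> first | fun_prop | assumption
  with_reducible apply Mp.or
  with_reducible apply Mp.and
  (with_reducible apply Mp.eq) <;> first | fun_prop | assumption
  with_reducible apply Mp.ex
  with_reducible apply Mp.and
  (with_reducible apply MH.D') <;> first | fun_prop | assumption
  with_reducible apply Mp.and
  (with_reducible apply MH.lt') <;> first | fun_prop | assumption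
  with_reducible apply Mp.all
  with_reducible apply Mp.imp
  (with_reducible apply MH.D') <;> first | fun_prop | assumption
  with_reducible apply Mp.imp
  (with_reducible apply MH.le') <;> first | fun_prop | assumption
  with_reducible apply Mp.imp
  (with_reducible apply MH.lt') <;> first | fun_prop | assumption
  with_reducible apply Mp.all
  with_reducible apply Mp.imp
  (with_reducible apply Mp.pre) <;> first | fun_prop | assumption
  with_reducible apply Mp.not
  (with_reducible apply ht') <;> first | fun_prop | assumption
  with_reducible apply Mp.and
  (with_reducible apply Mp.eq) <;> first | fun_prop | assumption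
  with_reducible apply Mp.all
  with_reducible apply Mp.imp
  (with_reducible apply Mp.pre) <;> first | fun_prop | assumption
  with_reducible apply Mp.not
  with_reducible apply Mp.ex
  with_reducible apply Mp.and
  (with_reducible apply MH.D') <;> first | fun_prop | assumption
  with_reducible apply Mp.and
  (with_reducible apply MH.lt') <;> first | fun_prop | assumption
  with_reducible apply Mp.all
  with_reducible apply Mp.imp
  (with_reducible apply MH.D') <;> first | fun_prop | assumption
  with_reducible apply Mp.imp
  (with_reducible apply MH.le') <;> first | fun_prop | assumption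
  with_reducible apply Mp.imp
  (with_reducible apply MH.lt') <;> first | fun_prop | assumption
  with_reducible apply Mp.all
  with_reducible apply Mp.imp
  (with_reducible apply Mp.pre) <;> first | fun_prop | assumption
  with_reducible apply Mp.not
  (with_reducible apply ht') <;> first | fun_prop | assumption
  with_reducible apply Mp.and
  (with_reducible apply Mp.eq) <;> first | fun_prop | assumption
  with_reducible apply Mp.or
  with_reducible apply Mp.ex
  with_reducible apply Mp.and
  (with_reducible apply Mp.eq) <;> first | fun_prop | assumption
  with_reducible apply Mp.or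
  with_reducible apply Mp.and
  (with_reducible apply MH.isMin') <;> first | fun_prop | assumption
  with_reducible apply Mp.or
  with_reducible apply Mp.ex
  with_reducible apply Mp.and
  (with_reducible apply Mp.eq) <;> first | fun_prop | assumption
  with_reducible apply Mp.ex
  with_reducible apply Mp.and
  (with_reducible apply MH.th') <;> first | fun_prop | assumption
  with_reducible apply Mp.and
  (with_reducible apply Mp.lt) <;> first | fun_prop | assumption
  (with_reducible apply Mp.eq) <;> first | fun_prop | assumption
  (with_reducible apply Mp.eq) <;> first | fun_prop | assumption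
  with_reducible apply Mp.or
  with_reducible apply Mp.ex
  with_reducible apply Mp.and
  (with_reducible apply MH.sc') <;> first | fun_prop | assumption
  with_reducible apply Mp.ex
  with_reducible apply Mp.and
  (with_reducible apply Mp.eq) <;> first | fun_prop | assumption
  with_reducible apply Mp.and
  with_reducible apply Mp.all
  with_reducible apply Mp.imp
  (with_reducible apply Mp.lt) <;> first | fun_prop | assumption
  (with_reducible apply ht') <;> first | fun_prop | assumption
  (with_reducible apply Mp.eq) <;> first | fun_prop | assumption
  with_reducible apply Mp.and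
  (with_reducible apply MH.limAt') <;> first | fun_prop | assumption
  with_reducible apply Mp.or
  (with_reducible apply Mp.eq) <;> first | fun_prop | assumption
  with_reducible apply Mp.and
  (with_reducible apply Mp.eq) <;> first | fun_prop | assumption
  with_reducible apply Mp.or
  with_reducible apply Mp.and
  (with_reducible apply Mp.eq) <;> first | fun_prop | assumption
  with_reducible apply Mp.ex
  with_reducible apply Mp.and
  (with_reducible apply MH.D') <;> first | fun_prop | assumption
  with_reducible apply Mp.and
  (with_reducible apply MH.lt') <;> first | fun_prop | assumption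
  with_reducible apply Mp.all
  with_reducible apply Mp.imp
  (with_reducible apply MH.D') <;> first | fun_prop | assumption
  with_reducible apply Mp.imp
  (with_reducible apply MH.le') <;> first | fun_prop | assumption
  with_reducible apply Mp.imp
  (with_reducible apply MH.lt') <;> first | fun_prop | assumption
  with_reducible apply Mp.all
  with_reducible apply Mp.imp
  (with_reducible apply Mp.pre) <;> first | fun_prop | assumption
  with_reducible apply Mp.not
  (with_reducible apply ht') <;> first | fun_prop | assumption
  with_reducible apply Mp.and
  (with_reducible apply Mp.eq) <;> first | fun_prop | assumption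
  with_reducible apply Mp.all
  with_reducible apply Mp.imp
  (with_reducible apply Mp.pre) <;> first | fun_prop | assumption
  with_reducible apply Mp.not
  with_reducible apply Mp.ex
  with_reducible apply Mp.and
  (with_reducible apply MH.D') <;> first | fun_prop | assumption
  with_reducible apply Mp.and
  (with_reducible apply MH.lt') <;> first | fun_prop | assumption
  with_reducible apply Mp.all
  with_reducible apply Mp.imp
  (with_reducible apply MH.D') <;> first | fun_prop | assumption
  with_reducible apply Mp.imp
  (with_reducible apply MH.le') <;> first | fun_prop | assumption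
  with_reducible apply Mp.imp
  (with_reducible apply MH.lt') <;> first | fun_prop | assumption
  with_reducible apply Mp.all
  with_reducible apply Mp.imp
  (with_reducible apply Mp.pre) <;> first | fun_prop | assumption
  with_reducible apply Mp.not
  (with_reducible apply ht') <;> first | fun_prop | assumption
  with_reducible apply Mp.or
  with_reducible apply Mp.ex
  with_reducible apply Mp.and
  (with_reducible apply Mp.eq) <;> first | fun_prop | assumption
  with_reducible apply Mp.or
  with_reducible apply Mp.and
  (with_reducible apply Mp.eq) <;> first | fun_prop | assumption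
  with_reducible apply Mp.all
  with_reducible apply Mp.all
  with_reducible apply Mp.imp
  (with_reducible apply Mp.pre) <;> first | fun_prop | assumption
  with_reducible apply Mp.imp
  (with_reducible apply MH.th') <;> first | fun_prop | assumption
  (with_reducible apply MH.inK') <;> first | fun_prop | assumption
  with_reducible apply Mp.and
  (with_reducible apply Mp.eq) <;> first | fun_prop | assumption
  with_reducible apply Mp.ex
  with_reducible apply Mp.and
  (with_reducible apply MH.th') <;> first | fun_prop | assumption
  with_reducible apply Mp.not
  (with_reducible apply MH.inK') <;> first | fun_prop | assumption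
  with_reducible apply Mp.and
  with_reducible apply Mp.not
  with_reducible apply Mp.ex
  (with_reducible apply Mp.eq) <;> first | fun_prop | assumption
  with_reducible apply Mp.and
  with_reducible apply Mp.not
  with_reducible apply Mp.ex
  (with_reducible apply Mp.eq) <;> first | fun_prop | assumption
  (with_reducible apply Mp.eq) <;> first | fun_prop | assumption

end Pool.Agent.Helper24.AR
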