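import Pool.Agent.Helper24.AR.D3

/-!
# The operators of `Hist.lean` are macro-computable: forcing tables, new tables
-/

set_option autoImplicit false

namespace Pool.Agent.Helper24.AR

open Pool.Agent.Helper25.EV Encodable

variable {K : Set (Set ℕ)} {π : Type} [Primcodable π] {h : Set ℕ → π → Hs ℕ}
  {α : Type} [Primcodable α] {f : α → π} {P : LPr}

/-- the order of the structures is transitive and well-founded on the domain -/
def MW (K : Set (Set ℕ)) (h : Set ℕ → π → Hs ℕ) : Prop :=
  ∀ X ∈ K, ∀ p, (WellFounded fun x y => (h X p).D x ∧ (h X p).lt x y) ∧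
    ∀ a b c, (h X p).lt a b → (h X p).lt b c → (h X p).lt a c

/-- well-foundedness with a constant parameter -/
theorem wf_param {β γ : Type} {r : β → γ → γ → Prop} (hr : ∀ b, WellFounded (r b)) :
    WellFounded fun x y : β × γ => x.1 = y.1 ∧ r x.1 x.2 y.2 := by
  constructor
  rintro ⟨b, c⟩
  induction c using (hr b).induction with
  | _ c ih =>
    constructor
    rintro ⟨b', c'⟩ ⟨h1, h2⟩
    have h1' : b' = b := h1
    subst h1'
    exact ih c' h2

theorem MH.RR' (m : MH K h) (w : MW K h) (hf : PR f) [hP : Fact P.Prim]
    {c : α → ℕ × ℕ × List Bool}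
    {a n : α → ℕ} {z i : α → Bool} {σ : α → List Bool} (hc : PR c) (ha : PR a) (hz : PR z)
    (hσ : PR σ) (hn : PR n) (hi : PR i) :
    Mp K fun X _ x => (h X (f x)).RR P (c x) (a x) (z x) (σ x) (n x) (i x) := by
  classical
  let T : Set ℕ → π → (ℕ × ℕ × List Bool) → ℕ → Set ℕ := fun X p c =>
    if hX : X ∈ K then (exists_tab (h X p) (w X hX p).1 P c).choose else fun _ => ∅
  have hT : ∀ X ∈ K, ∀ p c a m, m ∈ T X p c a ↔
      ∃ z σ n i, m = Hs.enF z σ n i ∧ (h X p).row P c (T X p c) a z σ n i := by
    intro X hX p c
    have e : T X p c = (exists_tab (h X p) (w X hX p).1 P c).choose := dif_pos hX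
    rw [e]
    exact (exists_tab (h X p) (w X hX p).1 P c).choose_spec
  have key : Mp K fun X _ (q : ((π × (ℕ × ℕ × List Bool)) × ℕ) × ℕ) =>
      q.2 ∈ T X q.1.1.1 q.1.1.2 q.1.2 := by
    refine Mp.recn (W := fun X (x y : (π × (ℕ × ℕ × List Bool)) × ℕ) => x.1 = y.1 ∧
        ((h X x.1.1).D x.2 ∧ (h X x.1.1).lt x.2 y.2)) ?_ ?_
      (Φ := fun X t (x : (π × (ℕ × ℕ × List Bool)) × ℕ) (m : ℕ) =>
        ∃ z σ n i, m = Hs.enF z σ n i ∧
          (h X x.1.1).row P x.1.2 (fun a => {m | t (x.1, a) m}) x.2 z σ n i) ?_ ?_
      (R := fun X x m => m ∈ T X x.1.1 x.1.2 x.2) ?_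
    · with_reducible apply Mp.and
      (with_reducible apply Mp.eq) <;> first | fun_prop | assumption
      with_reducible apply Mp.and
      (with_reducible apply MH.D') <;> first | fun_prop | assumption
      (with_reducible apply MH.lt') <;> first | fun_prop | assumption
    · intro X hX
      exact wf_param (r := fun (q : π × (ℕ × ℕ × List Bool)) x y =>
        (h X q.1).D x ∧ (h X q.1).lt x y) fun q => (w X hX q.1).1
    · have h1 : ∀ {β : Type} [Primcodable β] {x : β → ((π × (ℕ × ℕ × List Bool)) × ℕ)}
          {z i : β → Bool} {σ : β → List Bool} {n : β → ℕ}, PR x → PR z → PR σ → PR n → PR i →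
          Mp K fun X T y => (h X (x y).1.1).row P (x y).1.2
            (fun a => {m | encode (((x y).1, a), m) ∈ T}) (x y).2 (z y) (σ y) (n y) (i y) := by
        intro β _ x z i σ n hx hz hσ hn hi
        refine m.rowG (f := fun y => (x y).1.1) (by fun_prop) (c := fun y => (x y).1.2)
          (a := fun y => (x y).2) (by fun_prop) (by fun_prop) hz hσ hn hi
          (t := fun X T y a m => encode (((x y).1, a), m) ∈ T) ?_
        exact Mp.memT (by fun_prop)
      with_reducible apply Mp.ex
      with_reducible apply Mp.ex
      with_reducible apply Mp.ex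
      with_reducible apply Mp.ex
      with_reducible apply Mp.and
      (with_reducible apply Mp.eq) <;> first | fun_prop | assumption
      (with_reducible apply h1) <;> first | fun_prop | assumption
    · intro X hX t t' x ht m hm
      obtain ⟨z, σ, n, i, e, h2⟩ := hm
      refine ⟨z, σ, n, i, e, ?_⟩
      refine (row_local P _ (fun y hy1 hy2 => ?_) z σ n i).mp h2
      ext m'
      exact ht (x.1, y) ⟨rfl, hy1, hy2⟩ m'
    · intro X hX x m
      exact hT X hX x.1.1 x.1.2 x.2 m
  have h2 : Mp K fun X _ x => (h X (f x)).D (a x) →
      Hs.enF (z x) (σ x) (n x) (i x) ∈ T X (f x) (c x) (a x) := by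
    apply Mp.imp
    · (with_reducible apply MH.D') <;> first | fun_prop | assumption
    · exact key.comp (f := fun x => (((f x, c x), a x), Hs.enF (z x) (σ x) (n x) (i x)))
        (by fun_prop)
  refine h2.congr fun X hX _ x => ?_
  exact RR_iff (w X hX (f x)).1 (w X hX (f x)).2 P (c x) (hT X hX (f x) (c x)) _ _ _ _ _

theorem MH.rlL' (m : MH K h) (hf : PR f) {a j n : α → ℕ} (ha : PR a) (hj : PR j) (hn : PR n) :
    Mp K fun X _ x => rlL ((h X (f x)).lab (a x)) (j x) (n x) := by
  unfold rlL
  (with_reducible apply MH.lab') <;> first | fun_prop | assumption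

theorem MH.dk' (m : MH K h) (w : MW K h) (hf : PR f) [hP : Fact P.Prim]
    {c : α → ℕ × ℕ × List Bool} {k : α → ℕ} {σ : α → List Bool} (hc : PR c) (hk : PR k)
    (hσ : PR σ) : Mp K fun X _ x => (h X (f x)).dk P rlL (c x) (k x) (σ x) := by
  unfold Hs.dk
  dsimp only
  with_reducible apply Mp.and
  with_reducible apply Mp.imp
  (with_reducible apply Mp.eq) <;> first | fun_prop | assumption
  with_reducible apply Mp.all
  with_reducible apply Mp.imp
  (with_reducible apply MH.D') <;> first | fun_prop | assumption
  with_reducible apply Mp.imp
  (with_reducible apply MH.nD') <;> first | fun_prop | assumption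
  with_reducible apply Mp.ex
  (with_reducible apply MH.RR') <;> first | fun_prop | assumption
  with_reducible apply Mp.and
  with_reducible apply Mp.imp
  (with_reducible apply Mp.eq) <;> first | fun_prop | assumption
  with_reducible apply Mp.all
  with_reducible apply Mp.imp
  (with_reducible apply MH.limAt') <;> first | fun_prop | assumption
  with_reducible apply Mp.imp
  (with_reducible apply MH.nD') <;> first | fun_prop | assumption
  with_reducible apply Mp.ex
  (with_reducible apply MH.RR') <;> first | fun_prop | assumption
  with_reducible apply Mp.and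
  with_reducible apply Mp.imp
  (with_reducible apply Mp.eq) <;> first | fun_prop | assumption
  with_reducible apply Mp.all
  with_reducible apply Mp.all
  with_reducible apply Mp.imp
  (with_reducible apply MH.limAt') <;> first | fun_prop | assumption
  with_reducible apply Mp.imp
  (with_reducible apply MH.D') <;> first | fun_prop | assumption
  with_reducible apply Mp.imp
  (with_reducible apply MH.lt') <;> first | fun_prop | assumption
  with_reducible apply Mp.imp
  (with_reducible apply MH.nD') <;> first | fun_prop | assumption
  with_reducible apply Mp.imp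
  (with_reducible apply MH.nD') <;> first | fun_prop | assumption
  with_reducible apply Mp.or
  (with_reducible apply MH.RR') <;> first | fun_prop | assumption
  with_reducible apply Mp.ex
  with_reducible apply Mp.and
  (with_reducible apply MH.D') <;> first | fun_prop | assumption
  with_reducible apply Mp.and
  (with_reducible apply MH.le') <;> first | fun_prop | assumption
  with_reducible apply Mp.and
  (with_reducible apply MH.lt') <;> first | fun_prop | assumption
  (with_reducible apply MH.RR') <;> first | fun_prop | assumption
  with_reducible apply Mp.imp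
  (with_reducible apply Mp.eq) <;> first | fun_prop | assumption
  with_reducible apply Mp.all
  with_reducible apply Mp.imp
  (with_reducible apply MH.D') <;> first | fun_prop | assumption
  with_reducible apply Mp.imp
  (with_reducible apply MH.nD') <;> first | fun_prop | assumption
  with_reducible apply Mp.ex
  with_reducible apply Mp.and
  (with_reducible apply MH.th') <;> first | fun_prop | assumption
  with_reducible apply Mp.ex
  with_reducible apply Mp.and
  (with_reducible apply Mp.lt) <;> first | fun_prop | assumption
  with_reducible apply Mp.not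
  with_reducible apply Mp.iff
  (with_reducible apply Mp.eq) <;> first | fun_prop | assumption
  (with_reducible apply MH.rlL') <;> first | fun_prop | assumption

theorem MH.lext' (m : MH K h) (w : MW K h) (hf : PR f) [hP : Fact P.Prim]
    {c : α → ℕ × ℕ × List Bool} {k : α → ℕ} {σ τ : α → List Bool} (hc : PR c) (hσ : PR σ)
    (hk : PR k) (hτ : PR τ) :
    Mp K fun X _ x => (h X (f x)).lext P rlL (c x) (σ x) (k x) (τ x) := by
  unfold Hs.lext
  with_reducible apply Mp.and
  with_reducible apply Mp.and
  (with_reducible apply Mp.pre) <;> first | fun_prop | assumption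
  (with_reducible apply MH.dk') <;> first | fun_prop | assumption
  with_reducible apply Mp.all
  with_reducible apply Mp.imp
  (with_reducible apply Mp.pre) <;> first | fun_prop | assumption
  with_reducible apply Mp.imp
  (with_reducible apply MH.dk') <;> first | fun_prop | assumption
  (with_reducible apply Mp.le) <;> first | fun_prop | assumption

theorem MH.psi' (m : MH K h) (w : MW K h) (hf : PR f) [hP : Fact P.Prim]
    {c : α → ℕ × ℕ × List Bool} {σ τ : α → List Bool} (hc : PR c) (hσ : PR σ)
    (hτ : PR τ) :
    Mp K fun X _ x => (h X (f x)).psi P rlL (c x) (σ x) (τ x) := by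
  have h1 : Mp K fun X _ (p : (π × (ℕ × ℕ × List Bool)) × List Bool) =>
      (h X p.1.1).lext P rlL p.1.2 [] 0 p.2 := by
          (with_reducible apply MH.lext') <;> first | fun_prop | assumption
  have h2 : Mp K fun X _ (p : (π × (ℕ × ℕ × List Bool)) × ℕ × Bool × List Bool × List Bool) =>
      (h X p.1.1).lext P rlL p.1.2 (p.2.2.2.1 ++ [p.2.2.1]) (p.2.1 + 1) p.2.2.2.2 := by
          (with_reducible apply MH.lext') <;> first | fun_prop | assumption
  have key := Mp.chR (i := fun X _ (p : π × (ℕ × ℕ × List Bool)) ρ => (h X p.1).lext P rlL p.2 [] 0 ρ)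
    (s := fun X _ (p : π × (ℕ × ℕ × List Bool)) k b ρ ρ' =>
      (h X p.1).lext P rlL p.2 (ρ ++ [b]) (k + 1) ρ') h1 h2
  exact key.comp (f := fun i => ((f i, c i), σ i, τ i)) (by fun_prop)

theorem MH.src' (m : MH K h) (hf : PR f) {c : α → ℕ × ℕ × List Bool} {k : α → ℕ}
    (hk : PR k) (hc : PR c) : Mp K fun X _ x => (h X (f x)).src (k x) (c x) := by
  unfold Hs.src
  with_reducible apply Mp.and
  with_reducible apply Mp.ex
  (with_reducible apply MH.isMax') <;> first | fun_prop | assumption
  with_reducible apply Mp.and
  (with_reducible apply MH.nC') <;> first | fun_prop | assumption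
  (with_reducible apply MH.Q') <;> first | fun_prop | assumption

theorem MH.ntab' (m : MH K h) (w : MW K h) (hf : PR f) [hP : Fact P.Prim]
    {k : α → ℕ} {σ τ : α → List Bool} (hk : PR k) (hσ : PR σ)
    (hτ : PR τ) :
    Mp K fun X _ x => (h X (f x)).ntab P rlL (k x) (σ x) (τ x) := by
  unfold Hs.ntab
  with_reducible apply Mp.or
  with_reducible apply Mp.and
  with_reducible apply Mp.all
  with_reducible apply Mp.not
  (with_reducible apply MH.D') <;> first | fun_prop | assumption
  with_reducible apply Mp.and
  (with_reducible apply Mp.eq) <;> first | fun_prop | assumption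
  (with_reducible apply Mp.eq) <;> first | fun_prop | assumption
  with_reducible apply Mp.or
  with_reducible apply Mp.ex
  with_reducible apply Mp.and
  (with_reducible apply MH.src') <;> first | fun_prop | assumption
  with_reducible apply Mp.ex
  with_reducible apply Mp.and
  (with_reducible apply MH.psi') <;> first | fun_prop | assumption
  (with_reducible apply MH.th') <;> first | fun_prop | assumption
  with_reducible apply Mp.and
  (with_reducible apply MH.isLim') <;> first | fun_prop | assumption
  with_reducible apply Mp.and
  (with_reducible apply Mp.eq) <;> first | fun_prop | assumption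
  with_reducible apply Mp.ex
  with_reducible apply Mp.and
  (with_reducible apply MH.fus') <;> first | fun_prop | assumption
  (with_reducible apply MH.phi') <;> first | fun_prop | assumption

theorem MH.nrd' (m : MH K h) (w : MW K h) (hf : PR f) [hP : Fact P.Prim]
    {z i : α → Bool} {x k n : α → ℕ} {σ : α → List Bool} (hz : PR z) (hx : PR x) (hk : PR k)
    (hn : PR n) (hσ : PR σ) (hi : PR i) :
    Mp K fun X _ y => (h X (f y)).nrd P rlL (z y) (x y) (k y) (n y) (σ y) (i y) := by
  unfold Hs.nrd
  with_reducible apply Mp.or
  with_reducible apply Mp.ex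
  with_reducible apply Mp.and
  (with_reducible apply MH.src') <;> first | fun_prop | assumption
  with_reducible apply Mp.ex
  with_reducible apply Mp.ex
  with_reducible apply Mp.and
  (with_reducible apply MH.D') <;> first | fun_prop | assumption
  with_reducible apply Mp.and
  (with_reducible apply MH.nD') <;> first | fun_prop | assumption
  with_reducible apply Mp.and
  (with_reducible apply MH.psi') <;> first | fun_prop | assumption
  (with_reducible apply MH.RR') <;> first | fun_prop | assumption
  with_reducible apply Mp.and
  (with_reducible apply MH.isLim') <;> first | fun_prop | assumption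
  with_reducible apply Mp.and
  (with_reducible apply Mp.eq) <;> first | fun_prop | assumption
  with_reducible apply Mp.ex
  with_reducible apply Mp.ex
  with_reducible apply Mp.ex
  with_reducible apply Mp.ex
  with_reducible apply Mp.ex
  with_reducible apply Mp.ex
  with_reducible apply Mp.and
  (with_reducible apply MH.D') <;> first | fun_prop | assumption
  with_reducible apply Mp.and
  (with_reducible apply MH.nD') <;> first | fun_prop | assumption
  with_reducible apply Mp.and
  (with_reducible apply Mp.pre) <;> first | fun_prop | assumption
  with_reducible apply Mp.and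
  (with_reducible apply MH.fus') <;> first | fun_prop | assumption
  with_reducible apply Mp.and
  (with_reducible apply MH.lt') <;> first | fun_prop | assumption
  with_reducible apply Mp.and
  (with_reducible apply MH.phi') <;> first | fun_prop | assumption
  with_reducible apply Mp.and
  (with_reducible apply MH.ntab') <;> first | fun_prop | assumption
  with_reducible apply Mp.and
  (with_reducible apply Mp.pre) <;> first | fun_prop | assumption
  (with_reducible apply MH.rd') <;> first | fun_prop | assumption

end Pool.Agent.Helper24.AR
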