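import Pool.Agent.Helper24.AR.D3b

/-!
# The operators of `Hist.lean` are macro-computable: events, `d`-cells, label without input
-/

set_option autoImplicit false

namespace Pool.Agent.Helper24.AR

open Pool.Agent.Helper25.EV Encodable

variable {K : Set (Set ℕ)} {π : Type} [Primcodable π] {h : Set ℕ → π → Hs ℕ}
  {α : Type} [Primcodable α] {f : α → π} {P : LPr}

theorem MH.cur' (m : MH K h) (hf : PR f) {a n : α → ℕ} {e : α → ℕ × (ℕ × ℕ × List Bool)}
    (ha : PR a) (hn : PR n) (he : PR e) :
    Mp K fun X _ x => (h X (f x)).cur (a x) (n x) (e x) := by
  have h1 : Mp K fun X _ (p : (π × ℕ) × ℕ × (ℕ × ℕ × List Bool)) =>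
      p.2 = (p.1.2, (p.1.2, 0, [])) := by
          (with_reducible apply Mp.eq) <;> first | fun_prop | assumption
  have h2 : Mp K fun X _ (p : (π × ℕ) × ℕ × (ℕ × (ℕ × ℕ × List Bool)) ×
      (ℕ × (ℕ × ℕ × List Bool))) =>
      (h X p.1.1).lt p.2.2.1.1 p.2.2.2.1 ∧ (h X p.1.1).evt p.1.2 p.2.2.2.1 p.2.2.2.2 ∧
      ∀ (δ : ℕ) (c : ℕ × ℕ × List Bool), (h X p.1.1).lt p.2.2.1.1 δ →
        (h X p.1.1).lt δ p.2.2.2.1 → ¬ (h X p.1.1).evt p.1.2 δ c := by
            with_reducible apply Mp.and
            (with_reducible apply MH.lt') <;> first | fun_prop | assumption
            with_reducible apply Mp.and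
            (with_reducible apply MH.evt') <;> first | fun_prop | assumption
            with_reducible apply Mp.all
            with_reducible apply Mp.all
            with_reducible apply Mp.imp
            (with_reducible apply MH.lt') <;> first | fun_prop | assumption
            with_reducible apply Mp.imp
            (with_reducible apply MH.lt') <;> first | fun_prop | assumption
            with_reducible apply Mp.not
            (with_reducible apply MH.evt') <;> first | fun_prop | assumption
  have key := Mp.chain (i := fun _ _ (p : π × ℕ) e => e = (p.2, (p.2, 0, [])))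
    (s := fun X _ (p : π × ℕ) _ (e' e : ℕ × (ℕ × ℕ × List Bool)) =>
      (h X p.1).lt e'.1 e.1 ∧ (h X p.1).evt p.2 e.1 e.2 ∧
      ∀ (δ : ℕ) (c : ℕ × ℕ × List Bool), (h X p.1).lt e'.1 δ →
        (h X p.1).lt δ e.1 → ¬ (h X p.1).evt p.2 δ c) h1 h2
    (R := fun X _ (p : π × ℕ) j e => (h X p.1).cur p.2 j e)
    (fun _ _ _ _ _ => Iff.rfl) (fun _ _ _ _ _ _ => Iff.rfl)
  exact key.comp (f := fun x => ((f x, a x), n x, e x)) (by fun_prop)

theorem MH.rqE' (m : MH K h) (hf : PR f) {n a b : α → ℕ} {c : α → ℕ × ℕ × List Bool}
    (hn : PR n) (ha : PR a) (hb : PR b) (hc : PR c) :
    Mp K fun X _ x => (h X (f x)).rqE (n x) (a x) (b x) (c x) := by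
  unfold Hs.rqE
  with_reducible apply Mp.or
  with_reducible apply Mp.ex
  with_reducible apply Mp.and
  (with_reducible apply Mp.eq) <;> first | fun_prop | assumption
  with_reducible apply Mp.or
  (with_reducible apply MH.silDr') <;> first | fun_prop | assumption
  with_reducible apply Mp.ex
  with_reducible apply Mp.and
  (with_reducible apply MH.D') <;> first | fun_prop | assumption
  with_reducible apply Mp.and
  (with_reducible apply MH.lt') <;> first | fun_prop | assumption
  (with_reducible apply MH.frD') <;> first | fun_prop | assumption
  with_reducible apply Mp.ex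
  with_reducible apply Mp.and
  (with_reducible apply Mp.eq) <;> first | fun_prop | assumption
  with_reducible apply Mp.or
  (with_reducible apply MH.Frc') <;> first | fun_prop | assumption
  with_reducible apply Mp.ex
  with_reducible apply Mp.and
  (with_reducible apply MH.D') <;> first | fun_prop | assumption
  with_reducible apply Mp.and
  (with_reducible apply MH.lt') <;> first | fun_prop | assumption
  with_reducible apply Mp.and
  (with_reducible apply MH.lt') <;> first | fun_prop | assumption
  (with_reducible apply MH.Frc') <;> first | fun_prop | assumption

theorem MH.evOK' (m : MH K h) (hf : PR f) {a : α → ℕ} {c : α → ℕ × ℕ × List Bool}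
    (ha : PR a) (hc : PR c) : Mp K fun X _ x => (h X (f x)).evOK (a x) (c x) := by
  unfold Hs.evOK
  with_reducible apply Mp.and
  (with_reducible apply MH.limAt') <;> first | fun_prop | assumption
  with_reducible apply Mp.and
  with_reducible apply Mp.all
  with_reducible apply Mp.imp
  (with_reducible apply MH.silDr') <;> first | fun_prop | assumption
  (with_reducible apply MH.silFD') <;> first | fun_prop | assumption
  with_reducible apply Mp.ex
  with_reducible apply Mp.ex
  with_reducible apply Mp.and
  (with_reducible apply MH.cur') <;> first | fun_prop | assumption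
  with_reducible apply Mp.and
  with_reducible apply Mp.all
  with_reducible apply Mp.all
  with_reducible apply Mp.imp
  (with_reducible apply MH.lt') <;> first | fun_prop | assumption
  with_reducible apply Mp.not
  (with_reducible apply MH.evt') <;> first | fun_prop | assumption
  with_reducible apply Mp.and
  (with_reducible apply MH.isC') <;> first | fun_prop | assumption
  with_reducible apply Mp.and
  (with_reducible apply MH.lt') <;> first | fun_prop | assumption
  with_reducible apply Mp.and
  (with_reducible apply MH.Le') <;> first | fun_prop | assumption
  with_reducible apply Mp.and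
  with_reducible apply Mp.ex
  with_reducible apply Mp.ex
  with_reducible apply Mp.and
  (with_reducible apply MH.phi') <;> first | fun_prop | assumption
  with_reducible apply Mp.and
  (with_reducible apply MH.phi') <;> first | fun_prop | assumption
  (with_reducible apply Mp.lt) <;> first | fun_prop | assumption
  with_reducible apply Mp.and
  with_reducible apply Mp.all
  with_reducible apply Mp.imp
  (with_reducible apply MH.limAt') <;> first | fun_prop | assumption
  with_reducible apply Mp.imp
  (with_reducible apply MH.lt') <;> first | fun_prop | assumption
  with_reducible apply Mp.imp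
  (with_reducible apply MH.le') <;> first | fun_prop | assumption
  (with_reducible apply MH.Dead') <;> first | fun_prop | assumption
  (with_reducible apply MH.rqE') <;> first | fun_prop | assumption

theorem MH.nev' (m : MH K h) (hf : PR f) {a : α → ℕ} {c : α → ℕ × ℕ × List Bool}
    (ha : PR a) (hc : PR c) : Mp K fun X _ x => (h X (f x)).nev (a x) (c x) := by
  unfold Hs.nev
  with_reducible apply Mp.and
  (with_reducible apply MH.evOK') <;> first | fun_prop | assumption
  with_reducible apply Mp.all
  with_reducible apply Mp.all
  with_reducible apply Mp.all
  with_reducible apply Mp.imp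
  (with_reducible apply MH.evOK') <;> first | fun_prop | assumption
  with_reducible apply Mp.imp
  (with_reducible apply MH.nC') <;> first | fun_prop | assumption
  with_reducible apply Mp.imp
  (with_reducible apply MH.nC') <;> first | fun_prop | assumption
  (with_reducible apply Mp.le) <;> first | fun_prop | assumption

theorem MH.refu' (m : MH K h) (hf : PR f) {c : α → ℕ × ℕ × List Bool} {n : α → ℕ}
    (hc : PR c) (hn : PR n) : Mp K fun X _ x => (h X (f x)).refu (c x) (n x) := by
  unfold Hs.refu
  with_reducible apply Mp.or
  with_reducible apply Mp.not
  (with_reducible apply MH.Q') <;> first | fun_prop | assumption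
  with_reducible apply Mp.ex
  with_reducible apply Mp.and
  (with_reducible apply MH.isC') <;> first | fun_prop | assumption
  with_reducible apply Mp.and
  (with_reducible apply MH.Le') <;> first | fun_prop | assumption
  (with_reducible apply MH.Hit') <;> first | fun_prop | assumption

theorem MH.aref' (m : MH K h) (hf : PR f) {c : α → ℕ × ℕ × List Bool} {n a : α → ℕ}
    (hc : PR c) (hn : PR n) (ha : PR a) :
    Mp K fun X _ x => (h X (f x)).aref (c x) (n x) (a x) := by
  unfold Hs.aref
  with_reducible apply Mp.all
  with_reducible apply Mp.imp
  (with_reducible apply MH.isC') <;> first | fun_prop | assumption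
  with_reducible apply Mp.imp
  (with_reducible apply MH.Le') <;> first | fun_prop | assumption
  with_reducible apply Mp.imp
  (with_reducible apply MH.le') <;> first | fun_prop | assumption
  (with_reducible apply MH.refu') <;> first | fun_prop | assumption

theorem MH.arefr' (m : MH K h) (hf : PR f) {c : α → ℕ × ℕ × List Bool} {n a b : α → ℕ}
    (hb : PR b) (hc : PR c) (hn : PR n) (ha : PR a) :
    Mp K fun X _ x => ((h X (f x)).res (b x)).aref (c x) (n x) (a x) :=
  m.res.aref' (f := fun x => (f x, b x)) (by fun_prop) hc hn ha

theorem MH.nfD' (m : MH K h) (hf : PR f) {d : α → ℕ} (hd : PR d) :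
    Mp K fun X _ x => (h X (f x)).nfD (d x) := by
  unfold Hs.nfD
  with_reducible apply Mp.or
  (with_reducible apply Mp.eq) <;> first | fun_prop | assumption
  with_reducible apply Mp.or
  with_reducible apply Mp.ex
  with_reducible apply Mp.ex
  with_reducible apply Mp.and
  (with_reducible apply Mp.eq) <;> first | fun_prop | assumption
  with_reducible apply Mp.ex
  with_reducible apply Mp.and
  (with_reducible apply MH.nmD') <;> first | fun_prop | assumption
  with_reducible apply Mp.ex
  with_reducible apply Mp.ex
  with_reducible apply Mp.and
  (with_reducible apply MH.isMax') <;> first | fun_prop | assumption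
  (with_reducible apply MH.evt') <;> first | fun_prop | assumption
  with_reducible apply Mp.or
  with_reducible apply Mp.ex
  with_reducible apply Mp.ex
  with_reducible apply Mp.ex
  with_reducible apply Mp.ex
  with_reducible apply Mp.ex
  with_reducible apply Mp.and
  (with_reducible apply Mp.eq) <;> first | fun_prop | assumption
  with_reducible apply Mp.ex
  with_reducible apply Mp.and
  (with_reducible apply MH.nmD') <;> first | fun_prop | assumption
  with_reducible apply Mp.and
  (with_reducible apply MH.isC') <;> first | fun_prop | assumption
  with_reducible apply Mp.ex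
  with_reducible apply Mp.and
  (with_reducible apply MH.isC') <;> first | fun_prop | assumption
  with_reducible apply Mp.and
  (with_reducible apply MH.isMax') <;> first | fun_prop | assumption
  with_reducible apply Mp.and
  (with_reducible apply MH.Le') <;> first | fun_prop | assumption
  (with_reducible apply MH.Hit') <;> first | fun_prop | assumption
  with_reducible apply Mp.or
  with_reducible apply Mp.ex
  with_reducible apply Mp.ex
  with_reducible apply Mp.ex
  with_reducible apply Mp.ex
  with_reducible apply Mp.ex
  with_reducible apply Mp.ex
  with_reducible apply Mp.ex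
  with_reducible apply Mp.and
  (with_reducible apply Mp.eq) <;> first | fun_prop | assumption
  with_reducible apply Mp.ex
  with_reducible apply Mp.ex
  with_reducible apply Mp.and
  (with_reducible apply MH.nmD') <;> first | fun_prop | assumption
  with_reducible apply Mp.and
  (with_reducible apply MH.nmD') <;> first | fun_prop | assumption
  with_reducible apply Mp.and
  (with_reducible apply MH.isC') <;> first | fun_prop | assumption
  with_reducible apply Mp.and
  (with_reducible apply MH.aref') <;> first | fun_prop | assumption
  with_reducible apply Mp.all
  with_reducible apply Mp.imp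
  (with_reducible apply MH.D') <;> first | fun_prop | assumption
  with_reducible apply Mp.imp
  (with_reducible apply MH.lt') <;> first | fun_prop | assumption
  with_reducible apply Mp.imp
  (with_reducible apply MH.lt') <;> first | fun_prop | assumption
  with_reducible apply Mp.not
  (with_reducible apply MH.arefr') <;> first | fun_prop | assumption
  with_reducible apply Mp.ex
  with_reducible apply Mp.ex
  with_reducible apply Mp.ex
  with_reducible apply Mp.ex
  with_reducible apply Mp.ex
  with_reducible apply Mp.and
  (with_reducible apply Mp.eq) <;> first | fun_prop | assumption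
  with_reducible apply Mp.ex
  with_reducible apply Mp.and
  (with_reducible apply MH.nmD') <;> first | fun_prop | assumption
  with_reducible apply Mp.and
  (with_reducible apply MH.isC') <;> first | fun_prop | assumption
  with_reducible apply Mp.all
  with_reducible apply Mp.imp
  (with_reducible apply MH.D') <;> first | fun_prop | assumption
  with_reducible apply Mp.imp
  (with_reducible apply MH.frD') <;> first | fun_prop | assumption
  (with_reducible apply MH.aref') <;> first | fun_prop | assumption

/-- the label without input and without the constructible hierarchy -/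
theorem MH.nlab' (m : MH K h) (w : MW K h) (hf : PR f) [hP : Fact P.Prim] {n : α → ℕ} (hn : PR n)
    {nL : Set ℕ → α → Set ℕ} (hL : Mp K fun X _ x => n x ∈ nL X x) :
    Mp K fun X _ x => n x ∈ (h X (f x)).nlab P rlL (nL X x) := by
  have e : Mp K fun X _ x =>
    (∃ d, n x = Nat.pair 0 (2 * d) ∧ (h X (f x)).nfD d) ∨
    (∃ p, n x = Nat.pair 1 p ∧ (h X (f x)).newC p) ∨
    (∃ (y : ℕ) (σ τ : List Bool), n x = Nat.pair 2 (encode ((y, σ, τ) : ℕ × List Bool × List Bool)) ∧
      (h X (f x)).ntab P rlL y σ τ) ∨
    (∃ (y k n' : ℕ) (σ : List Bool) (i : Bool),
      n x = Nat.pair 3 (encode ((y, k, n', σ, i) : ℕ × ℕ × ℕ × List Bool × Bool)) ∧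
      (h X (f x)).nrd P rlL false y k n' σ i) ∨
    (∃ (y k n' : ℕ) (σ : List Bool) (i : Bool),
      n x = Nat.pair 4 (encode ((y, k, n', σ, i) : ℕ × ℕ × ℕ × List Bool × Bool)) ∧
      (h X (f x)).nrd P rlL true y k n' σ i) ∨
    (∃ (η a y : ℕ) (σ : List Bool) (k k' : ℕ),
      n x = Nat.pair 5 (encode ((k, k', y, σ) : ℕ × ℕ × ℕ × List Bool)) ∧
      (h X (f x)).nD η k ∧ (h X (f x)).nD a k' ∧ (h X (f x)).nev η (a, y, σ)) ∨
      n x ∈ nL X x := by
    with_reducible apply Mp.or
    with_reducible apply Mp.ex
    with_reducible apply Mp.and
    (with_reducible apply Mp.eq) <;> first | fun_prop | assumption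
    (with_reducible apply MH.nfD') <;> first | fun_prop | assumption
    with_reducible apply Mp.or
    with_reducible apply Mp.ex
    with_reducible apply Mp.and
    (with_reducible apply Mp.eq) <;> first | fun_prop | assumption
    (with_reducible apply MH.newC') <;> first | fun_prop | assumption
    with_reducible apply Mp.or
    with_reducible apply Mp.ex
    with_reducible apply Mp.ex
    with_reducible apply Mp.ex
    with_reducible apply Mp.and
    (with_reducible apply Mp.eq) <;> first | fun_prop | assumption
    (with_reducible apply MH.ntab') <;> first | fun_prop | assumption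
    with_reducible apply Mp.or
    with_reducible apply Mp.ex
    with_reducible apply Mp.ex
    with_reducible apply Mp.ex
    with_reducible apply Mp.ex
    with_reducible apply Mp.ex
    with_reducible apply Mp.and
    (with_reducible apply Mp.eq) <;> first | fun_prop | assumption
    (with_reducible apply MH.nrd') <;> first | fun_prop | assumption
    with_reducible apply Mp.or
    with_reducible apply Mp.ex
    with_reducible apply Mp.ex
    with_reducible apply Mp.ex
    with_reducible apply Mp.ex
    with_reducible apply Mp.ex
    with_reducible apply Mp.and
    (with_reducible apply Mp.eq) <;> first | fun_prop | assumption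
    (with_reducible apply MH.nrd') <;> first | fun_prop | assumption
    with_reducible apply Mp.or
    with_reducible apply Mp.ex
    with_reducible apply Mp.ex
    with_reducible apply Mp.ex
    with_reducible apply Mp.ex
    with_reducible apply Mp.ex
    with_reducible apply Mp.ex
    with_reducible apply Mp.and
    (with_reducible apply Mp.eq) <;> first | fun_prop | assumption
    with_reducible apply Mp.and
    (with_reducible apply MH.nD') <;> first | fun_prop | assumption
    with_reducible apply Mp.and
    (with_reducible apply MH.nD') <;> first | fun_prop | assumption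
    (with_reducible apply MH.nev') <;> first | fun_prop | assumption
    with_reducible apply hL
  exact e

end Pool.Agent.Helper24.AR
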