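import Pool.Agent.Helper24.AR.D4

/-!
# The operators of `LLdef.lean` are macro-computable
-/

set_option autoImplicit false

namespace Pool.Agent.Helper24.AR

open Pool.Agent.Helper25.EV Encodable

variable {K : Set (Set ℕ)} {π : Type} [Primcodable π] {h : Set ℕ → π → Hs ℕ}
  {α : Type} [Primcodable α] {f : α → π}

theorem MH.isN' (m : MH K h) (hf : PR f) {a : α → ℕ × ℕ} (ha : PR a) :
    Mp K fun X _ x => (h X (f x)).isN (a x) := by
  unfold Hs.isN
  with_reducible apply Mp.and
  (with_reducible apply MH.D') <;> first | fun_prop | assumption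
  (with_reducible apply MH.lab') <;> first | fun_prop | assumption

theorem MH.memN' (m : MH K h) (hf : PR f) {a b : α → ℕ × ℕ} (ha : PR a) (hb : PR b) :
    Mp K fun X _ x => (h X (f x)).memN (a x) (b x) := by
  unfold Hs.memN
  with_reducible apply Mp.and
  (with_reducible apply MH.isN') <;> first | fun_prop | assumption
  with_reducible apply Mp.and
  (with_reducible apply MH.isN') <;> first | fun_prop | assumption
  with_reducible apply Mp.and
  (with_reducible apply MH.lt') <;> first | fun_prop | assumption
  with_reducible apply Mp.ex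
  with_reducible apply Mp.and
  (with_reducible apply MH.num') <;> first | fun_prop | assumption
  (with_reducible apply MH.lab') <;> first | fun_prop | assumption

/-! ## Assignments -/

/-- the assignment given by a list -/
def asL (l : List (Option (ℕ × ℕ))) : ℕ → Option (ℕ × ℕ) := fun j => l.getD j none

/-- `l'` is the list `l` updated at the place `i` -/
def Upd (l : List (Option (ℕ × ℕ))) (i : ℕ) (a : ℕ × ℕ) (l' : List (Option (ℕ × ℕ))) : Prop :=
  l'.getD i none = some a ∧ ∀ j, j ≠ i → l'.getD j none = l.getD j none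

theorem Upd.eq {l l' : List (Option (ℕ × ℕ))} {i : ℕ} {a : ℕ × ℕ} (h : Upd l i a l') :
    asL l' = Function.update (asL l) i (some a) := by
  funext j
  by_cases hj : j = i
  · subst hj
    rw [Function.update_self]
    exact h.1
  · rw [Function.update_of_ne hj]
    exact h.2 j hj

theorem exists_list (s : ℕ → Option (ℕ × ℕ)) (N : ℕ) (hs : ∀ j, N ≤ j → s j = none) :
    ∃ l, asL l = s := by
  refine ⟨(List.range N).map s, ?_⟩
  funext j
  unfold asL
  rcases lt_or_ge j N with hj | hj
  · rw [List.getD_eq_getElem?_getD, List.getElem?_map, List.getElem?_range hj]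
    rfl
  · rw [List.getD_eq_default _ _ (by simpa using hj), hs j hj]

theorem exists_upd (l : List (Option (ℕ × ℕ))) (i : ℕ) (a : ℕ × ℕ) : ∃ l', Upd l i a l' := by
  obtain ⟨l', hl'⟩ := exists_list (Function.update (asL l) i (some a)) (max l.length (i + 1)) (by
    intro j hj
    rw [Function.update_of_ne (by omega)]
    exact List.getD_eq_default _ _ (by omega))
  refine ⟨l', ?_, fun j hj => ?_⟩
  · have := congrFun hl' i
    rwa [Function.update_self] at this
  · have := congrFun hl' j
    rwa [Function.update_of_ne hj] at this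

theorem mp_Upd {l l' : α → List (Option (ℕ × ℕ))} {i : α → ℕ} {a : α → ℕ × ℕ}
    (hl : PR l) (hi : PR i) (ha : PR a) (hl' : PR l') :
    Mp K fun _ _ x => Upd (l x) (i x) (a x) (l' x) := by
  unfold Upd
  with_reducible apply Mp.and
  (with_reducible apply Mp.eq) <;> first | fun_prop | assumption
  with_reducible apply Mp.all
  with_reducible apply Mp.imp
  (with_reducible apply Mp.ne) <;> first | fun_prop | assumption
  (with_reducible apply Mp.eq) <;> first | fun_prop | assumption

/-! ## Formulas -/

/-- first projection of a pair -/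
abbrev p1 (n : ℕ) : ℕ := (Nat.unpair n).1
/-- second projection of a pair -/
abbrev p2 (n : ℕ) : ℕ := (Nat.unpair n).2

theorem p2_lt {n : ℕ} (h : 2 ≤ p1 n) : p2 n < n := by
  have h1 := Nat.add_le_pair (p1 n) (p2 n)
  rw [Nat.pair_unpair] at h1
  omega

theorem p2p_lt {n : ℕ} (h : 2 ≤ p1 n) : p1 (p2 n) < n ∧ p2 (p2 n) < n := by
  have h1 := p2_lt h
  have h2 := Nat.unpair_left_le (p2 n)
  have h3 := Nat.unpair_right_le (p2 n)
  exact ⟨lt_of_le_of_lt h2 h1, lt_of_le_of_lt h3 h1⟩

theorem fdec_0 {n : ℕ} (h : p1 n = 0) : fdec n = Fml.mem (p1 (p2 n)) (p2 (p2 n)) := by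
  rw [fdec]
  simp [h]

theorem fdec_1 {n : ℕ} (h : p1 n = 1) : fdec n = Fml.eq (p1 (p2 n)) (p2 (p2 n)) := by
  rw [fdec]
  simp [h]

theorem fdec_2 {n : ℕ} (h : p1 n = 2) : fdec n = Fml.neg (fdec (p2 n)) := by
  rw [fdec]
  simp [h]

theorem fdec_3 {n : ℕ} (h : p1 n = 3) :
    fdec n = Fml.and (fdec (p1 (p2 n))) (fdec (p2 (p2 n))) := by
  rw [fdec]
  simp [h]

theorem fdec_4 {n : ℕ} (h : 4 ≤ p1 n) : fdec n = Fml.ex (p1 (p2 n)) (fdec (p2 (p2 n))) := by
  have h' : 4 ≤ (Nat.unpair n).1 := h
  rw [fdec, if_neg (by omega), if_neg (by omega), dif_neg (by omega), dif_neg (by omega)]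

/-- the variable `j` is free in the formula with the code `n` -/
def FV (n j : ℕ) : Prop := j ∈ (fdec n).fv

theorem mp_FV {n j : α → ℕ} (hn : PR n) (hj : PR j) : Mp K fun _ _ x => FV (n x) (j x) := by
  have key : Mp K fun _ _ (p : ℕ × ℕ) => FV p.1 p.2 := by
    refine Mp.recn (W := fun _ a b => a < b) ?_ (fun _ _ => Nat.lt_wfRel.wf)
      (Φ := fun _ t n j => ((p1 n = 0 ∨ p1 n = 1) ∧ (j = p1 (p2 n) ∨ j = p2 (p2 n))) ∨
        (p1 n = 2 ∧ t (p2 n) j) ∨
        (p1 n = 3 ∧ (t (p1 (p2 n)) j ∨ t (p2 (p2 n)) j)) ∨
        (4 ≤ p1 n ∧ (t (p2 (p2 n)) j ∧ j ≠ p1 (p2 n)))) ?_ ?_ (R := fun _ n j => FV n j) ?_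
    · (with_reducible apply Mp.lt) <;> first | fun_prop | assumption
    · unfold p1 p2
      with_reducible apply Mp.or
      with_reducible apply Mp.and
      with_reducible apply Mp.or
      (with_reducible apply Mp.eq) <;> first | fun_prop | assumption
      (with_reducible apply Mp.eq) <;> first | fun_prop | assumption
      with_reducible apply Mp.or
      (with_reducible apply Mp.eq) <;> first | fun_prop | assumption
      (with_reducible apply Mp.eq) <;> first | fun_prop | assumption
      with_reducible apply Mp.or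
      with_reducible apply Mp.and
      (with_reducible apply Mp.eq) <;> first | fun_prop | assumption
      (with_reducible apply Mp.memT) <;> first | fun_prop | assumption
      with_reducible apply Mp.or
      with_reducible apply Mp.and
      (with_reducible apply Mp.eq) <;> first | fun_prop | assumption
      with_reducible apply Mp.or
      (with_reducible apply Mp.memT) <;> first | fun_prop | assumption
      (with_reducible apply Mp.memT) <;> first | fun_prop | assumption
      with_reducible apply Mp.and
      (with_reducible apply Mp.le) <;> first | fun_prop | assumption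
      with_reducible apply Mp.and
      (with_reducible apply Mp.memT) <;> first | fun_prop | assumption
      (with_reducible apply Mp.ne) <;> first | fun_prop | assumption
    · intro X _ t t' n ht j hj
      rcases hj with h | ⟨h, h1⟩ | ⟨h, h1⟩ | ⟨h, h1⟩
      · exact Or.inl h
      · exact Or.inr (Or.inl ⟨h, (ht _ (p2_lt (by omega)) j).mp h1⟩)
      · refine Or.inr (Or.inr (Or.inl ⟨h, ?_⟩))
        rcases h1 with h1 | h1
        · exact Or.inl ((ht _ (p2p_lt (by omega)).1 j).mp h1)
        · exact Or.inr ((ht _ (p2p_lt (by omega)).2 j).mp h1)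
      · exact Or.inr (Or.inr (Or.inr ⟨h, (ht _ (p2p_lt (by omega)).2 j).mp h1.1, h1.2⟩))
    · intro X _ n j
      show j ∈ (fdec n).fv ↔ _
      have h4 : p1 n = 0 ∨ p1 n = 1 ∨ p1 n = 2 ∨ p1 n = 3 ∨ 4 ≤ p1 n := by omega
      rcases h4 with h | h | h | h | h
      · rw [fdec_0 h, h]
        simp [Fml.fv]
      · rw [fdec_1 h, h]
        simp [Fml.fv]
      · rw [fdec_2 h, h]
        simp [Fml.fv, FV]
      · rw [fdec_3 h, h]
        simp [Fml.fv, FV]
      · rw [fdec_4 h]
        have e0 : ¬ p1 n = 0 := by omega
        have e1 : ¬ p1 n = 1 := by omega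
        have e2 : ¬ p1 n = 2 := by omega
        have e3 : ¬ p1 n = 3 := by omega
        simp [Fml.fv, FV, e0, e1, e2, e3, h]
  exact key.comp (f := fun x => (n x, j x)) (by fun_prop)

/-- truth of the formula with the code `n` under the assignment given by `l` -/
def satL (H : Hs ℕ) (n : ℕ) (l : List (Option (ℕ × ℕ))) : Prop := H.satN (fdec n) (asL l)

theorem satL_4 (H : Hs ℕ) {n : ℕ} (h : 4 ≤ p1 n) (l : List (Option (ℕ × ℕ))) :
    satL H n l ↔ ∃ a, H.isN a ∧ ∃ l', Upd l (p1 (p2 n)) a l' ∧ satL H (p2 (p2 n)) l' := by
  unfold satL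
  rw [fdec_4 h]
  show (∃ a, H.isN a ∧ _) ↔ _
  refine exists_congr fun a => and_congr Iff.rfl ?_
  constructor
  · intro h1
    obtain ⟨l', hl'⟩ := exists_upd l (p1 (p2 n)) a
    refine ⟨l', hl', ?_⟩
    rw [hl'.eq]
    exact h1
  · rintro ⟨l', hl', h1⟩
    rw [hl'.eq] at h1
    exact h1

theorem MH.satL' (m : MH K h) (hf : PR f) {n : α → ℕ} {l : α → List (Option (ℕ × ℕ))} (hn : PR n)
    (hl : PR l) : Mp K fun X _ x => satL (h X (f x)) (n x) (l x) := by
  classical
  have key : Mp K fun X _ (p : (π × ℕ) × List (Option (ℕ × ℕ))) => satL (h X p.1.1) p.1.2 p.2 := by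
    refine Mp.recn (W := fun _ (a b : π × ℕ) => a.1 = b.1 ∧ a.2 < b.2) ?_
      (fun _ _ => wf_param fun _ => Nat.lt_wfRel.wf)
      (Φ := fun X t (x : π × ℕ) (l : List (Option (ℕ × ℕ))) =>
        (p1 x.2 = 0 ∧ ∃ a b, l.getD (p1 (p2 x.2)) none = some a ∧
          l.getD (p2 (p2 x.2)) none = some b ∧ (h X x.1).memN a b) ∨
        (p1 x.2 = 1 ∧ l.getD (p1 (p2 x.2)) none = l.getD (p2 (p2 x.2)) none) ∨
        (p1 x.2 = 2 ∧ ¬ t (x.1, p2 x.2) l) ∨
        (p1 x.2 = 3 ∧ t (x.1, p1 (p2 x.2)) l ∧ t (x.1, p2 (p2 x.2)) l) ∨
        (4 ≤ p1 x.2 ∧ ∃ a, (h X x.1).isN a ∧ ∃ l', Upd l (p1 (p2 x.2)) a l' ∧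
          t (x.1, p2 (p2 x.2)) l')) ?_ ?_ (R := fun X x l => satL (h X x.1) x.2 l) ?_
    · with_reducible apply Mp.and
      (with_reducible apply Mp.eq) <;> first | fun_prop | assumption
      (with_reducible apply Mp.lt) <;> first | fun_prop | assumption
    · unfold p1 p2
      with_reducible apply Mp.or
      with_reducible apply Mp.and
      (with_reducible apply Mp.eq) <;> first | fun_prop | assumption
      with_reducible apply Mp.ex
      with_reducible apply Mp.ex
      with_reducible apply Mp.and
      (with_reducible apply Mp.eq) <;> first | fun_prop | assumption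
      with_reducible apply Mp.and
      (with_reducible apply Mp.eq) <;> first | fun_prop | assumption
      (with_reducible apply MH.memN') <;> first | fun_prop | assumption
      with_reducible apply Mp.or
      with_reducible apply Mp.and
      (with_reducible apply Mp.eq) <;> first | fun_prop | assumption
      (with_reducible apply Mp.eq) <;> first | fun_prop | assumption
      with_reducible apply Mp.or
      with_reducible apply Mp.and
      (with_reducible apply Mp.eq) <;> first | fun_prop | assumption
      with_reducible apply Mp.not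
      (with_reducible apply Mp.memT) <;> first | fun_prop | assumption
      with_reducible apply Mp.or
      with_reducible apply Mp.and
      (with_reducible apply Mp.eq) <;> first | fun_prop | assumption
      with_reducible apply Mp.and
      (with_reducible apply Mp.memT) <;> first | fun_prop | assumption
      (with_reducible apply Mp.memT) <;> first | fun_prop | assumption
      with_reducible apply Mp.and
      (with_reducible apply Mp.le) <;> first | fun_prop | assumption
      with_reducible apply Mp.ex
      with_reducible apply Mp.and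
      (with_reducible apply MH.isN') <;> first | fun_prop | assumption
      with_reducible apply Mp.ex
      with_reducible apply Mp.and
      (with_reducible apply mp_Upd) <;> first | fun_prop | assumption
      (with_reducible apply Mp.memT) <;> first | fun_prop | assumption
    · intro X _ t t' x ht l hl
      rcases hl with h | h | ⟨h, h1⟩ | ⟨h, h1, h2⟩ | ⟨h, a, h1, l', h2, h3⟩
      · exact Or.inl h
      · exact Or.inr (Or.inl h)
      · refine Or.inr (Or.inr (Or.inl ⟨h, fun h2 => h1 ?_⟩))
        exact (ht (x.1, p2 x.2) ⟨rfl, p2_lt (by omega)⟩ l).mpr h2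
      · refine Or.inr (Or.inr (Or.inr (Or.inl ⟨h, ?_, ?_⟩)))
        · exact (ht (x.1, p1 (p2 x.2)) ⟨rfl, (p2p_lt (by omega)).1⟩ l).mp h1
        · exact (ht (x.1, p2 (p2 x.2)) ⟨rfl, (p2p_lt (by omega)).2⟩ l).mp h2
      · refine Or.inr (Or.inr (Or.inr (Or.inr ⟨h, a, h1, l', h2, ?_⟩)))
        exact (ht (x.1, p2 (p2 x.2)) ⟨rfl, (p2p_lt (by omega)).2⟩ l').mp h3
    · intro X _ x l
      obtain ⟨p, n⟩ := x
      have h4 : p1 n = 0 ∨ p1 n = 1 ∨ p1 n = 2 ∨ p1 n = 3 ∨ 4 ≤ p1 n := by omega
      rcases h4 with h' | h' | h' | h' | h'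
      · dsimp only
        rw [h']
        unfold satL
        rw [fdec_0 h']
        simp [Hs.satN, asL]
      · dsimp only
        rw [h']
        unfold satL
        rw [fdec_1 h']
        simp [Hs.satN, asL]
      · dsimp only
        rw [h']
        unfold satL
        rw [fdec_2 h']
        simp [Hs.satN]
      · dsimp only
        rw [h']
        unfold satL
        rw [fdec_3 h']
        simp [Hs.satN]
      · dsimp only
        have e0 : ¬ p1 n = 0 := by omega
        have e1 : ¬ p1 n = 1 := by omega
        have e2 : ¬ p1 n = 2 := by omega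
        have e3 : ¬ p1 n = 3 := by omega
        rw [satL_4 _ h']
        simp only [e0, e1, e2, e3, h', false_and, true_and, false_or]
  exact key.comp (f := fun x => ((f x, n x), l x)) (by fun_prop)

/-! ## Indices -/

/-- the assignment given by the list `l` belongs to the parameters `p` -/
def asgL (H : Hs ℕ) (p : List (ℕ × ℕ)) (l : List (Option (ℕ × ℕ))) : Prop :=
  ∀ j (a : ℕ × ℕ), l.getD j none = some a ↔ H.isN a ∧ ∃ k, H.nD a.1 k ∧ p[j]? = some (k, a.2)

theorem asg_list {H : Hs ℕ} {p : List (ℕ × ℕ)} {s : ℕ → Option (ℕ × ℕ)} (hs : H.asg p s) :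
    ∃ l, asL l = s := by
  refine exists_list s p.length fun j hj => ?_
  cases e : s j with
  | none => rfl
  | some a =>
    obtain ⟨_, k, _, hk⟩ := (hs j a).mp e
    rw [List.getElem?_eq_none hj] at hk
    cases hk

theorem MH.asgL' (m : MH K h) (hf : PR f) {p : α → List (ℕ × ℕ)} {l : α → List (Option (ℕ × ℕ))}
    (hp : PR p) (hl : PR l) : Mp K fun X _ x => asgL (h X (f x)) (p x) (l x) := by
  unfold asgL
  with_reducible apply Mp.all
  with_reducible apply Mp.all
  with_reducible apply Mp.iff
  (with_reducible apply Mp.eq) <;> first | fun_prop | assumption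
  with_reducible apply Mp.and
  (with_reducible apply MH.isN') <;> first | fun_prop | assumption
  with_reducible apply Mp.ex
  with_reducible apply Mp.and
  (with_reducible apply MH.nD') <;> first | fun_prop | assumption
  (with_reducible apply Mp.eq) <;> first | fun_prop | assumption

/-- the index `i` is defined -/
def hasI (H : Hs ℕ) (i : ℕ) : Prop := ∃ φ s, H.idx i φ s

theorem hasI_iff (H : Hs ℕ) (i : ℕ) : hasI H i ↔ ∃ (n : ℕ) (p : List (ℕ × ℕ))
    (l : List (Option (ℕ × ℕ))), i = encode (n, p) ∧ asgL H p l ∧
      ∀ j, FV n j → j ≠ 0 → l.getD j none ≠ none := by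
  constructor
  · rintro ⟨φ, s, n, p, h1, rfl, h3, h4⟩
    obtain ⟨l, rfl⟩ := asg_list h3
    exact ⟨n, p, l, h1, h3, h4⟩
  · rintro ⟨n, p, l, h1, h3, h4⟩
    exact ⟨fdec n, asL l, n, p, h1, rfl, h3, h4⟩

theorem inI_iff (H : Hs ℕ) (i : ℕ) (a : ℕ × ℕ) : H.inI i a ↔ H.isN a ∧ ∃ (n : ℕ)
    (p : List (ℕ × ℕ)) (l : List (Option (ℕ × ℕ))), (i = encode (n, p) ∧ asgL H p l ∧
      ∀ j, FV n j → j ≠ 0 → l.getD j none ≠ none) ∧ ∃ l', Upd l 0 a l' ∧ satL H n l' := by
  refine and_congr Iff.rfl ?_
  constructor
  · rintro ⟨φ, s, ⟨n, p, h1, rfl, h3, h4⟩, h5⟩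
    obtain ⟨l, rfl⟩ := asg_list h3
    obtain ⟨l', hl'⟩ := exists_upd l 0 a
    refine ⟨n, p, l, ⟨h1, h3, h4⟩, l', hl', ?_⟩
    unfold satL
    rw [hl'.eq]
    exact h5
  · rintro ⟨n, p, l, ⟨h1, h3, h4⟩, l', hl', h5⟩
    refine ⟨fdec n, asL l, ⟨n, p, h1, rfl, h3, h4⟩, ?_⟩
    unfold satL at h5
    rw [hl'.eq] at h5
    exact h5

theorem MH.hasI' (m : MH K h) (hf : PR f) {i : α → ℕ} (hi : PR i) :
    Mp K fun X _ x => hasI (h X (f x)) (i x) := by
  have e : Mp K fun X _ x => ∃ (n : ℕ) (p : List (ℕ × ℕ))
    (l : List (Option (ℕ × ℕ))), i x = encode (n, p) ∧ asgL (h X (f x)) p l ∧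
      ∀ j, FV n j → j ≠ 0 → l.getD j none ≠ none := by
    with_reducible apply Mp.ex
    with_reducible apply Mp.ex
    with_reducible apply Mp.ex
    with_reducible apply Mp.and
    (with_reducible apply Mp.eq) <;> first | fun_prop | assumption
    with_reducible apply Mp.and
    (with_reducible apply MH.asgL') <;> first | fun_prop | assumption
    with_reducible apply Mp.all
    with_reducible apply Mp.imp
    (with_reducible apply mp_FV) <;> first | fun_prop | assumption
    with_reducible apply Mp.imp
    (with_reducible apply Mp.ne) <;> first | fun_prop | assumption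
    (with_reducible apply Mp.ne) <;> first | fun_prop | assumption
  exact e.congr fun X _ _ x => hasI_iff _ _

theorem MH.inI' (m : MH K h) (hf : PR f) {i : α → ℕ} {a : α → ℕ × ℕ} (hi : PR i) (ha : PR a) :
    Mp K fun X _ x => (h X (f x)).inI (i x) (a x) := by
  have e : Mp K fun X _ x => (h X (f x)).isN (a x) ∧ ∃ (n : ℕ)
    (p : List (ℕ × ℕ)) (l : List (Option (ℕ × ℕ))), (i x = encode (n, p) ∧ asgL (h X (f x)) p l ∧
      ∀ j, FV n j → j ≠ 0 → l.getD j none ≠ none) ∧ ∃ l', Upd l 0 (a x) l' ∧
        satL (h X (f x)) n l' := by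
    with_reducible apply Mp.and
    (with_reducible apply MH.isN') <;> first | fun_prop | assumption
    with_reducible apply Mp.ex
    with_reducible apply Mp.ex
    with_reducible apply Mp.ex
    with_reducible apply Mp.and
    with_reducible apply Mp.and
    (with_reducible apply Mp.eq) <;> first | fun_prop | assumption
    with_reducible apply Mp.and
    (with_reducible apply MH.asgL') <;> first | fun_prop | assumption
    with_reducible apply Mp.all
    with_reducible apply Mp.imp
    (with_reducible apply mp_FV) <;> first | fun_prop | assumption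
    with_reducible apply Mp.imp
    (with_reducible apply Mp.ne) <;> first | fun_prop | assumption
    (with_reducible apply Mp.ne) <;> first | fun_prop | assumption
    with_reducible apply Mp.ex
    with_reducible apply Mp.and
    (with_reducible apply mp_Upd) <;> first | fun_prop | assumption
    (with_reducible apply MH.satL') <;> first | fun_prop | assumption
  exact e.congr fun X _ _ x => inI_iff _ _ _

theorem MH.valI' (m : MH K h) (hf : PR f) {i : α → ℕ} (hi : PR i) :
    Mp K fun X _ x => (h X (f x)).valI (i x) := by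
  have e : Mp K fun X _ x => hasI (h X (f x)) (i x) ∧
    (∀ b, (h X (f x)).isN b → ¬ ∀ a, (h X (f x)).isN a →
      ((h X (f x)).inI (i x) a ↔ (h X (f x)).memN a b)) ∧
    ∀ i', i' < i x → hasI (h X (f x)) i' → ¬ ∀ a, (h X (f x)).isN a →
      ((h X (f x)).inI (i x) a ↔ (h X (f x)).inI i' a) := by
    with_reducible apply Mp.and
    (with_reducible apply MH.hasI') <;> first | fun_prop | assumption
    with_reducible apply Mp.and
    with_reducible apply Mp.all
    with_reducible apply Mp.imp
    (with_reducible apply MH.isN') <;> first | fun_prop | assumption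
    with_reducible apply Mp.not
    with_reducible apply Mp.all
    with_reducible apply Mp.imp
    (with_reducible apply MH.isN') <;> first | fun_prop | assumption
    with_reducible apply Mp.iff
    (with_reducible apply MH.inI') <;> first | fun_prop | assumption
    (with_reducible apply MH.memN') <;> first | fun_prop | assumption
    with_reducible apply Mp.all
    with_reducible apply Mp.imp
    (with_reducible apply Mp.lt) <;> first | fun_prop | assumption
    with_reducible apply Mp.imp
    (with_reducible apply MH.hasI') <;> first | fun_prop | assumption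
    with_reducible apply Mp.not
    with_reducible apply Mp.all
    with_reducible apply Mp.imp
    (with_reducible apply MH.isN') <;> first | fun_prop | assumption
    with_reducible apply Mp.iff
    (with_reducible apply MH.inI') <;> first | fun_prop | assumption
    (with_reducible apply MH.inI') <;> first | fun_prop | assumption
  exact e

theorem MH.vnN' (m : MH K h) (hf : PR f) {n : α → ℕ} {a : α → ℕ × ℕ} (hn : PR n) (ha : PR a) :
    Mp K fun X _ x => (h X (f x)).vnN (n x) (a x) := by
  have h1 : Mp K fun X _ (p : π × (ℕ × ℕ)) => (h X p.1).isN p.2 ∧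
      ∀ b, ¬ (h X p.1).memN b p.2 := by
          with_reducible apply Mp.and
          (with_reducible apply MH.isN') <;> first | fun_prop | assumption
          with_reducible apply Mp.all
          with_reducible apply Mp.not
          (with_reducible apply MH.memN') <;> first | fun_prop | assumption
  have h2 : Mp K fun X _ (p : π × ℕ × (ℕ × ℕ) × (ℕ × ℕ)) => (h X p.1).isN p.2.2.2 ∧
      ∀ c, (h X p.1).isN c →
        ((h X p.1).memN c p.2.2.2 ↔ c = p.2.2.1 ∨ (h X p.1).memN c p.2.2.1) := by
            with_reducible apply Mp.and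
            (with_reducible apply MH.isN') <;> first | fun_prop | assumption
            with_reducible apply Mp.all
            with_reducible apply Mp.imp
            (with_reducible apply MH.isN') <;> first | fun_prop | assumption
            with_reducible apply Mp.iff
            (with_reducible apply MH.memN') <;> first | fun_prop | assumption
            with_reducible apply Mp.or
            (with_reducible apply Mp.eq) <;> first | fun_prop | assumption
            (with_reducible apply MH.memN') <;> first | fun_prop | assumption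
  have key := Mp.chain (i := fun X _ (p : π) a => (h X p).isN a ∧ ∀ b, ¬ (h X p).memN b a)
    (s := fun X _ (p : π) _ b a => (h X p).isN a ∧ ∀ c, (h X p).isN c →
        ((h X p).memN c a ↔ c = b ∨ (h X p).memN c b)) h1 h2
    (R := fun X _ (p : π) j a => (h X p).vnN j a)
    (fun _ _ _ _ _ => Iff.rfl) (fun X _ _ p n a => by
      show ((h X p).isN a ∧ ∃ b, _) ↔ _
      constructor
      · rintro ⟨h1, b, h2, h3⟩
        exact ⟨b, h2, h1, h3⟩
      · rintro ⟨b, h2, h1, h3⟩
        exact ⟨h1, b, h2, h3⟩)
  exact key.comp (f := fun x => (f x, n x, a x)) (by fun_prop)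

theorem MH.newL' (m : MH K h) (hf : PR f) {n : α → ℕ} (hn : PR n) :
    Mp K fun X _ x => n x ∈ (h X (f x)).newL := by
  have e : Mp K fun X _ x => (∃ i, n x = Nat.pair 7 i ∧ (h X (f x)).valI i) ∨
    (∃ (i γ k i' : ℕ), n x = Nat.pair 6 (encode (i, k, i')) ∧ (h X (f x)).valI i ∧
      (h X (f x)).inI i (γ, i') ∧ (h X (f x)).nD γ k) ∨
    (∃ (i n' : ℕ), n x = Nat.pair 8 (encode (i, n')) ∧ (h X (f x)).valI i ∧
      ∃ a, (h X (f x)).inI i a ∧ (h X (f x)).vnN n' a) := by
    with_reducible apply Mp.or
    with_reducible apply Mp.ex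
    with_reducible apply Mp.and
    (with_reducible apply Mp.eq) <;> first | fun_prop | assumption
    (with_reducible apply MH.valI') <;> first | fun_prop | assumption
    with_reducible apply Mp.or
    with_reducible apply Mp.ex
    with_reducible apply Mp.ex
    with_reducible apply Mp.ex
    with_reducible apply Mp.ex
    with_reducible apply Mp.and
    (with_reducible apply Mp.eq) <;> first | fun_prop | assumption
    with_reducible apply Mp.and
    (with_reducible apply MH.valI') <;> first | fun_prop | assumption
    with_reducible apply Mp.and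
    (with_reducible apply MH.inI') <;> first | fun_prop | assumption
    (with_reducible apply MH.nD') <;> first | fun_prop | assumption
    with_reducible apply Mp.ex
    with_reducible apply Mp.ex
    with_reducible apply Mp.and
    (with_reducible apply Mp.eq) <;> first | fun_prop | assumption
    with_reducible apply Mp.and
    (with_reducible apply MH.valI') <;> first | fun_prop | assumption
    with_reducible apply Mp.ex
    with_reducible apply Mp.and
    (with_reducible apply MH.inI') <;> first | fun_prop | assumption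
    (with_reducible apply MH.vnN') <;> first | fun_prop | assumption
  exact e

end Pool.Agent.Helper24.AR
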