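import Pool.Agent.Helper24.AR.D5

/-!
# The operators of `Hist.lean` are macro-computable: cells of the input, alarm, complete label
-/

set_option autoImplicit false

namespace Pool.Agent.Helper24.AR

open Pool.Agent.Helper25.EV Encodable

variable {K : Set (Set ℕ)} {π : Type} [Primcodable π] {h : Set ℕ → π → Hs ℕ}
  {α : Type} [Primcodable α] {f : α → π} {P : LPr} {y : Set ℕ → ℕ → Bool}

/-- the bit `m` of `y` is on -/
def yT (y : ℕ → Bool) (m : ℕ) : Prop := y m = true

/-- the input is macro-computable -/
def MY (K : Set (Set ℕ)) (y : Set ℕ → ℕ → Bool) : Prop :=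
  Mp K fun X _ (m : ℕ) => yT (y X) m

theorem MH.yT' (my : MY K y) {m : α → ℕ} (hm : PR m) : Mp K fun X _ x => yT (y X) (m x) :=
  Mp.comp (P := fun X _ m => yT (y X) m) my hm

theorem MH.nyL' (m : MH K h) (my : MY K y) [Fact P.Prim] (hf : PR f) {n : α → ℕ} (hn : PR n) :
    Mp K fun X _ x => (h X (f x)).nyL P (y X) (n x) := by
  have e : Mp K fun X _ x =>
    ((∀ a, ¬ (h X (f x)).D a) ∧
      ((∃ k, P.ini (n x) = Sum.inl k ∧ yT (y X) k) ∨ P.ini (n x) = Sum.inr true)) ∨
    (∃ m, (h X (f x)).isMax m ∧ ∃ v : List Bool, v.length = (P.nb (n x)).length ∧
      (∀ j, j < v.length →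
        (v.getD j false = true ↔ (h X (f x)).frY m (2 * (P.nb (n x)).getD j 0))) ∧
      P.ev (n x) v = true) ∨
    ((h X (f x)).isLim ∧ (P.rs (n x) = some true ∨ (P.rs (n x) = none ∧
      ¬ (h X (f x)).sil (h X (f x)).frY (2 * (n x))))) := by
    with_reducible apply Mp.or
    with_reducible apply Mp.and
    with_reducible apply Mp.all
    with_reducible apply Mp.not
    (with_reducible apply MH.D') <;> first | fun_prop | assumption
    with_reducible apply Mp.or
    with_reducible apply Mp.ex
    with_reducible apply Mp.and
    (with_reducible apply Mp.eq) <;> first | fun_prop | assumption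
    (with_reducible apply MH.yT') <;> first | fun_prop | assumption
    (with_reducible apply Mp.eq) <;> first | fun_prop | assumption
    with_reducible apply Mp.or
    with_reducible apply Mp.ex
    with_reducible apply Mp.and
    (with_reducible apply MH.isMax') <;> first | fun_prop | assumption
    with_reducible apply Mp.ex
    with_reducible apply Mp.and
    (with_reducible apply Mp.eq) <;> first | fun_prop | assumption
    with_reducible apply Mp.and
    with_reducible apply Mp.all
    with_reducible apply Mp.imp
    (with_reducible apply Mp.lt) <;> first | fun_prop | assumption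
    with_reducible apply Mp.iff
    (with_reducible apply Mp.eq) <;> first | fun_prop | assumption
    (with_reducible apply MH.frY') <;> first | fun_prop | assumption
    (with_reducible apply Mp.eq) <;> first | fun_prop | assumption
    with_reducible apply Mp.and
    (with_reducible apply MH.isLim') <;> first | fun_prop | assumption
    with_reducible apply Mp.or
    (with_reducible apply Mp.eq) <;> first | fun_prop | assumption
    with_reducible apply Mp.and
    (with_reducible apply Mp.eq) <;> first | fun_prop | assumption
    with_reducible apply Mp.not
    (with_reducible apply MH.silY') <;> first | fun_prop | assumption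
  exact e

theorem MH.nyK' (m : MH K h) (my : MY K y) (hf : PR f)
    {κ : α → List Bool × ℕ × ℕ × List Bool × ℕ} (hκ : PR κ) :
    Mp K fun X _ x => (h X (f x)).nyK (y X) (κ x) := by
  have e : Mp K fun X _ x => ∃ a, (h X (f x)).nmD (κ x).1 (κ x).2.1 a ∧ ∀ j : ℕ,
    ∃ (u : List Bool) (τ : List Bool), (h X (f x)).phi (a, (κ x).2.2.1, (κ x).2.2.2.1) u τ ∧
    j ≤ τ.length ∧ (∀ m, m < j → (τ.getD m false = true ↔ yT (y X) m)) ∧
    ∀ m, 2 * Nat.pair (κ x).2.2.2.2 m < u.length →
      (u.getD (2 * Nat.pair (κ x).2.2.2.2 m) false = true ↔ (h X (f x)).newC m) := by
    with_reducible apply Mp.ex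
    with_reducible apply Mp.and
    (with_reducible apply MH.nmD') <;> first | fun_prop | assumption
    with_reducible apply Mp.all
    with_reducible apply Mp.ex
    with_reducible apply Mp.ex
    with_reducible apply Mp.and
    (with_reducible apply MH.phi') <;> first | fun_prop | assumption
    with_reducible apply Mp.and
    (with_reducible apply Mp.le) <;> first | fun_prop | assumption
    with_reducible apply Mp.and
    with_reducible apply Mp.all
    with_reducible apply Mp.imp
    (with_reducible apply Mp.lt) <;> first | fun_prop | assumption
    with_reducible apply Mp.iff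
    (with_reducible apply Mp.eq) <;> first | fun_prop | assumption
    (with_reducible apply MH.yT') <;> first | fun_prop | assumption
    with_reducible apply Mp.all
    with_reducible apply Mp.imp
    (with_reducible apply Mp.lt) <;> first | fun_prop | assumption
    with_reducible apply Mp.iff
    (with_reducible apply Mp.eq) <;> first | fun_prop | assumption
    (with_reducible apply MH.newC') <;> first | fun_prop | assumption
  refine e.congr fun X _ _ x => ?_
  unfold Hs.nyK yT
  simp only [← Bool.eq_iff_iff]

theorem MH.nY' (m : MH K h) (my : MY K y) [Fact P.Prim] (hf : PR f) {n : α → ℕ} (hn : PR n) :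
    Mp K fun X _ x => (h X (f x)).nY P (y X) (n x) := by
  unfold Hs.nY
  with_reducible apply Mp.or
  with_reducible apply Mp.ex
  with_reducible apply Mp.and
  (with_reducible apply Mp.eq) <;> first | fun_prop | assumption
  (with_reducible apply MH.nyL') <;> first | fun_prop | assumption
  with_reducible apply Mp.ex
  with_reducible apply Mp.and
  (with_reducible apply Mp.eq) <;> first | fun_prop | assumption
  (with_reducible apply MH.nyK') <;> first | fun_prop | assumption

theorem MH.deadY' (m : MH K h) (hf : PR f) {a : α → ℕ} (ha : PR a) :
    Mp K fun X _ x => (h X (f x)).deadY (a x) := by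
  unfold Hs.deadY
  with_reducible apply Mp.ex
  with_reducible apply Mp.ex
  with_reducible apply Mp.and
  (with_reducible apply MH.silYr') <;> first | fun_prop | assumption
  with_reducible apply Mp.and
  (with_reducible apply MH.D') <;> first | fun_prop | assumption
  with_reducible apply Mp.and
  (with_reducible apply MH.le') <;> first | fun_prop | assumption
  (with_reducible apply MH.frY') <;> first | fun_prop | assumption

theorem MH.loopD' (m : MH K h) (hf : PR f) {a b : α → ℕ} (ha : PR a) (hb : PR b) :
    Mp K fun X _ x => (h X (f x)).loopD (a x) (b x) := by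
  unfold Hs.loopD
  with_reducible apply Mp.and
  (with_reducible apply MH.limAt') <;> first | fun_prop | assumption
  with_reducible apply Mp.and
  (with_reducible apply MH.limAt') <;> first | fun_prop | assumption
  with_reducible apply Mp.and
  (with_reducible apply MH.lt') <;> first | fun_prop | assumption
  with_reducible apply Mp.and
  with_reducible apply Mp.all
  with_reducible apply Mp.iff
  (with_reducible apply MH.silDr') <;> first | fun_prop | assumption
  (with_reducible apply MH.silDr') <;> first | fun_prop | assumption
  with_reducible apply Mp.all
  with_reducible apply Mp.imp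
  (with_reducible apply MH.silDr') <;> first | fun_prop | assumption
  with_reducible apply Mp.all
  with_reducible apply Mp.imp
  (with_reducible apply MH.D') <;> first | fun_prop | assumption
  with_reducible apply Mp.imp
  (with_reducible apply MH.le') <;> first | fun_prop | assumption
  with_reducible apply Mp.imp
  (with_reducible apply MH.lt') <;> first | fun_prop | assumption
  with_reducible apply Mp.not
  (with_reducible apply MH.frD') <;> first | fun_prop | assumption

theorem MH.alarm' (m : MH K h) (my : MY K y) (hf : PR f) :
    Mp K fun X _ x => (h X (f x)).alarm (y X) := by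
  have e : Mp K fun X _ x =>
    (∃ (η : ℕ) (c : ℕ × ℕ × List Bool), (h X (f x)).nev η c ∧ ¬ (h X (f x)).deadY η ∧
      ∃ τ, (h X (f x)).phi c [] τ ∧
        ∃ m, m < τ.length ∧ ¬ (τ.getD m false = true ↔ yT (y X) m)) ∨
    ∃ η δ, (h X (f x)).loopD η δ := by
    with_reducible apply Mp.or
    with_reducible apply Mp.ex
    with_reducible apply Mp.ex
    with_reducible apply Mp.and
    (with_reducible apply MH.nev') <;> first | fun_prop | assumption
    with_reducible apply Mp.and
    with_reducible apply Mp.not
    (with_reducible apply MH.deadY') <;> first | fun_prop | assumption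
    with_reducible apply Mp.ex
    with_reducible apply Mp.and
    (with_reducible apply MH.phi') <;> first | fun_prop | assumption
    with_reducible apply Mp.ex
    with_reducible apply Mp.and
    (with_reducible apply Mp.lt) <;> first | fun_prop | assumption
    with_reducible apply Mp.not
    with_reducible apply Mp.iff
    (with_reducible apply Mp.eq) <;> first | fun_prop | assumption
    (with_reducible apply MH.yT') <;> first | fun_prop | assumption
    with_reducible apply Mp.ex
    with_reducible apply Mp.ex
    (with_reducible apply MH.loopD') <;> first | fun_prop | assumption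
  refine e.congr fun X _ _ x => ?_
  unfold Hs.alarm yT
  simp only [ne_eq, ← Bool.eq_iff_iff]

/-- the complete label -/
theorem MH.clab' (m : MH K h) (w : MW K h) (my : MY K y) (hf : PR f) [hP : Fact P.Prim]
    {n : α → ℕ} (hn : PR n) :
    Mp K fun X _ x => n x ∈ (h X (f x)).clab P rlL (h X (f x)).newL (y X) := by
  have h1 : Mp K fun X _ x => n x ∈ (h X (f x)).nlab P rlL (h X (f x)).newL :=
    m.nlab' w hf hn (m.newL' hf hn)
  have e : Mp K fun X _ x => n x ∈ (h X (f x)).nlab P rlL (h X (f x)).newL ∨
      ((∃ n', n x = Nat.pair 0 (2 * n' + 1) ∧ (h X (f x)).nY P (y X) n') ∨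
        (n x = Nat.pair 9 0 ∧ (h X (f x)).alarm (y X))) := by
    apply Mp.or h1
    with_reducible apply Mp.or
    with_reducible apply Mp.ex
    with_reducible apply Mp.and
    (with_reducible apply Mp.eq) <;> first | fun_prop | assumption
    (with_reducible apply MH.nY') <;> first | fun_prop | assumption
    with_reducible apply Mp.and
    (with_reducible apply Mp.eq) <;> first | fun_prop | assumption
    (with_reducible apply MH.alarm') <;> first | fun_prop | assumption
  exact e

end Pool.Agent.Helper24.AR
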