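import Pool.Agent.Helper24.AR.I1

/-!
# Invariance, module I5: the constructible hierarchy
-/

set_option autoImplicit false

namespace Pool.Agent.Helper24.AR

open Pool.Agent.Helper25.EV

universe u v

variable {A : Type u} {B : Type v} {H : Hs A} {H' : Hs B} {R : A → B → Prop} {W : ℕ → Prop}

theorem Gi.isN (g : Gi H H' R W) (hW : ∀ m, Wd m → W m) {a : A × ℕ} {b : B × ℕ} (h : RN R a b) :
    H.isN a ↔ H'.isN b := by
  unfold Hs.isN
  refine and_congr (g.dom _ _ h.1) ?_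
  rw [← h.2]
  exact g.lab _ _ _ h.1 (hW _ (Wd_tag' 7 _ (by norm_num) (by norm_num)))

theorem Gi.isN_dom1 (g : Gi H H' R W) {a : A × ℕ} (h : H.isN a) : ∃ b, RN R a b := by
  obtain ⟨b, hb⟩ := g.tot1 a.1 h.1
  exact ⟨(b, a.2), hb, rfl⟩

theorem Gi.isN_dom2 (g : Gi H H' R W) {b : B × ℕ} (h : H'.isN b) : ∃ a, RN R a b := by
  obtain ⟨a, ha⟩ := g.tot2 b.1 h.1
  exact ⟨(a, b.2), ha, rfl⟩

theorem RN_eq (g : Gi H H' R W) {a a' : A × ℕ} {b b' : B × ℕ} (h : RN R a b) (h' : RN R a' b') :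
    a = a' ↔ b = b' := by
  rw [Prod.ext_iff, Prod.ext_iff]
  refine and_congr (g.eq _ _ _ _ h.1 h'.1) ?_
  rw [h.2, h'.2]

theorem Gi.memN (g : Gi H H' R W) (hW : ∀ m, Wd m → W m) {a a' : A × ℕ} {b b' : B × ℕ}
    (h : RN R a b) (h' : RN R a' b') : H.memN a a' ↔ H'.memN b b' := by
  unfold Hs.memN
  refine and_congr (g.isN hW h) (and_congr (g.isN hW h') (and_congr (g.lt _ _ _ _ h.1 h'.1)
    (exists_congr fun k => and_congr (g.num _ _ _ _ k h'.1 h.1) ?_)))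
  rw [← h.2, ← h'.2]
  exact g.lab _ _ _ h'.1 (hW _ (Wd_tag' 6 _ (by norm_num) (by norm_num)))

/-- assignments which correspond to each other -/
def RA (R : A → B → Prop) (s : ℕ → Option (A × ℕ)) (s' : ℕ → Option (B × ℕ)) : Prop :=
  ∀ j, (s j = none ∧ s' j = none) ∨ ∃ a b, s j = some a ∧ s' j = some b ∧ RN R a b

theorem RA.update {s : ℕ → Option (A × ℕ)} {s' : ℕ → Option (B × ℕ)} (h : RA R s s') (i : ℕ)
    {a : A × ℕ} {b : B × ℕ} (hab : RN R a b) :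
    RA R (Function.update s i (some a)) (Function.update s' i (some b)) := by
  intro j
  by_cases hj : j = i
  · subst hj
    right
    exact ⟨a, b, by simp, by simp, hab⟩
  · rw [Function.update_of_ne hj, Function.update_of_ne hj]
    exact h j

theorem RA.none_iff {s : ℕ → Option (A × ℕ)} {s' : ℕ → Option (B × ℕ)} (h : RA R s s') (j : ℕ) :
    s j = none ↔ s' j = none := by
  rcases h j with ⟨h1, h2⟩ | ⟨a, b, h1, h2, -⟩ <;> simp [h1, h2]

theorem RA.some1 {s : ℕ → Option (A × ℕ)} {s' : ℕ → Option (B × ℕ)} (h : RA R s s') {j : ℕ}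
    {a : A × ℕ} (ha : s j = some a) : ∃ b, s' j = some b ∧ RN R a b := by
  rcases h j with ⟨h1, -⟩ | ⟨a', b, h1, h2, h3⟩
  · rw [ha] at h1; exact absurd h1 (by simp)
  · rw [ha] at h1
    cases h1
    exact ⟨b, h2, h3⟩

theorem RA.some2 {s : ℕ → Option (A × ℕ)} {s' : ℕ → Option (B × ℕ)} (h : RA R s s') {j : ℕ}
    {b : B × ℕ} (hb : s' j = some b) : ∃ a, s j = some a ∧ RN R a b := by
  rcases h j with ⟨-, h1⟩ | ⟨a, b', h1, h2, h3⟩
  · rw [hb] at h1; exact absurd h1 (by simp)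
  · rw [hb] at h2
    cases h2
    exact ⟨a, h1, h3⟩

theorem Gi.satN (g : Gi H H' R W) (hW : ∀ m, Wd m → W m) (φ : Fml) {s : ℕ → Option (A × ℕ)}
    {s' : ℕ → Option (B × ℕ)} (h : RA R s s') : H.satN φ s ↔ H'.satN φ s' := by
  induction φ generalizing s s' with
  | mem i j =>
    simp only [Hs.satN]
    constructor
    · rintro ⟨a, b, h1, h2, h3⟩
      obtain ⟨a', ha1, ha2⟩ := h.some1 h1
      obtain ⟨b', hb1, hb2⟩ := h.some1 h2
      exact ⟨a', b', ha1, hb1, (g.memN hW ha2 hb2).mp h3⟩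
    · rintro ⟨a, b, h1, h2, h3⟩
      obtain ⟨a', ha1, ha2⟩ := h.some2 h1
      obtain ⟨b', hb1, hb2⟩ := h.some2 h2
      exact ⟨a', b', ha1, hb1, (g.memN hW ha2 hb2).mpr h3⟩
  | eq i j =>
    simp only [Hs.satN]
    rcases h i with ⟨h1, h2⟩ | ⟨a, b, h1, h2, h3⟩ <;> rcases h j with ⟨h4, h5⟩ | ⟨c, d, h4, h5, h6⟩
    · simp [h1, h2, h4, h5]
    · simp [h1, h2, h4, h5]
    · simp [h1, h2, h4, h5]
    · rw [h1, h2, h4, h5, Option.some_inj, Option.some_inj]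
      exact RN_eq g h3 h6
  | neg φ ih =>
    simp only [Hs.satN]
    exact not_congr (ih h)
  | and φ ψ ih1 ih2 =>
    simp only [Hs.satN]
    exact and_congr (ih1 h) (ih2 h)
  | ex i φ ih =>
    simp only [Hs.satN]
    constructor
    · rintro ⟨a, h1, h2⟩
      obtain ⟨b, hb⟩ := g.isN_dom1 h1
      exact ⟨b, (g.isN hW hb).mp h1, (ih (h.update i hb)).mp h2⟩
    · rintro ⟨b, h1, h2⟩
      obtain ⟨a, ha⟩ := g.isN_dom2 h1
      exact ⟨a, (g.isN hW ha).mpr h1, (ih (h.update i ha)).mpr h2⟩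

theorem Gi.asg (g : Gi H H' R W) (hW : ∀ m, Wd m → W m) (p : List (ℕ × ℕ))
    {s : ℕ → Option (A × ℕ)} {s' : ℕ → Option (B × ℕ)} (h : RA R s s') :
    H.asg p s ↔ H'.asg p s' := by
  have key : ∀ (j : ℕ) (a : A × ℕ) (b : B × ℕ), RN R a b →
      ((H.isN a ∧ ∃ k, H.nD a.1 k ∧ p[j]? = some (k, a.2)) ↔
        (H'.isN b ∧ ∃ k, H'.nD b.1 k ∧ p[j]? = some (k, b.2))) := by
    intro j a b hab
    refine and_congr (g.isN hW hab) (exists_congr fun k => and_congr (g.nD hW hab.1 k) ?_)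
    rw [hab.2]
  have key2 : ∀ (j : ℕ) (a : A × ℕ) (b : B × ℕ), RN R a b → (s j = some a ↔ s' j = some b) := by
    intro j a b hab
    constructor
    · intro h1
      obtain ⟨b', hb1, hb2⟩ := h.some1 h1
      rw [hb1, (RN_eq g hb2 hab).mp rfl]
    · intro h1
      obtain ⟨a', ha1, ha2⟩ := h.some2 h1
      rw [ha1, (RN_eq g ha2 hab).mpr rfl]
  unfold Hs.asg
  constructor
  · intro H1 j b
    constructor
    · intro hb
      obtain ⟨a, -, hab⟩ := h.some2 hb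
      exact (key j a b hab).mp ((H1 j a).mp ((key2 j a b hab).mpr hb))
    · intro hb
      obtain ⟨a, hab⟩ := g.isN_dom2 hb.1
      exact (key2 j a b hab).mp ((H1 j a).mpr ((key j a b hab).mpr hb))
  · intro H1 j a
    constructor
    · intro ha
      obtain ⟨b, -, hab⟩ := h.some1 ha
      exact (key j a b hab).mpr ((H1 j b).mp ((key2 j a b hab).mp ha))
    · intro ha
      obtain ⟨b, hab⟩ := g.isN_dom1 ha.1
      exact (key2 j a b hab).mpr ((H1 j b).mpr ((key j a b hab).mp ha))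

theorem Gi.asg_dom1 (g : Gi H H' R W) {p : List (ℕ × ℕ)} {s : ℕ → Option (A × ℕ)}
    (h : H.asg p s) : ∃ s' : ℕ → Option (B × ℕ), RA R s s' := by
  have key : ∀ j, ∃ o : Option (B × ℕ), (s j = none ∧ o = none) ∨
      ∃ a b, s j = some a ∧ o = some b ∧ RN R a b := by
    intro j
    rcases hj : s j with _ | a
    · exact ⟨none, Or.inl ⟨rfl, rfl⟩⟩
    · obtain ⟨b, hb⟩ := g.isN_dom1 ((h j a).mp hj).1
      exact ⟨some b, Or.inr ⟨a, b, rfl, rfl, hb⟩⟩
  choose s' hs' using key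
  exact ⟨s', hs'⟩

theorem Gi.asg_dom2 (g : Gi H H' R W) {p : List (ℕ × ℕ)} {s' : ℕ → Option (B × ℕ)}
    (h : H'.asg p s') : ∃ s : ℕ → Option (A × ℕ), RA R s s' := by
  have key : ∀ j, ∃ o : Option (A × ℕ), (o = none ∧ s' j = none) ∨
      ∃ a b, o = some a ∧ s' j = some b ∧ RN R a b := by
    intro j
    rcases hj : s' j with _ | b
    · exact ⟨none, Or.inl ⟨rfl, rfl⟩⟩
    · obtain ⟨a, ha⟩ := g.isN_dom2 ((h j b).mp hj).1
      exact ⟨some a, Or.inr ⟨a, b, rfl, rfl, ha⟩⟩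
  choose s hs using key
  exact ⟨s, hs⟩

theorem Gi.idx (g : Gi H H' R W) (hW : ∀ m, Wd m → W m) (i : ℕ) (φ : Fml)
    {s : ℕ → Option (A × ℕ)} {s' : ℕ → Option (B × ℕ)} (h : RA R s s') :
    H.idx i φ s ↔ H'.idx i φ s' := by
  unfold Hs.idx
  refine exists_congr fun n => exists_congr fun p => and_congr Iff.rfl (and_congr Iff.rfl
    (and_congr (g.asg hW p h) (forall_congr' fun j => imp_congr Iff.rfl (imp_congr Iff.rfl
      (not_congr (h.none_iff j))))))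

theorem Gi.idx_dom1 (g : Gi H H' R W) {i : ℕ} {φ : Fml} {s : ℕ → Option (A × ℕ)}
    (h : H.idx i φ s) : ∃ s' : ℕ → Option (B × ℕ), RA R s s' := by
  obtain ⟨n, p, -, -, h1, -⟩ := h
  exact g.asg_dom1 h1

theorem Gi.idx_dom2 (g : Gi H H' R W) {i : ℕ} {φ : Fml} {s' : ℕ → Option (B × ℕ)}
    (h : H'.idx i φ s') : ∃ s : ℕ → Option (A × ℕ), RA R s s' := by
  obtain ⟨n, p, -, -, h1, -⟩ := h
  exact g.asg_dom2 h1

theorem Gi.exIdx (g : Gi H H' R W) (hW : ∀ m, Wd m → W m) (i : ℕ) :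
    (∃ φ s, H.idx i φ s) ↔ ∃ φ s, H'.idx i φ s := by
  refine exists_congr fun φ => ?_
  constructor
  · rintro ⟨s, hs⟩
    obtain ⟨s', h⟩ := g.idx_dom1 hs
    exact ⟨s', (g.idx hW i φ h).mp hs⟩
  · rintro ⟨s', hs'⟩
    obtain ⟨s, h⟩ := g.idx_dom2 hs'
    exact ⟨s, (g.idx hW i φ h).mpr hs'⟩

theorem Gi.inI (g : Gi H H' R W) (hW : ∀ m, Wd m → W m) (i : ℕ) {a : A × ℕ} {b : B × ℕ}
    (h : RN R a b) : H.inI i a ↔ H'.inI i b := by
  unfold Hs.inI
  refine and_congr (g.isN hW h) (exists_congr fun φ => ?_)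
  constructor
  · rintro ⟨s, hs, h1⟩
    obtain ⟨s', hr⟩ := g.idx_dom1 hs
    exact ⟨s', (g.idx hW i φ hr).mp hs, (g.satN hW φ (hr.update 0 h)).mp h1⟩
  · rintro ⟨s', hs, h1⟩
    obtain ⟨s, hr⟩ := g.idx_dom2 hs
    exact ⟨s, (g.idx hW i φ hr).mpr hs, (g.satN hW φ (hr.update 0 h)).mpr h1⟩

/-- universal quantifier over names -/
theorem Gi.allN (g : Gi H H' R W) (hW : ∀ m, Wd m → W m) {p : A × ℕ → Prop} {q : B × ℕ → Prop}
    (hpq : ∀ a b, RN R a b → (p a ↔ q b)) : (∀ a, H.isN a → p a) ↔ ∀ b, H'.isN b → q b := by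
  constructor
  · intro h b hb
    obtain ⟨a, ha⟩ := g.isN_dom2 hb
    exact (hpq a b ha).mp (h a ((g.isN hW ha).mpr hb))
  · intro h a ha
    obtain ⟨b, hb⟩ := g.isN_dom1 ha
    exact (hpq a b hb).mpr (h b ((g.isN hW hb).mp ha))

theorem Gi.valI (g : Gi H H' R W) (hW : ∀ m, Wd m → W m) (i : ℕ) : H.valI i ↔ H'.valI i := by
  unfold Hs.valI
  refine and_congr (g.exIdx hW i) (and_congr ?_ ?_)
  · refine g.allN hW fun b b' hb => not_congr (g.allN hW fun a a' ha => ?_)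
    exact iff_congr (g.inI hW i ha) (g.memN hW ha hb)
  · refine forall_congr' fun i' => imp_congr Iff.rfl (imp_congr (g.exIdx hW i') (not_congr ?_))
    exact g.allN hW fun a a' ha => iff_congr (g.inI hW i ha) (g.inI hW i' ha)

theorem Hs.vnN_isN {n : ℕ} {a : A × ℕ} (h : H.vnN n a) : H.isN a := by
  cases n with
  | zero => exact h.1
  | succ n => exact h.1

theorem Gi.vnN (g : Gi H H' R W) (hW : ∀ m, Wd m → W m) (n : ℕ) {a : A × ℕ} {b : B × ℕ}
    (h : RN R a b) : H.vnN n a ↔ H'.vnN n b := by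
  induction n generalizing a b with
  | zero =>
    simp only [Hs.vnN]
    refine and_congr (g.isN hW h) ?_
    constructor
    · intro h1 c hc
      obtain ⟨d, hd⟩ := g.isN_dom2 hc.1
      exact h1 d ((g.memN hW hd h).mpr hc)
    · intro h1 c hc
      obtain ⟨d, hd⟩ := g.isN_dom1 hc.1
      exact h1 d ((g.memN hW hd h).mp hc)
  | succ n ih =>
    simp only [Hs.vnN]
    refine and_congr (g.isN hW h) ?_
    have key : ∀ (c : A × ℕ) (c' : B × ℕ), RN R c c' →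
        ((H.vnN n c ∧ ∀ d, H.isN d → (H.memN d a ↔ d = c ∨ H.memN d c)) ↔
        (H'.vnN n c' ∧ ∀ d, H'.isN d → (H'.memN d b ↔ d = c' ∨ H'.memN d c'))) := by
      intro c c' hc
      refine and_congr (ih hc) (g.allN hW fun d d' hd => ?_)
      exact iff_congr (g.memN hW hd h) (or_congr (RN_eq g hd hc) (g.memN hW hd hc))
    constructor
    · rintro ⟨c, hc⟩
      obtain ⟨c', hc'⟩ := g.isN_dom1 (Hs.vnN_isN hc.1)
      exact ⟨c', (key c c' hc').mp hc⟩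
    · rintro ⟨c', hc'⟩
      obtain ⟨c, hc⟩ := g.isN_dom2 (Hs.vnN_isN hc'.1)
      exact ⟨c, (key c c' hc).mpr hc'⟩

theorem Gi.newL (g : Gi H H' R W) (hW : ∀ m, Wd m → W m) : H.newL = H'.newL := by
  ext m
  unfold Hs.newL
  simp only [Set.mem_ofPred_eq]
  refine or_congr (exists_congr fun i => and_congr Iff.rfl (g.valI hW i)) (or_congr ?_ ?_)
  · refine exists_congr fun i => ?_
    constructor
    · rintro ⟨γ, k, i', h1, h2, h3, h4⟩
      obtain ⟨b, hb⟩ := g.isN_dom1 h3.1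
      obtain ⟨b1, b2⟩ := b
      have e : i' = b2 := hb.2
      subst e
      exact ⟨b1, k, i', h1, (g.valI hW i).mp h2, (g.inI hW i hb).mp h3, (g.nD hW hb.1 k).mp h4⟩
    · rintro ⟨γ, k, i', h1, h2, h3, h4⟩
      obtain ⟨b, hb⟩ := g.isN_dom2 h3.1
      obtain ⟨b1, b2⟩ := b
      have e : b2 = i' := hb.2
      subst e
      exact ⟨b1, k, b2, h1, (g.valI hW i).mpr h2, (g.inI hW i hb).mpr h3, (g.nD hW hb.1 k).mpr h4⟩
  · refine exists_congr fun i => exists_congr fun n => and_congr Iff.rfl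
      (and_congr (g.valI hW i) ?_)
    constructor
    · rintro ⟨a, h1, h2⟩
      obtain ⟨b, hb⟩ := g.isN_dom1 h1.1
      exact ⟨b, (g.inI hW i hb).mp h1, (g.vnN hW n hb).mp h2⟩
    · rintro ⟨a, h1, h2⟩
      obtain ⟨b, hb⟩ := g.isN_dom2 h1.1
      exact ⟨b, (g.inI hW i hb).mpr h1, (g.vnN hW n hb).mpr h2⟩

end Pool.Agent.Helper24.AR
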