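import Pool.Agent.Helper24.AR.I4b
import Pool.Agent.Helper24.AR.I5

/-!
# Invariance, module I6: the cells of the input, the alarm, main theorems
-/

set_option autoImplicit false

namespace Pool.Agent.Helper24.AR

open Pool.Agent.Helper25.EV

universe u v

variable {A : Type u} {B : Type v} {H : Hs A} {H' : Hs B} {R : A → B → Prop}

theorem Gi.frY (g : Gi H H' R fun _ => True) (a : A) (b : B) (d : ℕ) (h : R a b) :
    H.frY a d ↔ H'.frY b d := g.lab a b _ h trivial

theorem Gi.nyL (g : Gi H H' R fun _ => True) (P : LPr) (y : ℕ → Bool) (n : ℕ) :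
    H.nyL P y n ↔ H'.nyL P y n := by
  unfold Hs.nyL
  refine or_congr (and_congr ?_ Iff.rfl) (or_congr ?_ (and_congr g.isLim ?_))
  · refine g.all (fun a ha => g.tot1 a (not_not.mp ha)) (fun b hb => g.tot2 b (not_not.mp hb)) ?_
    exact fun a b hab => not_congr (g.dom a b hab)
  · refine g.ex (fun a ha => g.tot1 a ha.1.1) (fun b hb => g.tot2 b hb.1.1) fun a b hab => ?_
    refine and_congr (g.isMax hab) (exists_congr fun v => and_congr Iff.rfl (and_congr ?_ Iff.rfl))
    exact forall_congr' fun j => forall_congr' fun _ => iff_congr Iff.rfl (g.frY a b _ hab)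
  · exact or_congr Iff.rfl (and_congr Iff.rfl (not_congr (g.sil (fun a b c h => g.frY a b c h) _)))

theorem Gi.nyK (g : Gi H H' R fun _ => True) (y : ℕ → Bool)
    (κ : List Bool × ℕ × ℕ × List Bool × ℕ) : H.nyK y κ ↔ H'.nyK y κ := by
  unfold Hs.nyK
  have hW : ∀ m, Wd m → (fun _ : ℕ => True) m := fun _ _ => trivial
  refine g.ex (fun a ha => g.nm_dom1 ha.1) (fun b hb => g.nm_dom2 hb.1) fun a b hab => ?_
  refine and_congr (g.nmD hW _ _ hab) (forall_congr' fun j => exists_congr fun u =>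
    exists_congr fun τ => and_congr (g.phi hW (g.rc hab _ _) _ _) (and_congr Iff.rfl
      (and_congr Iff.rfl (forall_congr' fun m => forall_congr' fun _ =>
        iff_congr Iff.rfl (g.newC hW m)))))

theorem Gi.nY (g : Gi H H' R fun _ => True) (P : LPr) (y : ℕ → Bool) (n : ℕ) :
    H.nY P y n ↔ H'.nY P y n := by
  unfold Hs.nY
  exact or_congr (exists_congr fun n' => and_congr Iff.rfl (g.nyL P y n'))
    (exists_congr fun κ => and_congr Iff.rfl (g.nyK y κ))

theorem Gi.deadY (g : Gi H H' R fun _ => True) {a : A} {b : B} (hab : R a b) :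
    H.deadY a ↔ H'.deadY b := by
  unfold Hs.deadY
  refine exists_congr fun n => g.ex (fun α h => g.tot1 α h.2.1) (fun β h => g.tot2 β h.2.1)
    fun α β hαβ => ?_
  exact and_congr ((g.res hab).sil (fun a b c h => g.frY a b c h) n)
    (and_congr (g.dom α β hαβ) (and_congr (g.le hab hαβ) (g.frY α β n hαβ)))

theorem Gi.loopD (g : Gi H H' R fun _ => True) {a d : A} {b e : B} (hab : R a b) (hde : R d e) :
    H.loopD a d ↔ H'.loopD b e := by
  unfold Hs.loopD
  have hW : ∀ m, Wd m → (fun _ : ℕ => True) m := fun _ _ => trivial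
  have hs1 : ∀ n, (H.res a).sil H.frD n ↔ (H'.res b).sil H'.frD n := fun n =>
    (g.res hab).sil (fun a b c h => g.frD hW a b c h) n
  have hs2 : ∀ n, (H.res d).sil H.frD n ↔ (H'.res e).sil H'.frD n := fun n =>
    (g.res hde).sil (fun a b c h => g.frD hW a b c h) n
  refine and_congr (g.limAt hab) (and_congr (g.limAt hde) (and_congr (g.lt a b d e hab hde)
    (and_congr ?_ ?_)))
  · exact forall_congr' fun n => iff_congr (hs1 n) (hs2 n)
  · refine forall_congr' fun n => imp_congr (hs1 n) (g.allD fun α β hαβ _ _ => ?_)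
    exact imp_congr (g.le hab hαβ) (imp_congr (g.lt α β d e hαβ hde)
      (not_congr (g.frD hW α β n hαβ)))

theorem Gi.alarm (g : Gi H H' R fun _ => True) (y : ℕ → Bool) : H.alarm y ↔ H'.alarm y := by
  unfold Hs.alarm
  have hW : ∀ m, Wd m → (fun _ : ℕ => True) m := fun _ _ => trivial
  refine or_congr ?_ ?_
  · refine g.ex (fun a h => ?_) (fun b h => ?_) fun a b hab => ?_
    · obtain ⟨c, hc, -⟩ := h
      exact (g.nev_dom1 hc).1
    · obtain ⟨c, hc, -⟩ := h
      exact (g.nev_dom2 hc).1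
    · refine g.exC (fun c h => (g.nev_dom1 h.1).2) (fun c h => (g.nev_dom2 h.1).2)
        fun c c' hc => ?_
      exact and_congr (g.nev hW hab hc) (and_congr (not_congr (g.deadY hab))
        (exists_congr fun τ => and_congr (g.phi hW hc _ _) Iff.rfl))
  · refine g.ex (fun a h => ?_) (fun b h => ?_) fun a b hab => ?_
    · obtain ⟨δ, h1, -⟩ := h
      exact g.tot1 a h1.1
    · obtain ⟨δ, h1, -⟩ := h
      exact g.tot2 b h1.1
    · exact g.ex (fun δ h => g.tot1 δ h.2.1.1) (fun δ h => g.tot2 δ h.2.1.1)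
        fun δ ε hδ => g.loopD hab hδ

theorem Gi.clab (g : Gi H H' R fun _ => True) (P : LPr) (nL : Set ℕ) (y : ℕ → Bool) :
    H.clab P rlL nL y = H'.clab P rlL nL y := by
  have hW : ∀ m, Wd m → (fun _ : ℕ => True) m := fun _ _ => trivial
  unfold Hs.clab
  rw [g.nlab hW P nL]
  congr 1
  ext m
  exact or_congr (exists_congr fun n => and_congr Iff.rfl (g.nY P y n))
    (and_congr Iff.rfl (g.alarm y))

/-- part 1 of the chapter -/
theorem invD' {H : Hs A} {H' : Hs B} {R : A → B → Prop} (h : HIso H H' R Wd) (P : LPr) :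
    H.nlab P rlL H.newL = H'.nlab P rlL H'.newL ∧ ∀ a b k, R a b → (H.nD a k ↔ H'.nD b k) := by
  have hW : ∀ m, Wd m → Wd m := fun _ h => h
  refine ⟨?_, fun a b k hab => h.gi.nD hW hab k⟩
  rw [h.gi.newL hW]
  exact h.gi.nlab hW P _

/-- part 2 of the chapter -/
theorem invY' {H : Hs A} {H' : Hs B} {R : A → B → Prop} (h : HIso H H' R fun _ => True)
    (P : LPr) (y : ℕ → Bool) : H.clab P rlL H.newL y = H'.clab P rlL H'.newL y := by
  have hW : ∀ m, Wd m → (fun _ : ℕ => True) m := fun _ _ => trivial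
  rw [h.gi.newL hW]
  exact h.gi.clab P _ y

end Pool.Agent.Helper24.AR
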