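import Pool.Agent.Helper24.AR.D6
import Pool.Agent.Helper24.AR.I6

/-!
# Chapter AR: the label is computed from every code of the history
-/

set_option autoImplicit false

namespace Pool.Agent.Helper24.AR

open Pool.Agent.Helper25.EV Encodable Ordinal

/-! ## Basic facts on the process for the input `y` (copies of lemmas of `ProcLem.lean`) -/

theorem stY_eq' (P : LPr) (y : Real2) (β : Ordinal.{0}) :
    stY P y β = ((mkH β fun γ _ => stY P y γ).clab P rlL (mkH β fun γ _ => stY P y γ).newL y,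
      (mkH β fun γ _ => stY P y γ).nD) := by
  unfold stY
  rw [WellFounded.fix_eq]

theorem nD_dom' {H : Hs Ordinal.{0}} (h : ∀ a a' k, H.D a → H.num a a' k → H.D a')
    (a : Ordinal.{0}) (k : ℕ) (hn : H.nD a k) : H.D a := by
  rcases hn with ⟨m, hm, ⟨rfl, _⟩ | ⟨_, k', hk, _⟩⟩ | ⟨_, hD, _⟩
  · exact hm.1
  · exact h _ _ _ hm.1 hk
  · exact hD

theorem numY_lt' (P : LPr) (y : Real2) :
    ∀ (β a : Ordinal.{0}) (k : ℕ), numY P y β a k → a < β := by
  intro β
  induction β using WellFounded.induction Ordinal.lt_wf with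
  | _ β ih =>
    intro a k h
    have h1 : (mkH β fun γ _ => stY P y γ).nD a k := by
      have : numY P y β a k = (stY P y β).2 a k := rfl
      rw [this, stY_eq'] at h
      exact h
    refine nD_dom' ?_ a k h1
    rintro b a' k' hb ⟨_, hk⟩
    exact lt_trans (ih b hb a' k' hk) hb

theorem isoY' (P : LPr) (y : Real2) (β : Ordinal.{0}) (W : ℕ → Prop) :
    HIso (mkH β fun γ _ => stY P y γ) (HY P y β) (fun a b => a = b ∧ a < β) W where
  dom := by
    rintro a b ⟨rfl, h⟩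
    exact ⟨h, h⟩
  tot1 := fun a h => ⟨a, rfl, h⟩
  tot2 := fun a h => ⟨a, rfl, h⟩
  eq := by
    rintro a b a' b' ⟨rfl, _⟩ ⟨rfl, _⟩
    exact Iff.rfl
  lt := by
    rintro a b a' b' ⟨rfl, _⟩ ⟨rfl, _⟩
    exact Iff.rfl
  lab := by
    rintro a b m ⟨rfl, h⟩ _
    exact ⟨fun h => h.choose_spec, fun h' => ⟨h, h'⟩⟩
  num := by
    rintro a b a' b' k ⟨rfl, h⟩ ⟨rfl, _⟩
    exact ⟨fun h => h.choose_spec, fun h' => ⟨h, h'⟩⟩
  num1 := by
    rintro a a' k h ⟨_, h'⟩
    exact lt_trans (numY_lt' P y a a' k h') h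
  num2 := by
    rintro a a' k h h'
    exact lt_trans (numY_lt' P y a a' k h') h

theorem labY_eq' (P : LPr) (y : Real2) (β : Ordinal.{0}) :
    labY P y β = (HY P y β).clab P rlL (HY P y β).newL y := by
  unfold labY
  rw [stY_eq']
  exact invY' (isoY' P y β _) P y

/-- the numbering of a stage is computed from the history below the stage -/
theorem numY_res (P : LPr) (y : Real2) (β γ : Ordinal.{0}) (hγ : γ < β) (a : Ordinal.{0}) (k : ℕ) :
    numY P y γ a k ↔ ((HY P y β).res γ).nD a k := by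
  have e : numY P y γ a k ↔ (mkH γ fun γ _ => stY P y γ).nD a k := by
    have : numY P y γ a k = (stY P y γ).2 a k := rfl
    rw [this, stY_eq']
  rw [e]
  have g : Gi (mkH γ fun γ _ => stY P y γ) ((HY P y β).res γ) (fun a b => a = b ∧ a < γ)
      fun _ => True :=
    { dom := by
        rintro a b ⟨rfl, h⟩
        exact ⟨fun _ => ⟨lt_trans h hγ, h⟩, fun _ => h⟩
      tot1 := fun a h => ⟨a, rfl, h⟩
      tot2 := fun a h => ⟨a, rfl, h.2⟩
      eq := (isoY' P y γ fun _ => True).eq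
      lt := (isoY' P y γ fun _ => True).lt
      lab := (isoY' P y γ fun _ => True).lab
      num := (isoY' P y γ fun _ => True).num
      num1 := by
        rintro a a' k h ⟨_, h'⟩
        exact ⟨a', rfl, lt_trans (numY_lt' P y a a' k h') h⟩
      num2 := by
        rintro a a' k h h'
        exact ⟨a', rfl, lt_trans (numY_lt' P y a a' k h') h.2⟩ }
  constructor
  · intro h
    obtain ⟨b, rfl, hb⟩ := g.nn_dom1 h
    exact (g.nD (fun _ _ => trivial) ⟨rfl, hb⟩ k).mp h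
  · intro h
    obtain ⟨b, rfl, hb⟩ := g.nn_dom2 h
    exact (g.nD (fun _ _ => trivial) ⟨rfl, hb⟩ k).mpr h

/-! ## Codes -/

section
variable (P : LPr)

/-- the set `Z` is the join of a code of the history below `β` and the real `y` -/
structure Code (Z : Set ℕ) (y : Real2) (β : Ordinal.{0}) (f : ℕ → Ordinal.{0}) : Prop where
  bij : Set.BijOn f {k | Nat.pair 0 k ∈ lc Z} (Set.Iio β)
  lt : ∀ k k', Nat.pair 1 (Nat.pair k k') ∈ lc Z ↔
      Nat.pair 0 k ∈ lc Z ∧ Nat.pair 0 k' ∈ lc Z ∧ f k < f k'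
  lab : ∀ k i, Nat.pair 2 (Nat.pair k i) ∈ lc Z ↔ Nat.pair 0 k ∈ lc Z ∧ i ∈ labY P y (f k)
  y : rc Z = setOf' y

variable {P}

theorem Code.f_eq {Z : Set ℕ} {y y' : Real2} {β β' : Ordinal.{0}} {f f' : ℕ → Ordinal.{0}}
    (h : Code P Z y β f) (h' : Code P Z y' β' f') :
    ∀ (γ : Ordinal.{0}) (k : ℕ), Nat.pair 0 k ∈ lc Z → f k = γ → f' k = γ := by
  intro γ
  induction γ using WellFounded.induction Ordinal.lt_wf with
  | _ γ ih =>
    intro k hk hγ
    have le1 : ¬ f' k < f k := by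
      intro hlt
      have h1 : f' k < β := lt_trans hlt (h.bij.mapsTo hk)
      obtain ⟨j, hj, e⟩ := h.bij.surjOn h1
      have h2 : f' j = f' k := ih (f' k) (by rw [← hγ]; exact hlt) j hj e
      have h3 := (h.lt j k).mpr ⟨hj, hk, by rw [e]; exact hlt⟩
      have h4 := ((h'.lt j k).mp h3).2.2
      rw [h2] at h4
      exact lt_irrefl _ h4
    have le2 : ¬ f k < f' k := by
      intro hlt
      have h1 : f k < β' := lt_trans hlt (h'.bij.mapsTo hk)
      obtain ⟨j, hj, e⟩ := h'.bij.surjOn h1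
      have h3 := (h'.lt j k).mpr ⟨hj, hk, by rw [e]; exact hlt⟩
      have h4 := ((h.lt j k).mp h3).2.2
      have h2 : f' j = f j := ih (f j) (by rw [← hγ]; exact h4) j hj rfl
      rw [e] at h2
      rw [h2] at h4
      exact lt_irrefl _ h4
    have := le_antisymm (not_lt.mp le1) (not_lt.mp le2)
    rw [← this]
    exact hγ

theorem Code.unique {Z : Set ℕ} {y y' : Real2} {β β' : Ordinal.{0}} {f f' : ℕ → Ordinal.{0}}
    (h : Code P Z y β f) (h' : Code P Z y' β' f') :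
    y = y' ∧ β = β' ∧ ∀ k, Nat.pair 0 k ∈ lc Z → f' k = f k := by
  have hf : ∀ k, Nat.pair 0 k ∈ lc Z → f' k = f k := fun k hk => h.f_eq h' (f k) k hk rfl
  refine ⟨?_, ?_, hf⟩
  · have e : setOf' y = setOf' y' := by rw [← h.y, ← h'.y]
    funext n
    have : (y n = true) ↔ (y' n = true) := by
      show n ∈ setOf' y ↔ n ∈ setOf' y'
      rw [e]
    exact Bool.eq_iff_iff.mpr this
  · have e : Set.Iio β = Set.Iio β' := by
      rw [← h.bij.image_eq, ← h'.bij.image_eq]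
      exact (Set.image_congr fun k hk => hf k hk).symm
    exact Set.Iio_injective e

/-- the numbering of the stages in a code -/
def nuZ (P : LPr) (Z : Set ℕ) (g a k : ℕ) : Prop :=
  ∃ (y : Real2) (β : Ordinal.{0}) (f : ℕ → Ordinal.{0}), Code P Z y β f ∧
    Nat.pair 0 g ∈ lc Z ∧ Nat.pair 0 a ∈ lc Z ∧ numY P y (f g) (f a) k

theorem nuZ_iff {Z : Set ℕ} {y : Real2} {β : Ordinal.{0}} {f : ℕ → Ordinal.{0}}
    (h : Code P Z y β f) (g a k : ℕ) : nuZ P Z g a k ↔
      Nat.pair 0 g ∈ lc Z ∧ Nat.pair 0 a ∈ lc Z ∧ numY P y (f g) (f a) k := by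
  constructor
  · rintro ⟨y', β', f', h', h1, h2, h3⟩
    obtain ⟨e1, _, e3⟩ := h.unique h'
    rw [e3 g h1, e3 a h2, ← e1] at h3
    exact ⟨h1, h2, h3⟩
  · exact fun h1 => ⟨y, β, f, h, h1⟩

/-- the history structure without the numbering -/
def hz0 (Z : Set ℕ) : Hs ℕ where
  D := fun k => Nat.pair 0 k ∈ lc Z
  lt := fun k k' => Nat.pair 1 (Nat.pair k k') ∈ lc Z
  lab := fun k => {i | Nat.pair 2 (Nat.pair k i) ∈ lc Z}
  num := fun _ _ _ => False

/-- the history structure given by a code -/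
def hz (P : LPr) (Z : Set ℕ) : Hs ℕ where
  D := fun k => Nat.pair 0 k ∈ lc Z
  lt := fun k k' => Nat.pair 1 (Nat.pair k k') ∈ lc Z
  lab := fun k => {i | Nat.pair 2 (Nat.pair k i) ∈ lc Z}
  num := nuZ P Z

theorem hzIso {Z : Set ℕ} {y : Real2} {β : Ordinal.{0}} {f : ℕ → Ordinal.{0}}
    (h : Code P Z y β f) :
    HIso (hz P Z) (HY P y β) (fun k a => Nat.pair 0 k ∈ lc Z ∧ f k = a) fun _ => True where
  dom := by
    rintro k a ⟨hk, rfl⟩
    exact ⟨hk, h.bij.mapsTo hk⟩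
  tot1 := fun k hk => ⟨f k, hk, rfl⟩
  tot2 := by
    intro a ha
    obtain ⟨k, hk, e⟩ := h.bij.surjOn ha
    exact ⟨k, hk, e⟩
  eq := by
    rintro k a k' a' ⟨hk, rfl⟩ ⟨hk', rfl⟩
    exact ⟨fun e => by rw [e], fun e => h.bij.injOn hk hk' e⟩
  lt := by
    rintro k a k' a' ⟨hk, rfl⟩ ⟨hk', rfl⟩
    exact ⟨fun e => ((h.lt k k').mp e).2.2, fun e => (h.lt k k').mpr ⟨hk, hk', e⟩⟩
  lab := by
    rintro k a m ⟨hk, rfl⟩ _
    exact ⟨fun e => ((h.lab k m).mp e).2, fun e => (h.lab k m).mpr ⟨hk, e⟩⟩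
  num := by
    rintro k a k' a' j ⟨hk, rfl⟩ ⟨hk', rfl⟩
    exact ⟨fun e => ((nuZ_iff h k k' j).mp e).2.2, fun e => (nuZ_iff h k k' j).mpr ⟨hk, hk', e⟩⟩
  num1 := fun k k' j _ hn => ((nuZ_iff h k k' j).mp hn).2.1
  num2 := fun b b' k hb hn => lt_trans (numY_lt' P y b b' k hn) hb

/-- the promise -/
def KK (P : LPr) : Set (Set ℕ) := {Z | ∃ y β f, Code P Z y β f}

theorem cut_num (H : Hs ℕ) (nu : ℕ → ℕ → ℕ → Prop) (fr : ℕ → ℕ → Prop) (τ : List Bool) (j : ℕ) :
    ∀ x, ({ H with num := nu } : Hs ℕ).cut fr τ j x ↔ H.cut fr τ j x := by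
  induction j with
  | zero => exact fun x => Iff.rfl
  | succ j ih => exact fun x => exists_congr fun w => and_congr (ih w) Iff.rfl

theorem nnG_num (H : Hs ℕ) (nu : ℕ → ℕ → ℕ → Prop) (fr : ℕ → ℕ → Prop) (t : ℕ → ℕ → ℕ → Prop)
    (a k : ℕ) : nnG { H with num := nu } fr t a k ↔ nnG H fr t a k := by
  unfold nnG
  simp only [cut_num]
  exact Iff.rfl

theorem nnG_local (H : Hs ℕ) (fr : ℕ → ℕ → Prop) {t t' : ℕ → ℕ → ℕ → Prop}
    (ht : ∀ m, H.D m → ∀ a k, t m a k ↔ t' m a k) (a k : ℕ) (h : nnG H fr t a k) :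
    nnG H fr t' a k := by
  rcases h with ⟨m, hm, h1 | ⟨h1, k', h2, h3⟩⟩ | ⟨h1, h2, τ, g, h3, h4, h5, h6, k', h7, h8⟩
  · exact Or.inl ⟨m, hm, Or.inl h1⟩
  · exact Or.inl ⟨m, hm, Or.inr ⟨h1, k', (ht m hm.1 a k').mp h2, h3⟩⟩
  · exact Or.inr ⟨h1, h2, τ, g, h3, h4, h5, h6, k', (ht g (cut_D h4) a k').mp h7, h8⟩

theorem mhz0 : MH (KK P) fun Z (_ : Unit) => hz0 Z where
  D := by
    show Mp (KK P) fun X _ (p : Unit × ℕ) => 2 * Nat.pair 0 p.2 ∈ X
    (with_reducible apply Mp.memX) <;> first | fun_prop | assumption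
  lt := by
    show Mp (KK P) fun X _ (p : Unit × ℕ × ℕ) => 2 * Nat.pair 1 (Nat.pair p.2.1 p.2.2) ∈ X
    (with_reducible apply Mp.memX) <;> first | fun_prop | assumption
  lab := by
    show Mp (KK P) fun X _ (p : Unit × ℕ × ℕ) => 2 * Nat.pair 2 (Nat.pair p.2.1 p.2.2) ∈ X
    (with_reducible apply Mp.memX) <;> first | fun_prop | assumption
  num := Mp.false

theorem hz_wf {Z : Set ℕ} (hZ : Z ∈ KK P) :
    (WellFounded fun x y => (hz0 Z).D x ∧ (hz0 Z).lt x y) ∧
      ∀ a b c, (hz0 Z).lt a b → (hz0 Z).lt b c → (hz0 Z).lt a c := by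
  obtain ⟨y, β, f, h⟩ := hZ
  constructor
  · exact Subrelation.wf (r := fun x y => f x < f y)
      (fun {x y} hxy => ((h.lt x y).mp hxy.2).2.2) (InvImage.wf f Ordinal.lt_wf)
  · intro a b c hab hbc
    have h1 := (h.lt a b).mp hab
    have h2 := (h.lt b c).mp hbc
    exact (h.lt a c).mpr ⟨h1.1, h2.2.1, lt_trans h1.2.2 h2.2.2⟩

theorem mhz : MH (KK P) fun Z (_ : Unit) => hz P Z where
  D := mhz0.D
  lt := mhz0.lt
  lab := mhz0.lab
  num := by
    have m0 : MH (KK P) fun Z (_ : Unit) => hz0 Z := mhz0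
    have key : Mp (KK P) fun X _ (p : ℕ × (ℕ × ℕ)) => nuZ P X p.1 p.2.1 p.2.2 := by
      refine Mp.recn (W := fun Z (g' g : ℕ) => (hz0 Z).D g' ∧ (hz0 Z).lt g' g) ?_
        (fun Z hZ => (hz_wf hZ).1)
        (Φ := fun Z t (g : ℕ) (b : ℕ × ℕ) => (hz0 Z).D g ∧
          nnG ((hz0 Z).res g) (hz0 Z).frD (fun m a k => t m (a, k)) b.1 b.2) ?_ ?_
        (R := fun Z g b => nuZ P Z g b.1 b.2) ?_
      · exact (m0.D' (f := fun _ => ()) (by fun_prop) (by fun_prop)).and
          (m0.lt' (f := fun _ => ()) (by fun_prop) (by fun_prop) (by fun_prop))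
      · refine Mp.and (m0.D' (f := fun _ => ()) (by fun_prop) (by fun_prop)) ?_
        exact m0.res.nnG' m0.frD.res (f := fun p : ℕ × (ℕ × ℕ) => ((), p.1)) (by fun_prop)
          (a := fun p => p.2.1) (k := fun p => p.2.2) (by fun_prop) (by fun_prop)
          (nu := fun _ T _ m a k => encode (m, (a, k)) ∈ T) (Mp.memT (by fun_prop))
      · rintro Z _ t t' g ht b ⟨h1, h2⟩
        exact ⟨h1, nnG_local _ _ (fun m hm a k => ht m hm (a, k)) _ _ h2⟩
      · rintro Z ⟨y, β, f, h⟩ g ⟨a, k⟩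
        dsimp only
        rw [nuZ_iff h]
        have gi := (hzIso h).gi
        have e0 : nnG ((hz0 Z).res g) (hz0 Z).frD (nuZ P Z) a k ↔
            ((hz P Z).res g).nn (hz P Z).frD a k := by
          have e1 : ((hz P Z).res g).nn (hz P Z).frD a k ↔
            nnG ((hz P Z).res g) (hz P Z).frD (nuZ P Z) a k := Iff.rfl
          rw [e1]
          exact (nnG_num ((hz0 Z).res g) (nuZ P Z) (hz0 Z).frD (nuZ P Z) a k).symm
        constructor
        · rintro ⟨hg, ha, hn⟩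
          refine ⟨hg, e0.mpr ?_⟩
          have h1 := (numY_res P y β (f g) (h.bij.mapsTo hg) (f a) k).mp hn
          exact ((gi.res (a := g) (b := f g) ⟨hg, rfl⟩).nD (fun _ _ => trivial)
            (a := a) (b := f a) ⟨ha, rfl⟩ k).mpr h1
        · rintro ⟨hg, hn⟩
          have h1 := e0.mp hn
          have gr := gi.res (a := g) (b := f g) ⟨hg, rfl⟩
          obtain ⟨b, hab, rfl⟩ := gr.nn_dom1 h1
          refine ⟨hg, hab, (numY_res P y β (f g) (h.bij.mapsTo hg) (f a) k).mpr ?_⟩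
          exact (gr.nD (fun _ _ => trivial) (a := a) (b := f a) ⟨hab, rfl⟩ k).mp h1
    exact key.comp (f := fun p : Unit × ℕ × ℕ × ℕ => (p.2.1, (p.2.2.1, p.2.2.2))) (by fun_prop)

open Classical in
/-- the real in the right column -/
noncomputable def yz (Z : Set ℕ) : ℕ → Bool := fun n => decide (n ∈ rc Z)

theorem myz : MY (KK P) yz := by
  have e : Mp (KK P) fun X _ (m : ℕ) => 2 * m + 1 ∈ X := by
      (with_reducible apply Mp.memX) <;> first | fun_prop | assumption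
  refine e.congr fun X _ _ m => ?_
  show yz X m = true ↔ m ∈ rc X
  unfold yz
  simp

/-- part 3 of the chapter -/
theorem AR' (P : LPr) (hP : P.Prim) : ∃ nl : List Instr, Computes nl (labY P) := by
  have _hP : Fact P.Prim := ⟨hP⟩
  have mw : MW (KK P) fun Z (_ : Unit) => hz P Z := fun Z hZ _ => hz_wf hZ
  have h1 : Mp (KK P) fun Z _ (n : ℕ) =>
      n ∈ (hz P Z).clab P rlL (hz P Z).newL (yz Z) :=
    (mhz (P := P)).clab' (f := fun _ : ℕ => ()) mw myz (by fun_prop) (by fun_prop)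
  obtain ⟨nl, hnl, h2⟩ := h1.cp
  refine ⟨nl, hnl, fun y β X _ hX => ?_⟩
  obtain ⟨f, hf1, hf2, hf3⟩ := hX
  have hc : Code P (jn X (setOf' y)) y β f :=
    { bij := by rw [lc_jn]; exact hf1
      lt := by rw [lc_jn]; exact hf2
      lab := by rw [lc_jn]; exact hf3
      y := rc_jn _ _ }
  rw [h2 _ ⟨y, β, f, hc⟩, labY_eq']
  beta_reduce
  have e : yz (jn X (setOf' y)) = y := by
    funext n
    unfold yz
    rw [rc_jn]
    simp [setOf']
  rw [e]
  exact invY' (hzIso hc) P y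

end

end Pool.Agent.Helper24.AR
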