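import Pool.Agent.Helper25.EV.Proc

/-!
# Isomorphisms of history structures (chapter AR of MP_f84cd7): basic facts

`Gi H H' R W` is a version of `HIso` which passes to the restricted structures `H.res a`.
-/

set_option autoImplicit false

namespace Pool.Agent.Helper24.AR

open Pool.Agent.Helper25.EV

universe u v

/-- general isomorphism: `R` is a partial bijection which is defined on the domains -/
structure Gi {A : Type u} {B : Type v} (H : Hs A) (H' : Hs B) (R : A → B → Prop)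
    (W : ℕ → Prop) : Prop where
  dom : ∀ a b, R a b → (H.D a ↔ H'.D b)
  tot1 : ∀ a, H.D a → ∃ b, R a b
  tot2 : ∀ b, H'.D b → ∃ a, R a b
  eq : ∀ a b a' b', R a b → R a' b' → (a = a' ↔ b = b')
  lt : ∀ a b a' b', R a b → R a' b' → (H.lt a a' ↔ H'.lt b b')
  lab : ∀ a b m, R a b → W m → (m ∈ H.lab a ↔ m ∈ H'.lab b)
  num : ∀ a b a' b' k, R a b → R a' b' → (H.num a a' k ↔ H'.num b b' k)
  num1 : ∀ a a' k, H.D a → H.num a a' k → ∃ b', R a' b'
  num2 : ∀ b b' k, H'.D b → H'.num b b' k → ∃ a', R a' b'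

/-- conditions which correspond to each other -/
def RC {A : Type u} {B : Type v} (R : A → B → Prop) (c : A × ℕ × List Bool)
    (c' : B × ℕ × List Bool) : Prop := R c.1 c'.1 ∧ c.2 = c'.2

/-- names of chapter LL which correspond to each other -/
def RN {A : Type u} {B : Type v} (R : A → B → Prop) (c : A × ℕ) (c' : B × ℕ) : Prop :=
  R c.1 c'.1 ∧ c.2 = c'.2

variable {A : Type u} {B : Type v} {H : Hs A} {H' : Hs B} {R : A → B → Prop} {W : ℕ → Prop}

theorem _root_.Pool.Agent.Helper25.EV.HIso.gi (h : HIso H H' R W) : Gi H H' R W where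
  dom := fun a b hab => ⟨fun _ => (h.dom a b hab).2, fun _ => (h.dom a b hab).1⟩
  tot1 := h.tot1
  tot2 := h.tot2
  eq := h.eq
  lt := h.lt
  lab := h.lab
  num := h.num
  num1 := fun a a' k ha hn => h.tot1 a' (h.num1 a a' k ha hn)
  num2 := fun b b' k hb hn => h.tot2 b' (h.num2 b b' k hb hn)

/-- restriction -/
theorem Gi.res (g : Gi H H' R W) {a : A} {b : B} (hab : R a b) :
    Gi (H.res a) (H'.res b) R W where
  dom := fun x y hxy => and_congr (g.dom x y hxy) (g.lt x y a b hxy hab)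
  tot1 := fun x hx => g.tot1 x hx.1
  tot2 := fun x hx => g.tot2 x hx.1
  eq := g.eq
  lt := g.lt
  lab := g.lab
  num := g.num
  num1 := fun x x' k hx hn => g.num1 x x' k hx.1 hn
  num2 := fun x x' k hx hn => g.num2 x x' k hx.1 hn

theorem Gi.mono {W' : ℕ → Prop} (g : Gi H H' R W) (h : ∀ m, W' m → W m) : Gi H H' R W' :=
  { g with lab := fun a b m hab hm => g.lab a b m hab (h m hm) }

/-! ## Quantifiers -/

/-- existential quantifier over stages, with a guard inside -/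
theorem Gi.ex {p : A → Prop} {q : B → Prop} (_g : Gi H H' R W)
    (hp : ∀ a, p a → ∃ b, R a b) (hq : ∀ b, q b → ∃ a, R a b)
    (hpq : ∀ a b, R a b → (p a ↔ q b)) : (∃ a, p a) ↔ ∃ b, q b :=
  ⟨fun ⟨a, ha⟩ => (hp a ha).elim fun b hb => ⟨b, (hpq a b hb).mp ha⟩,
    fun ⟨b, hb⟩ => (hq b hb).elim fun a ha => ⟨a, (hpq a b ha).mpr hb⟩⟩

/-- existential quantifier over the stages of the domain -/
theorem Gi.exD {p : A → Prop} {q : B → Prop} (g : Gi H H' R W)
    (hpq : ∀ a b, R a b → H.D a → H'.D b → (p a ↔ q b)) :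
    (∃ a, H.D a ∧ p a) ↔ ∃ b, H'.D b ∧ q b :=
  g.ex (fun a ha => g.tot1 a ha.1) (fun b hb => g.tot2 b hb.1) fun a b hab =>
    ⟨fun h => ⟨(g.dom a b hab).mp h.1, (hpq a b hab h.1 ((g.dom a b hab).mp h.1)).mp h.2⟩,
      fun h => ⟨(g.dom a b hab).mpr h.1, (hpq a b hab ((g.dom a b hab).mpr h.1) h.1).mpr h.2⟩⟩

/-- universal quantifier over stages, with a guard inside -/
theorem Gi.all {p : A → Prop} {q : B → Prop} (_g : Gi H H' R W)
    (hp : ∀ a, ¬ p a → ∃ b, R a b) (hq : ∀ b, ¬ q b → ∃ a, R a b)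
    (hpq : ∀ a b, R a b → (p a ↔ q b)) : (∀ a, p a) ↔ ∀ b, q b :=
  ⟨fun h b => by
      by_contra hb
      obtain ⟨a, ha⟩ := hq b hb
      exact hb ((hpq a b ha).mp (h a)),
    fun h a => by
      by_contra ha
      obtain ⟨b, hb⟩ := hp a ha
      exact ha ((hpq a b hb).mpr (h b))⟩

/-- universal quantifier over the stages of the domain -/
theorem Gi.allD {p : A → Prop} {q : B → Prop} (g : Gi H H' R W)
    (hpq : ∀ a b, R a b → H.D a → H'.D b → (p a ↔ q b)) :
    (∀ a, H.D a → p a) ↔ ∀ b, H'.D b → q b :=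
  g.all (fun a ha => g.tot1 a (by
      by_contra hn
      exact ha fun h => absurd h hn)) (fun b hb => g.tot2 b (by
      by_contra hn
      exact hb fun h => absurd h hn)) fun a b hab =>
    ⟨fun h h' => (hpq a b hab ((g.dom a b hab).mpr h') h').mp (h ((g.dom a b hab).mpr h')),
      fun h h' => (hpq a b hab h' ((g.dom a b hab).mp h')).mpr (h ((g.dom a b hab).mp h'))⟩

/-- universal quantifier with a guard -/
theorem Gi.allG {G p : A → Prop} {G' q : B → Prop} (g : Gi H H' R W)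
    (hG : ∀ a, G a → ∃ b, R a b) (hG' : ∀ b, G' b → ∃ a, R a b)
    (hGG : ∀ a b, R a b → (G a ↔ G' b))
    (hpq : ∀ a b, R a b → G a → G' b → (p a ↔ q b)) :
    (∀ a, G a → p a) ↔ ∀ b, G' b → q b :=
  g.all (fun a ha => hG a (by
      by_contra hn
      exact ha fun h => absurd h hn)) (fun b hb => hG' b (by
      by_contra hn
      exact hb fun h => absurd h hn)) fun a b hab =>
    ⟨fun h h' => (hpq a b hab ((hGG a b hab).mpr h') h').mp (h ((hGG a b hab).mpr h')),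
      fun h h' => (hpq a b hab h' ((hGG a b hab).mp h')).mpr (h ((hGG a b hab).mp h'))⟩

theorem Gi.rc (_g : Gi H H' R W) {a : A} {b : B} (hab : R a b) (x : ℕ) (σ : List Bool) :
    RC R (a, x, σ) (b, x, σ) := ⟨hab, rfl⟩

theorem RC.elim {c : A × ℕ × List Bool} {c' : B × ℕ × List Bool} (h : RC R c c') :
    ∃ a b x σ, c = (a, x, σ) ∧ c' = (b, x, σ) ∧ R a b := by
  obtain ⟨a, x, σ⟩ := c
  obtain ⟨b, x', σ'⟩ := c'
  obtain ⟨h1, h2⟩ := h
  cases h2
  exact ⟨a, b, x, σ, rfl, rfl, h1⟩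

theorem exRC1 (c : A × ℕ × List Bool) (h : ∃ b, R c.1 b) : ∃ c', RC R c c' :=
  h.elim fun b hb => ⟨(b, c.2), hb, rfl⟩

theorem exRC2 (c : B × ℕ × List Bool) (h : ∃ a, R a c.1) : ∃ c', RC R c' c :=
  h.elim fun a ha => ⟨(a, c.2), ha, rfl⟩

/-- existential quantifier over conditions, with a guard inside -/
theorem Gi.exC {p : A × ℕ × List Bool → Prop} {q : B × ℕ × List Bool → Prop}
    (_g : Gi H H' R W) (hp : ∀ c, p c → ∃ b, R c.1 b) (hq : ∀ c, q c → ∃ a, R a c.1)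
    (hpq : ∀ c c', RC R c c' → (p c ↔ q c')) : (∃ c, p c) ↔ ∃ c', q c' :=
  ⟨fun ⟨c, hc⟩ => (exRC1 c (hp c hc)).elim fun c' h => ⟨c', (hpq c c' h).mp hc⟩,
    fun ⟨c', hc'⟩ => (exRC2 c' (hq c' hc')).elim fun c h => ⟨c, (hpq c c' h).mpr hc'⟩⟩

/-- universal quantifier over conditions, with a guard -/
theorem Gi.allC {G p : A × ℕ × List Bool → Prop} {G' q : B × ℕ × List Bool → Prop}
    (_g : Gi H H' R W) (hG : ∀ c, G c → ∃ b, R c.1 b) (hG' : ∀ c, G' c → ∃ a, R a c.1)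
    (hGG : ∀ c c', RC R c c' → (G c ↔ G' c'))
    (hpq : ∀ c c', RC R c c' → G c → G' c' → (p c ↔ q c')) :
    (∀ c, G c → p c) ↔ ∀ c', G' c' → q c' :=
  ⟨fun h c' hc' => by
      obtain ⟨c, hc⟩ := exRC2 c' (hG' c' hc')
      exact (hpq c c' hc ((hGG c c' hc).mpr hc') hc').mp (h c ((hGG c c' hc).mpr hc')),
    fun h c hc => by
      obtain ⟨c', h'⟩ := exRC1 c (hG c hc)
      exact (hpq c c' h' hc ((hGG c c' h').mp hc)).mpr (h c' ((hGG c c' h').mp hc))⟩

end Pool.Agent.Helper24.AR
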