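import Pool.Agent.Helper24.AR.Gi

/-!
# Invariance, module I1: names
-/

set_option autoImplicit false

namespace Pool.Agent.Helper24.AR

open Pool.Agent.Helper25.EV

universe u v

variable {A : Type u} {B : Type v} {H : Hs A} {H' : Hs B} {R : A → B → Prop} {W : ℕ → Prop}
  {fr : A → ℕ → Prop} {fr' : B → ℕ → Prop}

theorem Gi.le (g : Gi H H' R W) {a a' : A} {b b' : B} (h : R a b) (h' : R a' b') :
    H.le a a' ↔ H'.le b b' :=
  or_congr (g.lt _ _ _ _ h h') (g.eq _ _ _ _ h h')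

theorem Gi.isMin (g : Gi H H' R W) {a : A} {b : B} (h : R a b) : H.isMin a ↔ H'.isMin b :=
  and_congr (g.dom _ _ h) (g.allD fun _ _ hxy _ _ => not_congr (g.lt _ _ _ _ hxy h))

theorem Gi.isMax (g : Gi H H' R W) {a : A} {b : B} (h : R a b) : H.isMax a ↔ H'.isMax b :=
  and_congr (g.dom _ _ h) (g.allD fun _ _ hxy _ _ => not_congr (g.lt _ _ _ _ h hxy))

theorem Gi.isLim (g : Gi H H' R W) : H.isLim ↔ H'.isLim :=
  and_congr (g.ex (fun a ha => g.tot1 a ha) (fun b hb => g.tot2 b hb) fun _ _ h => g.dom _ _ h)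
    (g.all (fun a ha => g.tot1 a (not_not.1 ha).1) (fun b hb => g.tot2 b (not_not.1 hb).1)
      fun _ _ h => not_congr (g.isMax h))

theorem Gi.limAt (g : Gi H H' R W) {a : A} {b : B} (h : R a b) : H.limAt a ↔ H'.limAt b :=
  and_congr (g.dom _ _ h) (g.res h).isLim

theorem Gi.sc (g : Gi H H' R W) {a a' : A} {b b' : B} (h : R a b) (h' : R a' b') :
    H.sc a a' ↔ H'.sc b b' :=
  and_congr (g.dom _ _ h) (and_congr (g.dom _ _ h') (and_congr (g.lt _ _ _ _ h h')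
    (g.allD fun _ _ hxy _ _ => imp_congr (g.lt _ _ _ _ h hxy)
      (not_congr (g.lt _ _ _ _ hxy h')))))

theorem Gi.silF (g : Gi H H' R W) (hf : ∀ a b c, R a b → (fr a c ↔ fr' b c)) (c : ℕ) {a : A}
    {b : B} (h : R a b) : H.silF fr c a ↔ H'.silF fr' c b :=
  g.allD fun _ _ hxy _ _ => imp_congr (g.le h hxy) (not_congr (hf _ _ _ hxy))

theorem Gi.sil (g : Gi H H' R W) (hf : ∀ a b c, R a b → (fr a c ↔ fr' b c)) (c : ℕ) :
    H.sil fr c ↔ H'.sil fr' c :=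
  g.exD fun _ _ hxy _ _ => g.silF hf c hxy

theorem Gi.cutStep (g : Gi H H' R W) (hf : ∀ a b c, R a b → (fr a c ↔ fr' b c)) (e : Bool) (c : ℕ)
    {w x : A} {w' x' : B} (h : R w w') (h' : R x x') :
    H.cutStep fr e c w x ↔ H'.cutStep fr' e c w' x' :=
  and_congr (g.dom _ _ h') (or_congr
    (and_congr Iff.rfl (and_congr (g.le h h') (and_congr (g.silF hf c h')
      (g.allD fun _ _ hxy _ _ => imp_congr (g.le h hxy) (imp_congr (g.silF hf c hxy)
        (g.le h' hxy))))))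
    (and_congr Iff.rfl (g.exD fun _ _ hxy _ _ => and_congr (g.le h hxy)
      (and_congr (hf _ _ _ hxy) (and_congr
        (g.allD fun _ _ hab _ _ => imp_congr (g.le h hab) (imp_congr (hf _ _ _ hab)
          (g.le hxy hab)))
        (g.sc hxy h'))))))

theorem cut_D {τ : List Bool} {j : ℕ} {x : A} (h : H.cut fr τ j x) : H.D x := by
  cases j with
  | zero => exact h.1
  | succ j =>
    obtain ⟨w, -, hw⟩ := h
    exact hw.1

theorem Gi.cut (g : Gi H H' R W) (hf : ∀ a b c, R a b → (fr a c ↔ fr' b c)) (τ : List Bool) (j : ℕ)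
    {x : A} {x' : B} (h : R x x') : H.cut fr τ j x ↔ H'.cut fr' τ j x' := by
  induction j generalizing x x' with
  | zero => exact g.isMin h
  | succ j ih =>
    exact g.ex (fun w hw => g.tot1 w (cut_D hw.1)) (fun w hw => g.tot2 w (cut_D hw.1))
      fun _ _ hw => and_congr (ih hw) (g.cutStep hf _ _ hw h)

theorem Gi.tg (g : Gi H H' R W) (hf : ∀ a b c, R a b → (fr a c ↔ fr' b c)) (τ : List Bool) :
    H.tg fr τ ↔ H'.tg fr' τ :=
  forall_congr' fun c => imp_congr Iff.rfl (iff_congr Iff.rfl (g.sil hf c))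

theorem Gi.nn_dom1 (g : Gi H H' R W) {a : A} {k : ℕ} (h : H.nn fr a k) : ∃ b, R a b := by
  rcases h with ⟨m, hm, ⟨rfl, -⟩ | ⟨-, k', hk', -⟩⟩ | ⟨-, ha, -⟩
  · exact g.tot1 _ hm.1
  · exact g.num1 _ _ _ hm.1 hk'
  · exact g.tot1 _ ha

theorem Gi.nn_dom2 (g : Gi H H' R W) {b : B} {k : ℕ} (h : H'.nn fr' b k) : ∃ a, R a b := by
  rcases h with ⟨m, hm, ⟨rfl, -⟩ | ⟨-, k', hk', -⟩⟩ | ⟨-, ha, -⟩
  · exact g.tot2 _ hm.1
  · exact g.num2 _ _ _ hm.1 hk'
  · exact g.tot2 _ ha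

theorem Gi.nn (g : Gi H H' R W) (hf : ∀ a b c, R a b → (fr a c ↔ fr' b c)) {a : A} {b : B}
    (h : R a b) (k : ℕ) : H.nn fr a k ↔ H'.nn fr' b k :=
  or_congr
    (g.ex (fun m hm => g.tot1 m hm.1.1) (fun m hm => g.tot2 m hm.1.1) fun _ _ hm =>
      and_congr (g.isMax hm) (or_congr (and_congr (g.eq _ _ _ _ h hm) Iff.rfl)
        (and_congr (g.lt _ _ _ _ h hm)
          (exists_congr fun _ => and_congr (g.num _ _ _ _ _ hm h) Iff.rfl))))
    (and_congr g.isLim (and_congr (g.dom _ _ h) (exists_congr fun τ =>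
      g.ex (fun x hx => g.tot1 x (cut_D hx.2.1)) (fun x hx => g.tot2 x (cut_D hx.2.1))
        fun _ _ hx => and_congr (g.tg hf τ) (and_congr (g.cut hf τ _ hx)
          (and_congr (g.lt _ _ _ _ h hx) (and_congr
            (g.allG (fun x hx => g.tot1 x (cut_D hx)) (fun x hx => g.tot2 x (cut_D hx))
              (fun _ _ hxy => g.cut hf τ _ hxy)
              fun _ _ hxy _ _ => not_congr (g.lt _ _ _ _ h hxy))
            (exists_congr fun _ => and_congr (g.num _ _ _ _ _ hx h) Iff.rfl)))))))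

theorem Gi.nm_dom1 (g : Gi H H' R W) {τ : List Bool} {k : ℕ} {a : A} (h : H.nm fr τ k a) :
    ∃ b, R a b := by
  obtain ⟨x, hx, hn⟩ := h
  exact g.num1 _ _ _ (cut_D hx) hn

theorem Gi.nm_dom2 (g : Gi H H' R W) {τ : List Bool} {k : ℕ} {b : B} (h : H'.nm fr' τ k b) :
    ∃ a, R a b := by
  obtain ⟨x, hx, hn⟩ := h
  exact g.num2 _ _ _ (cut_D hx) hn

theorem Gi.nm (g : Gi H H' R W) (hf : ∀ a b c, R a b → (fr a c ↔ fr' b c)) (τ : List Bool) (k : ℕ)
    {a : A} {b : B} (h : R a b) : H.nm fr τ k a ↔ H'.nm fr' τ k b :=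
  g.ex (fun x hx => g.tot1 x (cut_D hx.1)) (fun x hx => g.tot2 x (cut_D hx.1))
    fun _ _ hx => and_congr (g.cut hf τ _ hx) (g.num _ _ _ _ _ hx h)

/-! ## The `d`-cells -/

theorem Wd_even' (d : ℕ) : Wd (Nat.pair 0 (2 * d)) := by
  refine ⟨?_, ?_⟩
  · rintro ⟨n, hn⟩
    have h := (Nat.pair_eq_pair.1 hn).2
    omega
  · rw [Nat.unpair_pair]
    norm_num

theorem Wd_tag' (t m : ℕ) (h : t ≠ 0) (h' : t ≠ 9) : Wd (Nat.pair t m) := by
  refine ⟨?_, ?_⟩
  · rintro ⟨n, hn⟩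
    exact h (Nat.pair_eq_pair.1 hn).1
  · rw [Nat.unpair_pair]
    exact h'

theorem Gi.frD (g : Gi H H' R W) (hW : ∀ m, Wd m → W m) (a : A) (b : B) (d : ℕ) (h : R a b) :
    H.frD a d ↔ H'.frD b d :=
  g.lab a b _ h (hW _ (Wd_even' d))

theorem Gi.nD (g : Gi H H' R W) (hW : ∀ m, Wd m → W m) {a : A} {b : B} (h : R a b) (k : ℕ) :
    H.nD a k ↔ H'.nD b k :=
  g.nn (g.frD hW) h k

theorem Gi.nmD (g : Gi H H' R W) (hW : ∀ m, Wd m → W m) (τ : List Bool) (k : ℕ) {a : A} {b : B}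
    (h : R a b) : H.nmD τ k a ↔ H'.nmD τ k b :=
  g.nm (g.frD hW) τ k h

theorem Gi.cD (g : Gi H H' R W) (hW : ∀ m, Wd m → W m) {a : A} {b : B} (h : R a b) (m : ℕ) :
    H.cD a m ↔ H'.cD b m :=
  g.lab a b _ h (hW _ (Wd_tag' 1 m (by norm_num) (by norm_num)))

theorem Gi.newC (g : Gi H H' R W) (hW : ∀ m, Wd m → W m) (m : ℕ) : H.newC m ↔ H'.newC m := by
  refine g.ex (fun a ⟨_, _, _, ha, _⟩ => g.tot1 a ha) (fun b ⟨_, _, _, hb, _⟩ => g.tot2 b hb)
    fun a b hab => ?_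
  refine g.ex (fun a ⟨_, _, _, ha, _⟩ => g.tot1 a ha) (fun b ⟨_, _, _, hb, _⟩ => g.tot2 b hb)
    fun a' b' hab' => ?_
  exact exists_congr fun k => exists_congr fun k' => and_congr (g.dom _ _ hab)
    (and_congr (g.dom _ _ hab') (and_congr (g.le hab hab') (and_congr (g.nD hW hab k)
      (and_congr (g.nD hW hab' k') Iff.rfl))))

end Pool.Agent.Helper24.AR
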