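import Pool.Agent.Helper24.AR.I1

/-!
# Invariance, module I2: conditions
-/

set_option autoImplicit false

namespace Pool.Agent.Helper24.AR

open Pool.Agent.Helper25.EV

universe u v

variable {A : Type u} {B : Type v} {H : Hs A} {H' : Hs B} {R : A → B → Prop} {W : ℕ → Prop}

theorem Gi.tab (g : Gi H H' R W) (hW : ∀ m, Wd m → W m) {a : A} {b : B} (h : R a b) (x : ℕ)
    (σ τ : List Bool) : H.tab a x σ τ ↔ H'.tab b x σ τ :=
  g.lab a b _ h (hW _ (Wd_tag' 2 _ (by decide) (by decide)))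

theorem Gi.tr (g : Gi H H' R W) (hW : ∀ m, Wd m → W m) (t : ℕ) (ht : t = 3 ∨ t = 4) {a : A} {b : B}
    (h : R a b) (x k n : ℕ) (σ : List Bool) (i : Bool) :
    H.tr t a x k n σ i ↔ H'.tr t b x k n σ i := by
  refine g.lab a b _ h (hW _ ?_)
  rcases ht with rfl | rfl
  · exact Wd_tag' 3 _ (by decide) (by decide)
  · exact Wd_tag' 4 _ (by decide) (by decide)

theorem Gi.phi (g : Gi H H' R W) (hW : ∀ m, Wd m → W m) {c : A × ℕ × List Bool}
    {c' : B × ℕ × List Bool} (h : RC R c c') (σ τ : List Bool) : H.phi c σ τ ↔ H'.phi c' σ τ := by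
  obtain ⟨a, b, x, ρ, rfl, rfl, hab⟩ := h.elim
  exact g.tab hW hab _ _ _

theorem Gi.isC (g : Gi H H' R W) (hW : ∀ m, Wd m → W m) {c : A × ℕ × List Bool}
    {c' : B × ℕ × List Bool} (h : RC R c c') : H.isC c ↔ H'.isC c' :=
  and_congr (g.dom _ _ h.1) (exists_congr fun τ => g.phi hW h [] τ)

theorem Gi.isC_dom1 (g : Gi H H' R W) {c : A × ℕ × List Bool} (h : H.isC c) : ∃ b, R c.1 b :=
  g.tot1 _ h.1

theorem Gi.isC_dom2 (g : Gi H H' R W) {c : B × ℕ × List Bool} (h : H'.isC c) : ∃ a, R a c.1 :=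
  g.tot2 _ h.1

theorem Gi.inT (g : Gi H H' R W) (hW : ∀ m, Wd m → W m) {c : A × ℕ × List Bool}
    {c' : B × ℕ × List Bool} (h : RC R c c') (s : List Bool) : H.inT c s ↔ H'.inT c' s :=
  exists_congr fun σ => exists_congr fun τ => and_congr (g.phi hW h σ τ) Iff.rfl

theorem Gi.Le (g : Gi H H' R W) (hW : ∀ m, Wd m → W m) {c d : A × ℕ × List Bool}
    {c' d' : B × ℕ × List Bool} (h : RC R c c') (h' : RC R d d') : H.Le c d ↔ H'.Le c' d' :=
  forall_congr' fun σ => forall_congr' fun τ => imp_congr (g.phi hW h σ τ) (g.inT hW h' τ)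

theorem Gi.Dj (g : Gi H H' R W) (hW : ∀ m, Wd m → W m) {c d : A × ℕ × List Bool}
    {c' d' : B × ℕ × List Bool} (h : RC R c c') (h' : RC R d d') : H.Dj c d ↔ H'.Dj c' d' :=
  exists_congr fun _ => forall_congr' fun σ => imp_congr Iff.rfl <| forall_congr' fun τ =>
    imp_congr (g.phi hW h σ τ) (not_congr (g.inT hW h' τ))

theorem Gi.rd (g : Gi H H' R W) (hW : ∀ m, Wd m → W m) (t : ℕ) (ht : t = 3 ∨ t = 4)
    {c : A × ℕ × List Bool} {c' : B × ℕ × List Bool} (h : RC R c c') {a : A} {b : B} (hab : R a b)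
    (n : ℕ) (σ : List Bool) (i : Bool) : H.rd t c a n σ i ↔ H'.rd t c' b n σ i := by
  refine and_congr (g.dom _ _ hab) (and_congr (g.lt _ _ _ _ hab h.1) (exists_congr fun k =>
    and_congr (g.num _ _ _ _ k h.1 hab) ?_))
  obtain ⟨a', b', x, ρ, rfl, rfl, hab'⟩ := h.elim
  exact g.tr hW t ht hab' _ _ _ _ _

theorem Gi.Frc (g : Gi H H' R W) (hW : ∀ m, Wd m → W m) (t : ℕ) (ht : t = 3 ∨ t = 4)
    {c : A × ℕ × List Bool} {c' : B × ℕ × List Bool} (h : RC R c c') {a : A} {b : B} (hab : R a b)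
    (n : ℕ) : H.Frc t c a n ↔ H'.Frc t c' b n :=
  and_congr (g.dom _ _ hab) (and_congr (g.lt _ _ _ _ hab h.1) (forall_congr' fun σ =>
    not_congr (g.rd hW t ht h hab n σ false)))

theorem Gi.Hit (g : Gi H H' R W) (hW : ∀ m, Wd m → W m) {a : A} {b : B} (hab : R a b) (n : ℕ)
    {c : A × ℕ × List Bool} {c' : B × ℕ × List Bool} (h : RC R c c') :
    H.Hit a n c ↔ H'.Hit b n c' :=
  g.exD fun _ _ hαβ _ _ => and_congr (g.lt _ _ _ _ hab hαβ) (and_congr (g.lt _ _ _ _ hαβ h.1)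
    (g.Frc hW 3 (Or.inl rfl) h hαβ n))

theorem Gi.Dead (g : Gi H H' R W) (hW : ∀ m, Wd m → W m) {a : A} {b : B} (hab : R a b)
    {c : A × ℕ × List Bool} {c' : B × ℕ × List Bool} (h : RC R c c') :
    H.Dead c a ↔ H'.Dead c' b :=
  exists_congr fun _ => forall_congr' fun σ => imp_congr Iff.rfl <| exists_congr fun n =>
    g.exD fun _ _ hαβ _ _ => and_congr (g.le hab hαβ) (and_congr (g.lt _ _ _ _ hαβ h.1)
      (and_congr (g.rd hW 4 (Or.inr rfl) h hab n σ true) (g.rd hW 3 (Or.inl rfl) h hαβ n σ true)))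

theorem Gi.evt (g : Gi H H' R W) (hW : ∀ m, Wd m → W m) {a d : A} {b e : B} (hab : R a b)
    (hde : R d e) {c : A × ℕ × List Bool} {c' : B × ℕ × List Bool} (h : RC R c c') :
    H.evt a d c ↔ H'.evt b e c' := by
  obtain ⟨a', b', x, ρ, rfl, rfl, hab'⟩ := h.elim
  exact and_congr (g.dom _ _ hde) (exists_congr fun k => exists_congr fun k' =>
    and_congr (g.num _ _ _ _ k hde hab) (and_congr (g.num _ _ _ _ k' hde hab')
      (g.lab _ _ _ hde (hW _ (Wd_tag' 5 _ (by decide) (by decide))))))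

/-- an event has its three stages in the domain of `R` -/
theorem Gi.evt_dom1 (g : Gi H H' R W) {a d : A} {c : A × ℕ × List Bool} (h : H.evt a d c) :
    (∃ b, R a b) ∧ (∃ e, R d e) ∧ ∃ e, R c.1 e := by
  obtain ⟨hd, k, k', h1, h2, -⟩ := h
  exact ⟨g.num1 _ _ _ hd h1, g.tot1 _ hd, g.num1 _ _ _ hd h2⟩

theorem Gi.evt_dom2 (g : Gi H H' R W) {b e : B} {c : B × ℕ × List Bool} (h : H'.evt b e c) :
    (∃ a, R a b) ∧ (∃ d, R d e) ∧ ∃ d, R d c.1 := by
  obtain ⟨hd, k, k', h1, h2, -⟩ := h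
  exact ⟨g.num2 _ _ _ hd h1, g.tot2 _ hd, g.num2 _ _ _ hd h2⟩

end Pool.Agent.Helper24.AR
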