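import Pool.Agent.Helper24.AR.I2

/-!
# Invariance, module I2b: validity, requirements, fusion
-/

set_option autoImplicit false

namespace Pool.Agent.Helper24.AR

open Pool.Agent.Helper25.EV

universe u v

variable {A : Type u} {B : Type v} {H : Hs A} {H' : Hs B} {R : A → B → Prop} {W : ℕ → Prop}

/-- universal quantifier over conditions, with a guard inside -/
theorem Gi.allC' {p : A × ℕ × List Bool → Prop} {q : B × ℕ × List Bool → Prop}
    (_g : Gi H H' R W) (hp : ∀ c, ¬ p c → ∃ b, R c.1 b) (hq : ∀ c, ¬ q c → ∃ a, R a c.1)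
    (hpq : ∀ c c', RC R c c' → (p c ↔ q c')) : (∀ c, p c) ↔ ∀ c', q c' :=
  ⟨fun h c' => by
      by_contra hc
      obtain ⟨c, hcc⟩ := exRC2 c' (hq c' hc)
      exact hc ((hpq c c' hcc).mp (h c)),
    fun h c => by
      by_contra hc
      obtain ⟨c', hcc⟩ := exRC1 c (hp c hc)
      exact hc ((hpq c c' hcc).mpr (h c'))⟩

theorem Gi.Q (g : Gi H H' R W) (hW : ∀ m, Wd m → W m) {c : A × ℕ × List Bool}
    {c' : B × ℕ × List Bool} (h : RC R c c') : H.Q c ↔ H'.Q c' := by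
  refine and_congr (g.isC hW h) ?_
  refine g.all ?_ ?_ fun η η' hη => ?_
  · intro η hη
    obtain ⟨δ, h1⟩ := not_forall.1 hη
    obtain ⟨d, h2⟩ := not_forall.1 h1
    exact (g.evt_dom1 (Classical.not_imp.1 h2).1).1
  · intro η hη
    obtain ⟨δ, h1⟩ := not_forall.1 hη
    obtain ⟨d, h2⟩ := not_forall.1 h1
    exact (g.evt_dom2 (Classical.not_imp.1 h2).1).1
  refine g.all ?_ ?_ fun δ δ' hδ => ?_
  · intro δ hδ
    obtain ⟨d, h2⟩ := not_forall.1 hδ
    exact (g.evt_dom1 (Classical.not_imp.1 h2).1).2.1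
  · intro δ hδ
    obtain ⟨d, h2⟩ := not_forall.1 hδ
    exact (g.evt_dom2 (Classical.not_imp.1 h2).1).2.1
  exact g.allC (fun _ h => (g.evt_dom1 h).2.2) (fun _ h => (g.evt_dom2 h).2.2)
    (fun _ _ hc => g.evt hW hη hδ hc) fun _ _ hc _ _ =>
      imp_congr (g.le hη h.1) (imp_congr (g.le h.1 hδ)
        (or_congr (g.Dead hW hη h) (g.Le hW h hc)))

theorem Gi.T0 (g : Gi H H' R W) (hW : ∀ m, Wd m → W m) {c : A × ℕ × List Bool}
    {c' : B × ℕ × List Bool} (h : RC R c c') (n : ℕ) : H.T0 c n ↔ H'.T0 c' n :=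
  g.allC (fun _ hc => g.isC_dom1 hc) (fun _ hc => g.isC_dom2 hc) (fun _ _ hc => g.isC hW hc)
    fun _ _ hc _ _ => imp_congr (g.Le hW hc h) (not_congr (g.Hit hW h.1 n hc))

theorem Gi.T1 (g : Gi H H' R W) (hW : ∀ m, Wd m → W m) {c : A × ℕ × List Bool}
    {c' : B × ℕ × List Bool} (h : RC R c c') (n : ℕ) : H.T1 c n ↔ H'.T1 c' n :=
  g.allC (fun _ hc => g.isC_dom1 hc.1) (fun _ hc => g.isC_dom2 hc.1) (fun _ _ hc => g.Q hW hc)
    fun _ _ hc _ _ => imp_congr (g.Le hW hc h) (not_congr (g.T0 hW hc n))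

theorem Gi.nC (g : Gi H H' R W) (hW : ∀ m, Wd m → W m) {c : A × ℕ × List Bool}
    {c' : B × ℕ × List Bool} (h : RC R c c') (m : ℕ) : H.nC c m ↔ H'.nC c' m :=
  exists_congr fun k => and_congr (g.nD hW h.1 k) (by rw [h.2])

theorem Gi.Rq (g : Gi H H' R W) (hW : ∀ m, Wd m → W m) (k : ℕ) {c : A × ℕ × List Bool}
    {c' : B × ℕ × List Bool} (h : RC R c c') : H.Rq k c ↔ H'.Rq k c' := by
  dsimp only [Hs.Rq]
  refine and_congr (imp_congr Iff.rfl (g.allD fun _ _ ha _ _ => imp_congr (g.nD hW ha _)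
    (g.lt _ _ _ _ ha h.1))) (and_congr (imp_congr Iff.rfl ?_) (and_congr (imp_congr Iff.rfl
    (or_congr (g.T0 hW h _) (g.T1 hW h _))) (imp_congr Iff.rfl (g.allD fun _ _ ha _ _ =>
      imp_congr (g.nD hW ha _) (or_congr (g.T0 hW h _) (g.exD fun _ _ hb _ _ =>
        and_congr (g.lt _ _ _ _ ha hb) (and_congr (g.lt _ _ _ _ hb h.1)
          (g.Frc hW 3 (Or.inl rfl) h hb _))))))))
  refine g.all ?_ ?_ fun a a' ha => ?_
  · intro a ha
    obtain ⟨x, h1⟩ := not_forall.1 ha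
    obtain ⟨σ, h2⟩ := not_forall.1 h1
    exact g.tot1 a (Classical.not_imp.1 h2).1
  · intro a ha
    obtain ⟨x, h1⟩ := not_forall.1 ha
    obtain ⟨σ, h2⟩ := not_forall.1 h1
    exact g.tot2 a (Classical.not_imp.1 h2).1
  exact forall_congr' fun x => forall_congr' fun σ => imp_congr (g.dom _ _ ha)
    (imp_congr (g.nD hW ha _) (imp_congr Iff.rfl (imp_congr (g.isC hW (g.rc ha x σ))
      (or_congr (g.Le hW h (g.rc ha x σ)) (g.Dj hW h (g.rc ha x σ))))))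

theorem Gi.Ext (g : Gi H H' R W) (hW : ∀ m, Wd m → W m) (k : ℕ) {c d : A × ℕ × List Bool}
    {c' d' : B × ℕ × List Bool} (h : RC R c c') (h' : RC R d d') :
    H.Ext k c d ↔ H'.Ext k c' d' := by
  refine and_congr (and_congr (g.Q hW h') (and_congr (g.Le hW h' h) (g.Rq hW k h'))) ?_
  refine g.allC' ?_ ?_ fun e e' he => ?_
  · intro e he
    obtain ⟨m, h1⟩ := not_forall.1 he
    obtain ⟨m', h2⟩ := not_forall.1 h1
    exact g.isC_dom1 (Classical.not_imp.1 h2).1.1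
  · intro e he
    obtain ⟨m, h1⟩ := not_forall.1 he
    obtain ⟨m', h2⟩ := not_forall.1 h1
    exact g.isC_dom2 (Classical.not_imp.1 h2).1.1
  exact forall_congr' fun m => forall_congr' fun m' => imp_congr (g.Q hW he)
    (imp_congr (g.Le hW he h) (imp_congr (g.Rq hW k he) (imp_congr (g.nC hW h' m)
      (imp_congr (g.nC hW he m') Iff.rfl))))

/-- iterations of related relations -/
theorem chR_iff {X : Type u} {Y : Type v} (S : X → Y → Prop) {i : X → Prop} {i' : Y → Prop}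
    {s : ℕ → Bool → X → X → Prop} {s' : ℕ → Bool → Y → Y → Prop}
    (hi : ∀ x y, S x y → (i x ↔ i' y)) (hi1 : ∀ x, i x → ∃ y, S x y)
    (hi2 : ∀ y, i' y → ∃ x, S x y)
    (hs : ∀ n b x y x' y', S x y → S x' y' → (s n b x x' ↔ s' n b y y'))
    (hs1 : ∀ n b x x', s n b x x' → ∃ y, S x' y) (hs2 : ∀ n b y y', s' n b y y' → ∃ x, S x y')
    (σ : List Bool) : (∀ x y, S x y → (ch i s σ x ↔ ch i' s' σ y)) ∧
      (∀ x, ch i s σ x → ∃ y, S x y) ∧ (∀ y, ch i' s' σ y → ∃ x, S x y) := by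
  have key : ∀ t : List Bool, (∀ x y, S x y → (chR i s t x ↔ chR i' s' t y)) ∧
      (∀ x, chR i s t x → ∃ y, S x y) ∧ (∀ y, chR i' s' t y → ∃ x, S x y) := by
    intro t
    induction t with
    | nil => exact ⟨hi, hi1, hi2⟩
    | cons b t ih =>
      refine ⟨fun x y hxy => ⟨?_, ?_⟩, ?_, ?_⟩
      · rintro ⟨r, hr, hrx⟩
        obtain ⟨r', hr'⟩ := ih.2.1 r hr
        exact ⟨r', (ih.1 r r' hr').mp hr, (hs _ _ _ _ _ _ hr' hxy).mp hrx⟩
      · rintro ⟨r', hr, hrx⟩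
        obtain ⟨r, hr'⟩ := ih.2.2 r' hr
        exact ⟨r, (ih.1 r r' hr').mpr hr, (hs _ _ _ _ _ _ hr' hxy).mpr hrx⟩
      · rintro x ⟨r, -, hrx⟩
        exact hs1 _ _ _ _ hrx
      · rintro y ⟨r, -, hry⟩
        exact hs2 _ _ _ _ hry
  exact key σ.reverse

theorem rst_rc {c : A × ℕ × List Bool} {c' : B × ℕ × List Bool} (h : RC R c c') (b : Bool) :
    RC R (Hs.rst c b) (Hs.rst c' b) := by
  refine ⟨h.1, ?_⟩
  show (c.2.1, c.2.2 ++ [b]) = (c'.2.1, c'.2.2 ++ [b])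
  rw [h.2]

theorem Gi.fus (g : Gi H H' R W) (hW : ∀ m, Wd m → W m) (σ : List Bool) {c : A × ℕ × List Bool}
    {c' : B × ℕ × List Bool} (h : RC R c c') : H.fus σ c ↔ H'.fus σ c' := by
  refine (chR_iff (RC R) ?_ ?_ ?_ ?_ ?_ ?_ σ).1 c c' h
  · exact fun x y hxy => and_congr (g.isMin hxy.1) (by rw [hxy.2])
  · exact fun x hx => exRC1 x (g.tot1 _ hx.1.1)
  · exact fun x hx => exRC2 x (g.tot2 _ hx.1.1)
  · exact fun n b x y x' y' hxy hxy' => g.Ext hW n (rst_rc hxy b) hxy'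
  · exact fun n b x x' hx => exRC1 x' (g.isC_dom1 hx.1.1.1)
  · exact fun n b x x' hx => exRC2 x' (g.isC_dom2 hx.1.1.1)

theorem Gi.fus_dom1 (g : Gi H H' R W) {σ : List Bool} {c : A × ℕ × List Bool}
    (h : H.fus σ c) : ∃ b, R c.1 b := by
  unfold Hs.fus ch at h
  cases hr : σ.reverse with
  | nil =>
    rw [hr] at h
    exact g.tot1 _ h.1.1
  | cons b t =>
    rw [hr] at h
    obtain ⟨r, -, hx⟩ := h
    exact g.isC_dom1 hx.1.1.1

theorem Gi.fus_dom2 (g : Gi H H' R W) {σ : List Bool} {c : B × ℕ × List Bool}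
    (h : H'.fus σ c) : ∃ a, R a c.1 := by
  unfold Hs.fus ch at h
  cases hr : σ.reverse with
  | nil =>
    rw [hr] at h
    exact g.tot2 _ h.1.1
  | cons b t =>
    rw [hr] at h
    obtain ⟨r, -, hx⟩ := h
    exact g.isC_dom2 hx.1.1.1

end Pool.Agent.Helper24.AR
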