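import Pool.Agent.Helper24.AR.I3

/-!
# Invariance, module I3b: dense sets, new tables
-/

set_option autoImplicit false

namespace Pool.Agent.Helper24.AR

open Pool.Agent.Helper25.EV

universe u v

variable {A : Type u} {B : Type v} {H : Hs A} {H' : Hs B} {R : A → B → Prop} {W : ℕ → Prop}

theorem Gi.dk (g : Gi H H' R W) (hW : ∀ m, Wd m → W m) (P : LPr) {c : A × ℕ × List Bool}
    {c' : B × ℕ × List Bool} (h : RC R c c') (k : ℕ) (σ : List Bool) :
    H.dk P rlL c k σ ↔ H'.dk P rlL c' k σ := by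
  dsimp only [Hs.dk]
  refine and_congr (imp_congr Iff.rfl (g.allD fun _ _ ha _ _ => imp_congr (g.nD hW ha _)
    (exists_congr fun i => g.RR hW P h ha _ _ _ i))) (and_congr (imp_congr Iff.rfl
    (g.allG (fun a ha => g.tot1 a ha.1) (fun b hb => g.tot2 b hb.1) (fun _ _ ha => g.limAt ha)
      fun _ _ ha _ _ => imp_congr (g.nD hW ha _)
        (exists_congr fun i => g.RR hW P h ha _ _ _ i))) (and_congr (imp_congr Iff.rfl ?_)
    (imp_congr Iff.rfl (g.allD fun _ _ ha _ _ => imp_congr (g.nD hW ha _)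
      (exists_congr fun τ => and_congr (g.th hW h σ τ) (exists_congr fun m =>
        and_congr Iff.rfl (not_congr (iff_congr Iff.rfl
          (g.lab _ _ _ ha (hW _ (Wd_tag' 8 _ (by norm_num) (by norm_num)))))))))))) 
  refine g.all ?_ ?_ fun a a' ha => ?_
  · intro a ha
    obtain ⟨b, h1⟩ := not_forall.1 ha
    exact g.tot1 a (Classical.not_imp.1 h1).1.1
  · intro a ha
    obtain ⟨b, h1⟩ := not_forall.1 ha
    exact g.tot2 a (Classical.not_imp.1 h1).1.1
  refine g.all ?_ ?_ fun b b' hb => ?_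
  · intro b hb
    exact g.tot1 b (Classical.not_imp.1 (Classical.not_imp.1 hb).2).1
  · intro b hb
    exact g.tot2 b (Classical.not_imp.1 (Classical.not_imp.1 hb).2).1
  exact imp_congr (g.limAt ha) (imp_congr (g.dom _ _ hb) (imp_congr (g.lt _ _ _ _ hb ha)
    (imp_congr (g.nD hW ha _) (imp_congr (g.nD hW hb _) (or_congr (g.RR hW P h ha _ _ _ _)
      (g.exD fun _ _ hx _ _ => and_congr (g.le hb hx) (and_congr (g.lt _ _ _ _ hx ha)
        (g.RR hW P h hx _ _ _ _))))))))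

theorem Gi.lext (g : Gi H H' R W) (hW : ∀ m, Wd m → W m) (P : LPr) {c : A × ℕ × List Bool}
    {c' : B × ℕ × List Bool} (h : RC R c c') (r : List Bool) (k : ℕ) (ρ : List Bool) :
    H.lext P rlL c r k ρ ↔ H'.lext P rlL c' r k ρ :=
  and_congr (and_congr Iff.rfl (g.dk hW P h k ρ)) (forall_congr' fun ρ' =>
    imp_congr Iff.rfl (imp_congr (g.dk hW P h k ρ') Iff.rfl))

theorem Gi.psi (g : Gi H H' R W) (hW : ∀ m, Wd m → W m) (P : LPr) {c : A × ℕ × List Bool}
    {c' : B × ℕ × List Bool} (h : RC R c c') (σ ρ : List Bool) :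
    H.psi P rlL c σ ρ ↔ H'.psi P rlL c' σ ρ := by
  refine (chR_iff (fun x y : List Bool => x = y) ?_ ?_ ?_ ?_ ?_ ?_ σ).1 ρ ρ rfl
  · rintro x y rfl
    exact g.lext hW P h _ _ _
  · exact fun x _ => ⟨x, rfl⟩
  · exact fun x _ => ⟨x, rfl⟩
  · rintro n b x y x' y' rfl rfl
    exact g.lext hW P h _ _ _
  · exact fun n b x x' _ => ⟨x', rfl⟩
  · exact fun n b x x' _ => ⟨x', rfl⟩

theorem Gi.src (g : Gi H H' R W) (hW : ∀ m, Wd m → W m) (x : ℕ) {c : A × ℕ × List Bool}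
    {c' : B × ℕ × List Bool} (h : RC R c c') : H.src x c ↔ H'.src x c' :=
  and_congr (g.ex (fun m hm => g.tot1 m hm.1) (fun m hm => g.tot2 m hm.1)
    fun _ _ hm => g.isMax hm) (and_congr (g.nC hW h x) (g.Q hW h))

theorem Gi.ntab (g : Gi H H' R W) (hW : ∀ m, Wd m → W m) (P : LPr) (x : ℕ) (σ τ : List Bool) :
    H.ntab P rlL x σ τ ↔ H'.ntab P rlL x σ τ :=
  or_congr (and_congr (g.all (fun a ha => g.tot1 a (not_not.1 ha))
      (fun b hb => g.tot2 b (not_not.1 hb)) fun _ _ hab => not_congr (g.dom _ _ hab)) Iff.rfl)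
    (or_congr (g.exC (fun _ hc => g.isC_dom1 hc.1.2.2.1) (fun _ hc => g.isC_dom2 hc.1.2.2.1)
      fun _ _ hc => and_congr (g.src hW x hc) (exists_congr fun ρ =>
        and_congr (g.psi hW P hc σ ρ) (g.th hW hc ρ τ)))
    (and_congr g.isLim (and_congr Iff.rfl (g.exC (fun _ hc => g.fus_dom1 hc.1)
      (fun _ hc => g.fus_dom2 hc.1) fun _ _ hc => and_congr (g.fus hW σ hc)
        (g.phi hW hc [] τ)))))

theorem Gi.nrd (g : Gi H H' R W) (hW : ∀ m, Wd m → W m) (P : LPr) (z : Bool) (x k n : ℕ)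
    (σ : List Bool) (i : Bool) : H.nrd P rlL z x k n σ i ↔ H'.nrd P rlL z x k n σ i := by
  refine or_congr (g.exC (fun _ hc => g.isC_dom1 hc.1.2.2.1) (fun _ hc => g.isC_dom2 hc.1.2.2.1)
    fun _ _ hc => and_congr (g.src hW x hc) (g.ex (fun a ⟨_, ha⟩ => g.tot1 a ha.1)
      (fun b ⟨_, hb⟩ => g.tot2 b hb.1) fun _ _ ha => exists_congr fun ρ =>
        and_congr (g.dom _ _ ha) (and_congr (g.nD hW ha k) (and_congr (g.psi hW P hc σ ρ)
          (g.RR hW P hc ha z ρ n i))))) (and_congr g.isLim (and_congr Iff.rfl ?_))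
  refine g.ex (fun a ⟨_, _, _, _, _, ha⟩ => g.tot1 a ha.1)
    (fun b ⟨_, _, _, _, _, hb⟩ => g.tot2 b hb.1) fun a a' ha => exists_congr fun σ' => ?_
  refine g.exC (fun c ⟨_, _, _, hc⟩ => g.fus_dom1 hc.2.2.2.1)
    (fun c ⟨_, _, _, hc⟩ => g.fus_dom2 hc.2.2.2.1) fun c c' hc => exists_congr fun ρ =>
      exists_congr fun τ' => exists_congr fun τ => ?_
  exact and_congr (g.dom _ _ ha) (and_congr (g.nD hW ha k) (and_congr Iff.rfl
    (and_congr (g.fus hW σ' hc) (and_congr (g.lt _ _ _ _ ha hc.1) (and_congr (g.phi hW hc ρ τ')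
      (and_congr (g.ntab hW P 0 σ τ) (and_congr Iff.rfl (g.rd hW _ (by
        cases z
        · exact Or.inl rfl
        · exact Or.inr rfl) hc ha n ρ i))))))))

end Pool.Agent.Helper24.AR
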