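import Pool.Agent.Helper24.AR.I3b

/-!
# Invariance, module I4: events and `d`-cells
-/

set_option autoImplicit false

namespace Pool.Agent.Helper24.AR

open Pool.Agent.Helper25.EV

universe u v

variable {A : Type u} {B : Type v} {H : Hs A} {H' : Hs B} {R : A → B → Prop} {W : ℕ → Prop}

theorem Gi.cur_dom1 (g : Gi H H' R W) {a : A} {b : B} (hab : R a b) (m : ℕ)
    {e : A × (A × ℕ × List Bool)} (h : H.cur a m e) : (∃ y, R e.1 y) ∧ ∃ y, R e.2.1 y := by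
  cases m with
  | zero =>
    have h' : e = (a, (a, 0, [])) := h
    subst h'
    exact ⟨⟨b, hab⟩, ⟨b, hab⟩⟩
  | succ m =>
    obtain ⟨e', -, -, h1, -⟩ := h
    exact (g.evt_dom1 h1).2

theorem Gi.cur_dom2 (g : Gi H H' R W) {a : A} {b : B} (hab : R a b) (m : ℕ)
    {e : B × (B × ℕ × List Bool)} (h : H'.cur b m e) : (∃ x, R x e.1) ∧ ∃ x, R x e.2.1 := by
  cases m with
  | zero =>
    have h' : e = (b, (b, 0, [])) := h
    subst h'
    exact ⟨⟨a, hab⟩, ⟨a, hab⟩⟩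
  | succ m =>
    obtain ⟨e', -, -, h1, -⟩ := h
    exact (g.evt_dom2 h1).2

/-- existential quantifier over pairs (stage, condition) -/
theorem Gi.exE {p : A × (A × ℕ × List Bool) → Prop} {q : B × (B × ℕ × List Bool) → Prop}
    (_g : Gi H H' R W) (hp : ∀ e, p e → (∃ y, R e.1 y) ∧ ∃ y, R e.2.1 y)
    (hq : ∀ e, q e → (∃ x, R x e.1) ∧ ∃ x, R x e.2.1)
    (hpq : ∀ e e', R e.1 e'.1 → RC R e.2 e'.2 → (p e ↔ q e')) : (∃ e, p e) ↔ ∃ e', q e' := by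
  constructor
  · rintro ⟨e, he⟩
    obtain ⟨⟨y, hy⟩, ⟨z, hz⟩⟩ := hp e he
    exact ⟨(y, (z, e.2.2)), (hpq e (y, (z, e.2.2)) hy ⟨hz, rfl⟩).mp he⟩
  · rintro ⟨e, he⟩
    obtain ⟨⟨y, hy⟩, ⟨z, hz⟩⟩ := hq e he
    exact ⟨(y, (z, e.2.2)), (hpq (y, (z, e.2.2)) e hy ⟨hz, rfl⟩).mpr he⟩

/-- no event at the stages with a property -/
theorem Gi.noEvt (g : Gi H H' R W) (hW : ∀ m, Wd m → W m) {a : A} {b : B} (hab : R a b)
    {p : A → Prop} {q : B → Prop} (hpq : ∀ x y, R x y → (p x ↔ q y)) :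
    (∀ (δ : A) (c : A × ℕ × List Bool), p δ → ¬ H.evt a δ c) ↔
    ∀ (δ : B) (c : B × ℕ × List Bool), q δ → ¬ H'.evt b δ c := by
  constructor
  · intro h δ c hq hev
    obtain ⟨-, ⟨x, hx⟩, ⟨y, hy⟩⟩ := g.evt_dom2 hev
    exact h x (y, c.2) ((hpq x δ hx).mpr hq) ((g.evt hW hab hx (c := (y, c.2)) ⟨hy, rfl⟩).mpr hev)
  · intro h δ c hq hev
    obtain ⟨-, ⟨x, hx⟩, ⟨y, hy⟩⟩ := g.evt_dom1 hev
    exact h x (y, c.2) ((hpq δ x hx).mp hq) ((g.evt hW hab hx (c' := (y, c.2)) ⟨hy, rfl⟩).mp hev)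

theorem Gi.cur (g : Gi H H' R W) (hW : ∀ m, Wd m → W m) {a : A} {b : B} (hab : R a b) (m : ℕ)
    {e : A × (A × ℕ × List Bool)} {e' : B × (B × ℕ × List Bool)} (h1 : R e.1 e'.1)
    (h2 : RC R e.2 e'.2) : H.cur a m e ↔ H'.cur b m e' := by
  induction m generalizing e e' with
  | zero =>
    have hl : H.cur a 0 e ↔ e = (a, (a, 0, [])) := Iff.rfl
    have hr : H'.cur b 0 e' ↔ e' = (b, (b, 0, [])) := Iff.rfl
    have el : e = (a, (a, 0, [])) ↔ (e.1 = a ∧ e.2.1 = a ∧ e.2.2 = (0, [])) := by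
      constructor
      · rintro rfl
        exact ⟨rfl, rfl, rfl⟩
      · rintro ⟨h3, h4, h5⟩
        exact Prod.ext h3 (Prod.ext h4 h5)
    have er : e' = (b, (b, 0, [])) ↔ (e'.1 = b ∧ e'.2.1 = b ∧ e'.2.2 = (0, [])) := by
      constructor
      · rintro rfl
        exact ⟨rfl, rfl, rfl⟩
      · rintro ⟨h3, h4, h5⟩
        exact Prod.ext h3 (Prod.ext h4 h5)
    rw [hl, hr, el, er]
    refine and_congr (g.eq _ _ _ _ h1 hab) (and_congr (g.eq _ _ _ _ h2.1 hab) ?_)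
    rw [h2.2]
  | succ m ih =>
    have hl : H.cur a (m + 1) e ↔ ∃ e', H.cur a m e' ∧ H.lt e'.1 e.1 ∧ H.evt a e.1 e.2 ∧
      ∀ (δ : A) (c : A × ℕ × List Bool), H.lt e'.1 δ → H.lt δ e.1 → ¬ H.evt a δ c := Iff.rfl
    have hr : H'.cur b (m + 1) e' ↔ ∃ e'', H'.cur b m e'' ∧ H'.lt e''.1 e'.1 ∧ H'.evt b e'.1 e'.2 ∧
      ∀ (δ : B) (c : B × ℕ × List Bool), H'.lt e''.1 δ → H'.lt δ e'.1 → ¬ H'.evt b δ c := Iff.rfl
    rw [hl, hr]
    refine g.exE (fun x hx => g.cur_dom1 hab m hx.1) (fun x hx => g.cur_dom2 hab m hx.1)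
      fun x y hxy1 hxy2 => ?_
    refine and_congr (ih hxy1 hxy2) (and_congr (g.lt _ _ _ _ hxy1 h1)
      (and_congr (g.evt hW hab h1 h2) ?_))
    have key := g.noEvt hW hab (p := fun δ => H.lt x.1 δ ∧ H.lt δ e.1)
      (q := fun δ => H'.lt y.1 δ ∧ H'.lt δ e'.1)
      (fun u v huv => and_congr (g.lt _ _ _ _ hxy1 huv) (g.lt _ _ _ _ huv h1))
    constructor
    · intro h δ c h3 h4
      exact key.mp (fun δ c hh => h δ c hh.1 hh.2) δ c ⟨h3, h4⟩
    · intro h δ c h3 h4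
      exact key.mpr (fun δ c hh => h δ c hh.1 hh.2) δ c ⟨h3, h4⟩

theorem Gi.rqE (g : Gi H H' R W) (hW : ∀ m, Wd m → W m) (m : ℕ) {d a : A} {e b : B} (hde : R d e)
    (hab : R a b) {c : A × ℕ × List Bool} {c' : B × ℕ × List Bool} (h : RC R c c') :
    H.rqE m d a c ↔ H'.rqE m e b c' := by
  unfold Hs.rqE
  refine or_congr ?_ ?_
  · refine exists_congr fun k => and_congr Iff.rfl (or_congr
      ((g.res hab).sil (fun x y c hxy => g.frD hW x y c hxy) k) ?_)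
    exact g.exD fun x y hxy _ _ => and_congr (g.lt _ _ _ _ hde hxy) (g.frD hW x y k hxy)
  · refine exists_congr fun n => and_congr Iff.rfl (or_congr
      (g.Frc hW 4 (Or.inr rfl) h hab n) ?_)
    exact g.exD fun x y hxy _ _ => and_congr (g.lt _ _ _ _ hde hxy)
      (and_congr (g.lt _ _ _ _ hxy h.1) (g.Frc hW 3 (Or.inl rfl) h hxy n))

theorem Gi.evOK (g : Gi H H' R W) (hW : ∀ m, Wd m → W m) {a : A} {b : B} (hab : R a b)
    {c : A × ℕ × List Bool} {c' : B × ℕ × List Bool} (h : RC R c c') :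
    H.evOK a c ↔ H'.evOK b c' := by
  unfold Hs.evOK
  refine and_congr (g.limAt hab) (and_congr ?_ (exists_congr fun m => ?_))
  · exact forall_congr' fun d => imp_congr
      ((g.res hab).sil (fun x y c hxy => g.frD hW x y c hxy) d)
      (g.silF (fun x y c hxy => g.frD hW x y c hxy) d hab)
  · refine g.exE (fun x hx => g.cur_dom1 hab m hx.1) (fun x hx => g.cur_dom2 hab m hx.1)
      fun x y hxy1 hxy2 => ?_
    refine and_congr (g.cur hW hab m hxy1 hxy2) (and_congr (g.noEvt hW hab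
      fun u v huv => g.lt _ _ _ _ hxy1 huv) (and_congr (g.isC hW h) (and_congr
      (g.lt _ _ _ _ hxy1 h.1) (and_congr (g.Le hW h hxy2) (and_congr ?_ (and_congr ?_
      (g.rqE hW m hxy1 hab h)))))))
    · exact exists_congr fun τ => exists_congr fun τ' => and_congr (g.phi hW h [] τ)
        (and_congr (g.phi hW hxy2 [] τ') Iff.rfl)
    · refine g.all (fun u hu => ?_) (fun u hu => ?_) fun u v huv => ?_
      · apply g.tot1
        by_contra hn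
        exact hu fun hl => absurd hl.1 hn
      · apply g.tot2
        by_contra hn
        exact hu fun hl => absurd hl.1 hn
      · exact imp_congr (g.limAt huv) (imp_congr (g.lt _ _ _ _ hab huv) (imp_congr
          (g.le huv h.1) (g.Dead hW huv h)))

theorem Gi.nev (g : Gi H H' R W) (hW : ∀ m, Wd m → W m) {a : A} {b : B} (hab : R a b)
    {c : A × ℕ × List Bool} {c' : B × ℕ × List Bool} (h : RC R c c') :
    H.nev a c ↔ H'.nev b c' := by
  have hd1 : ∀ d, H.evOK a d → ∃ y, R d.1 y := by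
    rintro d ⟨-, -, m, e, -, -, h1, -⟩
    exact g.isC_dom1 h1
  have hd2 : ∀ d, H'.evOK b d → ∃ y, R y d.1 := by
    rintro d ⟨-, -, m, e, -, -, h1, -⟩
    exact g.isC_dom2 h1
  unfold Hs.nev
  refine and_congr (g.evOK hW hab h) ?_
  constructor
  · intro H1 d m m' h1 h2 h3
    obtain ⟨d₀, hd₀⟩ := exRC2 d (hd2 d h1)
    exact H1 d₀ m m' ((g.evOK hW hab hd₀).mpr h1) ((g.nC hW h m).mpr h2) ((g.nC hW hd₀ m').mpr h3)
  · intro H1 d m m' h1 h2 h3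
    obtain ⟨d₀, hd₀⟩ := exRC1 d (hd1 d h1)
    exact H1 d₀ m m' ((g.evOK hW hab hd₀).mp h1) ((g.nC hW h m).mp h2) ((g.nC hW hd₀ m').mp h3)

theorem Gi.nev_dom1 (g : Gi H H' R W) {a : A} {c : A × ℕ × List Bool} (h : H.nev a c) :
    (∃ b, R a b) ∧ ∃ b, R c.1 b := by
  obtain ⟨⟨h0, -, m, e, -, -, h1, -⟩, -⟩ := h
  exact ⟨g.tot1 a h0.1, g.isC_dom1 h1⟩

theorem Gi.nev_dom2 (g : Gi H H' R W) {b : B} {c : B × ℕ × List Bool} (h : H'.nev b c) :
    (∃ a, R a b) ∧ ∃ a, R a c.1 := by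
  obtain ⟨⟨h0, -, m, e, -, -, h1, -⟩, -⟩ := h
  exact ⟨g.tot2 b h0.1, g.isC_dom2 h1⟩

end Pool.Agent.Helper24.AR
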