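import Pool.Agent.Helper24.AR.I4

/-!
# Invariance, module I4b: refutation, `d`-cells, label
-/

set_option autoImplicit false

namespace Pool.Agent.Helper24.AR

open Pool.Agent.Helper25.EV

universe u v

variable {A : Type u} {B : Type v} {H : Hs A} {H' : Hs B} {R : A → B → Prop} {W : ℕ → Prop}

theorem Gi.refu (g : Gi H H' R W) (hW : ∀ m, Wd m → W m) {c : A × ℕ × List Bool}
    {c' : B × ℕ × List Bool} (h : RC R c c') (n : ℕ) : H.refu c n ↔ H'.refu c' n := by
  unfold Hs.refu
  refine or_congr (not_congr (g.Q hW h)) ?_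
  exact g.exC (fun d hd => g.isC_dom1 hd.1) (fun d hd => g.isC_dom2 hd.1) fun d d' hd =>
    and_congr (g.isC hW hd) (and_congr (g.Le hW hd h) (g.Hit hW h.1 n hd))

theorem Gi.aref (g : Gi H H' R W) (hW : ∀ m, Wd m → W m) {c : A × ℕ × List Bool}
    {c' : B × ℕ × List Bool} (h : RC R c c') (n : ℕ) {a : A} {b : B} (hab : R a b) :
    H.aref c n a ↔ H'.aref c' n b := by
  unfold Hs.aref
  exact g.allC (fun d hd => g.isC_dom1 hd) (fun d hd => g.isC_dom2 hd)
    (fun d d' hd => g.isC hW hd) fun d d' hd _ _ => imp_congr (g.Le hW hd h)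
      (imp_congr (g.le hd.1 hab) (g.refu hW hd n))

theorem Gi.nfD (g : Gi H H' R W) (hW : ∀ m, Wd m → W m) (d : ℕ) : H.nfD d ↔ H'.nfD d := by
  unfold Hs.nfD
  refine or_congr Iff.rfl (or_congr ?_ (or_congr ?_ (or_congr ?_ ?_)))
  · refine exists_congr fun τ => exists_congr fun k => and_congr Iff.rfl ?_
    refine g.ex (fun a ha => g.nm_dom1 ha.1) (fun a ha => g.nm_dom2 ha.1) fun a b hab => ?_
    refine and_congr (g.nmD hW τ k hab) ?_
    refine g.ex (fun x hx => ?_) (fun x hx => ?_) fun x y hxy => ?_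
    · obtain ⟨c, hc, -⟩ := hx
      exact g.tot1 x hc.1
    · obtain ⟨c, hc, -⟩ := hx
      exact g.tot2 x hc.1
    · exact g.exC (fun c hc => (g.evt_dom1 hc.2).2.2) (fun c hc => (g.evt_dom2 hc.2).2.2)
        fun c c' hc => and_congr (g.isMax hxy) (g.evt hW hab hxy hc)
  · refine exists_congr fun τ => exists_congr fun k => exists_congr fun x => exists_congr fun σ =>
      exists_congr fun n => and_congr Iff.rfl ?_
    refine g.ex (fun a ha => g.nm_dom1 ha.1) (fun a ha => g.nm_dom2 ha.1) fun a b hab => ?_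
    refine and_congr (g.nmD hW τ k hab) (and_congr (g.isC hW (g.rc hab x σ)) ?_)
    exact g.exC (fun c hc => g.isC_dom1 hc.1) (fun c hc => g.isC_dom2 hc.1) fun c c' hc =>
      and_congr (g.isC hW hc) (and_congr (g.isMax hc.1) (and_congr
        (g.Le hW hc (g.rc hab x σ)) (g.Hit hW hab n hc)))
  · refine exists_congr fun τ => exists_congr fun k => exists_congr fun x => exists_congr fun σ =>
      exists_congr fun n => exists_congr fun τ' => exists_congr fun k' => and_congr Iff.rfl ?_
    refine g.ex (fun a ha => ?_) (fun a ha => ?_) fun a b hab => ?_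
    · obtain ⟨ξ, h1, -⟩ := ha
      exact g.nm_dom1 h1
    · obtain ⟨ξ, h1, -⟩ := ha
      exact g.nm_dom2 h1
    · refine g.ex (fun ξ hξ => g.nm_dom1 hξ.2.1) (fun ξ hξ => g.nm_dom2 hξ.2.1) fun ξ ξ' hξ => ?_
      refine and_congr (g.nmD hW τ k hab) (and_congr (g.nmD hW τ' k' hξ) (and_congr
        (g.isC hW (g.rc hab x σ)) (and_congr (g.aref hW (g.rc hab x σ) n hξ) ?_)))
      exact g.allD fun u v huv _ _ => imp_congr (g.lt _ _ _ _ hab huv) (imp_congr
        (g.lt _ _ _ _ hξ huv) (not_congr ((g.res huv).aref hW (g.rc hab x σ) n hξ)))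
  · refine exists_congr fun τ => exists_congr fun k => exists_congr fun x => exists_congr fun σ =>
      exists_congr fun n => and_congr Iff.rfl ?_
    refine g.ex (fun a ha => g.nm_dom1 ha.1) (fun a ha => g.nm_dom2 ha.1) fun a b hab => ?_
    refine and_congr (g.nmD hW τ k hab) (and_congr (g.isC hW (g.rc hab x σ)) ?_)
    exact g.allD fun ξ ξ' hξ _ _ => imp_congr (g.frD hW ξ ξ' d hξ)
      (g.aref hW (g.rc hab x σ) n hξ)

theorem Gi.nlab (g : Gi H H' R W) (hW : ∀ m, Wd m → W m) (P : LPr) (nL : Set ℕ) :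
    H.nlab P rlL nL = H'.nlab P rlL nL := by
  ext m
  unfold Hs.nlab
  simp only [Set.mem_ofPred_eq]
  refine or_congr (exists_congr fun d => and_congr Iff.rfl (g.nfD hW d)) (or_congr
    (exists_congr fun p => and_congr Iff.rfl (g.newC hW p)) (or_congr ?_ (or_congr ?_
    (or_congr ?_ (or_congr ?_ Iff.rfl)))))
  · exact exists_congr fun x => exists_congr fun σ => exists_congr fun τ =>
      and_congr Iff.rfl (g.ntab hW P x σ τ)
  · exact exists_congr fun x => exists_congr fun k => exists_congr fun n => exists_congr fun σ =>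
      exists_congr fun i => and_congr Iff.rfl (g.nrd hW P false x k n σ i)
  · exact exists_congr fun x => exists_congr fun k => exists_congr fun n => exists_congr fun σ =>
      exists_congr fun i => and_congr Iff.rfl (g.nrd hW P true x k n σ i)
  · refine g.ex (fun η hη => ?_) (fun η hη => ?_) fun η η' hη => ?_
    · obtain ⟨a, x, σ, k, k', -, -, -, h⟩ := hη
      exact (g.nev_dom1 h).1
    · obtain ⟨a, x, σ, k, k', -, -, -, h⟩ := hη
      exact (g.nev_dom2 h).1
    · refine g.ex (fun a ha => ?_) (fun a ha => ?_) fun a b hab => ?_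
      · obtain ⟨x, σ, k, k', -, -, -, h⟩ := ha
        exact (g.nev_dom1 h).2
      · obtain ⟨x, σ, k, k', -, -, -, h⟩ := ha
        exact (g.nev_dom2 h).2
      · exact exists_congr fun x => exists_congr fun σ => exists_congr fun k =>
          exists_congr fun k' => and_congr Iff.rfl (and_congr (g.nD hW hη k)
            (and_congr (g.nD hW hab k') (g.nev hW hη (g.rc hab x σ))))

end Pool.Agent.Helper24.AR
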