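import Pool.Agent.Helper24.AR.ArN

/-!
# Macro-computable predicates (chapter AR of MP_f84cd7)

`Mp K P` says that for inputs `X ∈ K` the predicate `P X T a` is arithmetical in `T` and a set which is
computed from `X` by a list of instructions.
-/

set_option autoImplicit false

namespace Pool.Agent.Helper24.AR

open Pool.Agent.Helper25.EV Encodable

/-- primitive recursive functions, for `fun_prop` -/
@[fun_prop]
def PR {α β : Type} [Primcodable α] [Primcodable β] (f : α → β) : Prop := Primrec f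

section
variable {α β γ : Type} [Primcodable α] [Primcodable β] [Primcodable γ]

theorem codePred (β : Type) [Primcodable β] :
    PrimrecPred fun m : ℕ => ∃ b : β, encode b = m := by
  have h : PrimrecPred fun m : ℕ => encode (decode (α := β) m) = m + 1 :=
    Primrec.eq.comp (Primrec.encode.comp Primrec.decode) Primrec.succ
  refine h.of_eq fun m => ?_
  constructor
  · intro h
    cases hd : decode (α := β) m with
    | none => rw [hd] at h; simp at h
    | some b =>
      rw [hd, encode_some] at h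
      exact ⟨b, by omega⟩
  · rintro ⟨b, rfl⟩
    rw [encodek, encode_some]

/-- `P X T a` is arithmetical in `T` and in a computed set -/
def Mp (K : Set (Set ℕ)) (P : Set ℕ → Set ℕ → α → Prop) : Prop :=
  ∃ F, Cp K F ∧ ∃ Q, ArN Q ∧ ∀ X ∈ K, ∀ T a, P X T a ↔ Q (jn (F X) T) (encode a)

variable {K : Set (Set ℕ)}

theorem Mp.congr {P Q : Set ℕ → Set ℕ → α → Prop} (h : Mp K P)
    (e : ∀ X ∈ K, ∀ T a, Q X T a ↔ P X T a) : Mp K Q := by
  obtain ⟨F, hF, R, hR, h⟩ := h
  exact ⟨F, hF, R, hR, fun X hX T a => (e X hX T a).trans (h X hX T a)⟩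

theorem Mp.common {P : Set ℕ → Set ℕ → α → Prop} {P' : Set ℕ → Set ℕ → β → Prop} (h : Mp K P)
    (h' : Mp K P') : ∃ F, Cp K F ∧ ∃ Q Q', ArN Q ∧ ArN Q' ∧
      (∀ X ∈ K, ∀ T a, P X T a ↔ Q (jn (F X) T) (encode a)) ∧
      ∀ X ∈ K, ∀ T a, P' X T a ↔ Q' (jn (F X) T) (encode a) := by
  obtain ⟨F, hF, Q, hQ, h⟩ := h
  obtain ⟨F', hF', Q', hQ', h'⟩ := h'
  refine ⟨_, hF.join hF', fun Z n => Q (jn (lc (lc Z)) (rc Z)) n,
    fun Z n => Q' (jn (rc (lc Z)) (rc Z)) n, ?_, ?_, ?_, ?_⟩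
  · exact arSubst hQ (arOp_jn (arOp_comp arOp_lc arOp_lc) arOp_rc)
  · exact arSubst hQ' (arOp_jn (arOp_comp arOp_rc arOp_lc) arOp_rc)
  · intro X hX T a
    beta_reduce
    rw [h X hX T a]
    simp only [lc_jn, rc_jn]
  · intro X hX T a
    beta_reduce
    rw [h' X hX T a]
    simp only [lc_jn, rc_jn]

theorem Mp.and {P P' : Set ℕ → Set ℕ → α → Prop} (h : Mp K P) (h' : Mp K P') :
    Mp K fun X T a => P X T a ∧ P' X T a := by
  obtain ⟨F, hF, Q, Q', hQ, hQ', e, e'⟩ := h.common h'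
  exact ⟨F, hF, _, hQ.and hQ', fun X hX T a => and_congr (e X hX T a) (e' X hX T a)⟩

theorem Mp.not {P : Set ℕ → Set ℕ → α → Prop} (h : Mp K P) : Mp K fun X T a => ¬ P X T a := by
  obtain ⟨F, hF, Q, hQ, e⟩ := h
  exact ⟨F, hF, _, hQ.neg, fun X hX T a => not_congr (e X hX T a)⟩

theorem Mp.or {P P' : Set ℕ → Set ℕ → α → Prop} (h : Mp K P) (h' : Mp K P') :
    Mp K fun X T a => P X T a ∨ P' X T a :=
  (h.not.and h'.not).not.congr fun X _ T a => by tauto

theorem Mp.imp {P P' : Set ℕ → Set ℕ → α → Prop} (h : Mp K P) (h' : Mp K P') :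
    Mp K fun X T a => P X T a → P' X T a :=
  (h.and h'.not).not.congr fun X _ T a => by tauto

theorem Mp.iff {P P' : Set ℕ → Set ℕ → α → Prop} (h : Mp K P) (h' : Mp K P') :
    Mp K fun X T a => P X T a ↔ P' X T a :=
  ((h.imp h').and (h'.imp h)).congr fun X _ T a => by tauto

theorem Mp.ex {P : Set ℕ → Set ℕ → α → β → Prop}
    (h : Mp K fun X T (p : α × β) => P X T p.1 p.2) : Mp K fun X T a => ∃ b, P X T a b := by
  obtain ⟨F, hF, Q, hQ, e⟩ := h
  refine ⟨F, hF, fun Z n => ∃ m, (∃ b : β, encode b = (Nat.unpair (Nat.pair n m)).2) ∧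
    Q Z (Nat.pair n m), ?_, fun X hX T a => ?_⟩
  · have h1 : ArN fun _ n => ∃ b : β, encode b = (Nat.unpair n).2 :=
      arComp (arPred (codePred β)) (Primrec.snd.comp Primrec.unpair)
    exact (h1.and hQ).ex
  · constructor
    · rintro ⟨b, hb⟩
      refine ⟨encode b, ⟨b, by rw [Nat.unpair_pair]⟩, ?_⟩
      have := (e X hX T (a, b)).mp hb
      rwa [encode_prod_val] at this
    · rintro ⟨m, ⟨b, hb⟩, h⟩
      rw [Nat.unpair_pair] at hb
      refine ⟨b, (e X hX T (a, b)).mpr ?_⟩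
      rw [encode_prod_val]
      have hb' : encode b = m := hb
      rwa [hb']

theorem Mp.all {P : Set ℕ → Set ℕ → α → β → Prop}
    (h : Mp K fun X T (p : α × β) => P X T p.1 p.2) : Mp K fun X T a => ∀ b, P X T a b :=
  (Mp.ex (P := fun X T a b => ¬ P X T a b) h.not).not.congr fun X _ T a => by
    push Not
    rfl

theorem Mp.comp {P : Set ℕ → Set ℕ → β → Prop} (h : Mp K P) {f : α → β} (hf : PR f) :
    Mp K fun X T a => P X T (f a) := by
  obtain ⟨F, hF, Q, hQ, e⟩ := h
  have hg : Primrec fun n : ℕ => (encode ((decode (α := α) n).map f)).pred :=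
    Primrec.pred.comp (Primrec.encode.comp (Primrec.option_map Primrec.decode
      (Primrec.comp hf Primrec.snd).to₂))
  refine ⟨F, hF, _, arComp hQ hg, fun X hX T a => ?_⟩
  beta_reduce
  rw [e X hX T (f a)]
  simp only [encodek, Option.map_some, encode_some, Nat.pred_succ]

theorem Mp.prim {p : α → Prop} (hp : PrimrecPred p) : Mp K fun _ _ a => p a := by
  obtain ⟨hd, hp⟩ := hp
  have h1 : PrimrecPred fun n : ℕ => (decode (α := α) n).map (fun a => decide (p a)) = some true :=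
    Primrec.eq.comp (Primrec.option_map Primrec.decode (Primrec.comp hp Primrec.snd).to₂)
      (Primrec.const (some true))
  refine ⟨fun X => X, Cp.id, _, arPred h1, fun X hX T a => ?_⟩
  simp [encodek]

theorem Mp.true : Mp K fun (_ : Set ℕ) (_ : Set ℕ) (_ : α) => True :=
  Mp.prim (PrimrecPred.of_eq (Primrec.eq.comp (Primrec.const 0) (Primrec.const 0))
    fun _ => by simp)

/-- membership in the input -/
theorem Mp.memX {f : α → ℕ} (hf : PR f) : Mp K fun X _ a => f a ∈ X := by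
  refine Mp.comp (P := fun X _ n => n ∈ X) ?_ hf
  refine ⟨fun X => X, Cp.id, fun Z n => n ∈ lc Z, arOp_lc, fun X hX T a => ?_⟩
  beta_reduce
  rw [lc_jn]
  rfl

/-- membership in the table -/
theorem Mp.memT {f : α → ℕ} (hf : PR f) : Mp K fun _ T a => f a ∈ T := by
  refine Mp.comp (P := fun _ T n => n ∈ T) ?_ hf
  refine ⟨fun X => X, Cp.id, fun Z n => n ∈ rc Z, arOp_rc, fun X hX T a => ?_⟩
  beta_reduce
  rw [rc_jn]
  rfl

/-- substitution of the table -/
theorem Mp.substT {P : Set ℕ → Set ℕ → α → Prop} (h : Mp K P) (T₀ : Set ℕ → Set ℕ)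
    (hT : Cp K T₀) : Mp K fun X _ a => P X (T₀ X) a := by
  obtain ⟨F, hF, Q, hQ, e⟩ := h
  refine ⟨_, hF.join hT, fun Z n => Q (lc Z) n, arSubst hQ arOp_lc, fun X hX T a => ?_⟩
  beta_reduce
  rw [e X hX (T₀ X) a, lc_jn]

/-- a macro-computable set is computed by a list of instructions -/
theorem Mp.cp {P : Set ℕ → Set ℕ → ℕ → Prop} (h : Mp K P) : Cp K fun X => {n | P X ∅ n} := by
  obtain ⟨F, hF, Q, hQ, e⟩ := h
  have h1 : ArOp fun Z => {n | Q (jn Z ∅) n} := arSubst hQ (arOp_jn arOp_id arOp_empty)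
  refine (hF.ar h1).congr fun X hX => ?_
  ext n
  exact (e X hX ∅ n).symm

end

end Pool.Agent.Helper24.AR
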