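import Pool.Agent.Helper24.AR.Mp

/-!
# The recursion lemma: tables which are defined by well-founded recursion are macro-computable
-/

set_option autoImplicit false

namespace Pool.Agent.Helper24.AR

open Pool.Agent.Helper25.EV Encodable

variable {α β : Type} [Primcodable α] [Primcodable β] {K : Set (Set ℕ)}

theorem lc_union (A B : Set ℕ) : lc (A ∪ B) = lc A ∪ lc B := rfl

theorem rc_union (A B : Set ℕ) : rc (A ∪ B) = rc A ∪ rc B := rfl

theorem clS_mono (G : Set ℕ → Set ℕ) (X : Set ℕ) (a b : Ordinal.{0}) (h : a ≤ b) :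
    clS G X a ⊆ clS G X b := by
  induction b using Ordinal.limitRecOn with
  | zero =>
    have : a = 0 := le_antisymm h (zero_le)
    rw [this]
  | add_one b ih =>
    rcases h.eq_or_lt with h | h
    · rw [h]
    · rw [clS_succ]
      exact (ih (Order.lt_add_one_iff.mp h)).trans Set.subset_union_left
  | limit l hl ih =>
    rcases h.eq_or_lt with h | h
    · rw [h]
    · rw [clS_lim _ _ hl]
      exact fun n hn => ⟨a, h, hn⟩

section
variable (QW QF : Set ℕ → ℕ → Prop) (α β)

/-- the new marks -/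
def newM (Z : Set ℕ) : Set ℕ :=
  {n | (∃ a : α, encode a = n) ∧
    ∀ m, QW (jn (lc (lc Z)) ∅) (Nat.pair m n) → (∃ a : α, encode a = m) → m ∈ lc (rc Z)}

/-- the new rows -/
def newR (Z : Set ℕ) : Set ℕ :=
  {n | (∃ p : α × β, encode p = n) ∧ (Nat.unpair n).1 ∈ newM α QW Z ∧
    QF (jn (rc (lc Z)) (rc (rc Z))) n}

/-- one step of the recursion -/
def stepG (Z : Set ℕ) : Set ℕ := jn ∅ (jn (newM α QW Z) (newR α β QW QF Z))

theorem arOp_newM (hW : ArN QW) : ArOp (newM α QW) := by
  have h1 : ArN fun Z n => QW (jn (lc (lc Z)) ∅)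
      (Nat.pair (Nat.unpair n).2 (Nat.unpair n).1) :=
    arComp (arSubst hW (arOp_jn (arOp_comp arOp_lc arOp_lc) arOp_empty))
      (Primrec₂.natPair.comp (Primrec.snd.comp Primrec.unpair) (Primrec.fst.comp Primrec.unpair))
  have h2 : ArN fun _ n => ∃ a : α, encode a = (Nat.unpair n).2 :=
    arComp (arPred (codePred α)) (Primrec.snd.comp Primrec.unpair)
  have h3 : ArN fun Z n => (Nat.unpair n).2 ∈ lc (rc Z) :=
    arComp (arOp_comp arOp_lc arOp_rc) (Primrec.snd.comp Primrec.unpair)
  have h4 := (arPred (codePred α)).and (arAll ((h1.and (h2.and h3.neg)).neg))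
  refine arCongr h4 fun Z n => ?_
  show ((∃ a : α, encode a = n) ∧ _) ↔ _
  simp only [Nat.unpair_pair]
  refine and_congr Iff.rfl (forall_congr' fun m => ?_)
  tauto

theorem arOp_newR (hW : ArN QW) (hF : ArN QF) : ArOp (newR α β QW QF) := by
  have h1 : ArN fun Z n => (Nat.unpair n).1 ∈ newM α QW Z :=
    arComp (arOp_newM α QW hW) (Primrec.fst.comp Primrec.unpair)
  have h2 : ArN fun Z n => QF (jn (rc (lc Z)) (rc (rc Z))) n :=
    arSubst hF (arOp_jn (arOp_comp arOp_rc arOp_lc) (arOp_comp arOp_rc arOp_rc))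
  exact (arPred (codePred (α × β))).and (h1.and h2)

theorem arOp_stepG (hW : ArN QW) (hF : ArN QF) : ArOp (stepG α β QW QF) :=
  arOp_jn arOp_empty (arOp_jn (arOp_newM α QW hW) (arOp_newR α β QW QF hW hF))

end

/-- THE RECURSION LEMMA -/
theorem Mp.recn {W : Set ℕ → α → α → Prop} (hW : Mp K fun X _ (p : α × α) => W X p.1 p.2)
    (hwf : ∀ X ∈ K, WellFounded (W X)) {Φ : Set ℕ → (α → β → Prop) → α → β → Prop}
    (hΦ : Mp K fun X T (p : α × β) => Φ X (fun a b => encode (a, b) ∈ T) p.1 p.2)
    (hloc : ∀ X ∈ K, ∀ (t t' : α → β → Prop) (a : α),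
      (∀ a', W X a' a → ∀ b, t a' b ↔ t' a' b) → ∀ b, Φ X t a b → Φ X t' a b)
    {R : Set ℕ → α → β → Prop} (hR : ∀ X ∈ K, ∀ a b, R X a b ↔ Φ X (R X) a b) :
    Mp K fun X _ (p : α × β) => R X p.1 p.2 := by
  obtain ⟨FW, hFW, QW, hQW, eW⟩ := hW
  obtain ⟨FF, hFF, QF, hQF, eF⟩ := hΦ
  have hG : ArOp (stepG α β QW QF) := arOp_stepG α β QW QF hQW hQF
  have h0 : Cp K fun X => jn (jn (FW X) (FF X)) ∅ :=
    (hFW.join hFF).ar (G := fun Y => jn Y ∅) (arOp_jn arOp_id arOp_empty)
  refine ⟨_, h0.cl hG, fun Z n => n ∈ rc (rc (lc Z)), ?_, ?_⟩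
  · exact arOp_comp arOp_rc (arOp_comp arOp_rc arOp_lc)
  intro X hX T
  beta_reduce
  have eW' : ∀ a' a, W X a' a ↔ QW (jn (FW X) ∅) (Nat.pair (encode a') (encode a)) := by
    intro a' a
    rw [← encode_prod_val]
    exact eW X hX ∅ (a', a)
  let S : Ordinal.{0} → Set ℕ := clS (stepG α β QW QF) (jn (jn (FW X) (FF X)) ∅)
  have hS0 : S 0 = jn (jn (FW X) (FF X)) ∅ := clS_zero _ _
  have hSs : ∀ x, S (x + 1) = S x ∪ stepG α β QW QF (S x) := fun x => clS_succ _ _ x
  have hSl : ∀ l, Order.IsSuccLimit l → S l = {n | ∃ b < l, n ∈ S b} := fun l hl => clS_lim _ _ hl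
  -- invariants
  have inv : ∀ x, lc (S x) = jn (FW X) (FF X) ∧
      (∀ n ∈ rc (rc (S x)), ∃ a b, n = encode ((a, b) : α × β) ∧ R X a b) ∧
      ∀ a, encode a ∈ lc (rc (S x)) → ∀ b, R X a b → encode (a, b) ∈ rc (rc (S x)) := by
    intro x
    induction x using Ordinal.limitRecOn with
    | zero =>
      rw [hS0]
      refine ⟨lc_jn _ _, ?_, ?_⟩
      · rw [rc_jn]
        intro n hn
        exact hn.elim
      · rw [rc_jn]
        intro a ha
        exact ha.elim
    | add_one x ih =>
      obtain ⟨i1, i2, i3⟩ := ih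
      have key : ∀ a, encode a ∈ newM α QW (S x) → ∀ a', W X a' a → ∀ b,
          (encode (a', b) ∈ rc (rc (S x)) ↔ R X a' b) := by
        intro a ha a' haa b
        have h1 : encode a' ∈ lc (rc (S x)) := by
          refine ha.2 (encode a') ?_ ⟨a', rfl⟩
          rw [i1, lc_jn]
          exact (eW' a' a).mp haa
        constructor
        · intro h
          obtain ⟨a'', b'', e, h⟩ := i2 _ h
          have := encode_injective (α := α × β) e
          cases this
          exact h
        · exact i3 a' h1 b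
      rw [hSs]
      refine ⟨?_, ?_, ?_⟩
      · rw [lc_union, i1]
        show _ ∪ lc (jn ∅ _) = _
        rw [lc_jn, Set.union_empty]
      · intro n hn
        rw [rc_union, rc_union] at hn
        rcases hn with hn | hn
        · exact i2 n hn
        · have hn' : n ∈ newR α β QW QF (S x) := by
            have : rc (rc (stepG α β QW QF (S x))) = newR α β QW QF (S x) := by
              show rc (rc (jn ∅ (jn _ _))) = _
              rw [rc_jn, rc_jn]
            rwa [this] at hn
          obtain ⟨⟨⟨a, b⟩, rfl⟩, h2, h3⟩ := hn'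
          rw [encode_prod_val, Nat.unpair_pair] at h2
          rw [i1, rc_jn] at h3
          have h4 := (eF X hX (rc (rc (S x))) (a, b)).mpr h3
          refine ⟨a, b, rfl, (hR X hX a b).mpr ?_⟩
          exact hloc X hX _ _ a (key a h2) b h4
      · intro a ha b hab
        rw [rc_union, lc_union] at ha
        rw [rc_union, rc_union]
        rcases ha with ha | ha
        · exact Or.inl (i3 a ha b hab)
        · right
          have ha' : encode a ∈ newM α QW (S x) := by
            have : lc (rc (stepG α β QW QF (S x))) = newM α QW (S x) := by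
              show lc (rc (jn ∅ (jn _ _))) = _
              rw [rc_jn, lc_jn]
            rwa [this] at ha
          show _ ∈ rc (rc (jn ∅ (jn _ _)))
          rw [rc_jn, rc_jn]
          refine ⟨⟨(a, b), rfl⟩, ?_, ?_⟩
          · rw [encode_prod_val, Nat.unpair_pair]
            exact ha'
          · rw [i1, rc_jn]
            refine (eF X hX (rc (rc (S x))) (a, b)).mp ?_
            exact hloc X hX _ _ a (fun a' h b => (key a ha' a' h b).symm) b
              ((hR X hX a b).mp hab)
    | limit l hl ih =>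
      rw [hSl l hl]
      have h0 : (0 : Ordinal.{0}) < l := hl.bot_lt
      refine ⟨?_, ?_, ?_⟩
      · ext n
        constructor
        · rintro ⟨b, hb, h⟩
          rw [← (ih b hb).1]
          exact h
        · intro h
          rw [← (ih 0 h0).1] at h
          exact ⟨0, h0, h⟩
      · rintro n ⟨b, hb, h⟩
        exact (ih b hb).2.1 n h
      · rintro a ⟨b, hb, h⟩ x hx
        exact ⟨b, hb, (ih b hb).2.2 a h x hx⟩
  have mono : ∀ a b, a ≤ b → S a ⊆ S b := fun a b h => clS_mono _ _ a b h
  -- all elements are marked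
  have mark : ∀ a : α, ∃ x, encode a ∈ lc (rc (S x)) := by
    intro a
    induction a using (hwf X hX).induction with
    | _ a ih =>
      choose f hf using ih
      classical
      let g : α → Ordinal.{0} := fun a' => if h : W X a' a then f a' h else 0
      refine ⟨(⨆ a', g a') + 1, ?_⟩
      rw [hSs, rc_union, lc_union]
      right
      show _ ∈ lc (rc (jn ∅ (jn _ _)))
      rw [rc_jn, lc_jn]
      refine ⟨⟨a, rfl⟩, ?_⟩
      rintro m hm ⟨a', rfl⟩
      rw [(inv _).1, lc_jn] at hm
      have h1 := (eW' a' a).mpr hm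
      have h2 := hf a' h1
      have h3 : f a' h1 ≤ ⨆ a', g a' := by
        have : g a' = f a' h1 := dif_pos h1
        rw [← this]
        exact Ordinal.le_iSup g a'
      exact mono _ _ h3 h2
  rintro ⟨a, b⟩
  rw [lc_jn]
  constructor
  · intro h
    obtain ⟨x, hx⟩ := mark a
    exact ⟨x, (inv x).2.2 a hx b h⟩
  · rintro ⟨x, hx⟩
    obtain ⟨a', b', e, h⟩ := (inv x).2.1 _ hx
    have := encode_injective (α := α × β) e
    cases this
    exact h

end Pool.Agent.Helper24.AR
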