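import Pool.Agent.Helper24.AR.Rec
import Pool.Agent.Helper25.EV.Proc

/-!
# Primitive recursive functions for `fun_prop`, atoms of the calculus
-/

set_option autoImplicit false

namespace Pool.Agent.Helper24.AR

open Pool.Agent.Helper25.EV Encodable

variable {α β γ δ : Type} [Primcodable α] [Primcodable β] [Primcodable γ] [Primcodable δ]
  {K : Set (Set ℕ)}

namespace PR

@[fun_prop] theorem id' : PR (fun x : α => x) := Primrec.id
@[fun_prop] theorem const' (b : β) : PR (fun _ : α => b) := Primrec.const b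
@[fun_prop] theorem comp' {f : β → γ} {g : α → β} (hf : PR f) (hg : PR g) :
    PR (fun x => f (g x)) := Primrec.comp hf hg
@[fun_prop] theorem pair' {f : α → β} {g : α → γ} (hf : PR f) (hg : PR g) :
    PR (fun x => (f x, g x)) := Primrec.pair hf hg
@[fun_prop] theorem fst' {f : α → β × γ} (hf : PR f) : PR (fun x => (f x).1) :=
  Primrec.fst.comp hf
@[fun_prop] theorem snd' {f : α → β × γ} (hf : PR f) : PR (fun x => (f x).2) :=
  Primrec.snd.comp hf
@[fun_prop] theorem natPair {f : α → ℕ} {g : α → ℕ} (hf : PR f) (hg : PR g) :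
    PR (fun x => Nat.pair (f x) (g x)) := Primrec₂.comp (Primrec₂.natPair) hf hg
@[fun_prop] theorem enc {f : α → β} (hf : PR f) : PR (fun x => encode (f x)) :=
  Primrec.encode.comp hf
@[fun_prop] theorem unpair {f : α → ℕ} (hf : PR f) : PR (fun x => Nat.unpair (f x)) :=
  Primrec.unpair.comp hf
@[fun_prop] theorem app {f g : α → List β} (hf : PR f) (hg : PR g) : PR (fun x => f x ++ g x) :=
  Primrec.list_append.comp hf hg
@[fun_prop] theorem cons {f : α → β} {g : α → List β} (hf : PR f) (hg : PR g) :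
    PR (fun x => f x :: g x) := Primrec.list_cons.comp hf hg
@[fun_prop] theorem len {f : α → List β} (hf : PR f) : PR (fun x => (f x).length) :=
  Primrec.list_length.comp hf
@[fun_prop] theorem rev {f : α → List β} (hf : PR f) : PR (fun x => (f x).reverse) :=
  Primrec.list_reverse.comp hf
@[fun_prop] theorem some' {f : α → β} (hf : PR f) : PR (fun x => some (f x)) :=
  Primrec.option_some.comp hf
@[fun_prop] theorem inl' {f : α → β} (hf : PR f) : PR (fun x => (Sum.inl (f x) : β ⊕ γ)) :=
  Primrec.sumInl.comp hf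
@[fun_prop] theorem inr' {f : α → γ} (hf : PR f) : PR (fun x => (Sum.inr (f x) : β ⊕ γ)) :=
  Primrec.sumInr.comp hf
@[fun_prop] theorem getO {f : α → List β} {g : α → ℕ} (hf : PR f) (hg : PR g) :
    PR (fun x => (f x)[g x]?) := Primrec.list_getElem?.comp hf hg
@[fun_prop] theorem getD' {f : α → List β} {g : α → ℕ} {d : β} (hf : PR f) (hg : PR g) :
    PR (fun x => (f x).getD (g x) d) := (Primrec.list_getD d).comp hf hg
@[fun_prop] theorem add' {f g : α → ℕ} (hf : PR f) (hg : PR g) : PR (fun x => f x + g x) :=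
  Primrec.nat_add.comp hf hg
@[fun_prop] theorem sub' {f g : α → ℕ} (hf : PR f) (hg : PR g) : PR (fun x => f x - g x) :=
  Primrec.nat_sub.comp hf hg
@[fun_prop] theorem mul' {f g : α → ℕ} (hf : PR f) (hg : PR g) : PR (fun x => f x * g x) :=
  Primrec.nat_mul.comp hf hg
@[fun_prop] theorem div' {f g : α → ℕ} (hf : PR f) (hg : PR g) : PR (fun x => f x / g x) :=
  Primrec.nat_div.comp hf hg
@[fun_prop] theorem mod' {f g : α → ℕ} (hf : PR f) (hg : PR g) : PR (fun x => f x % g x) :=
  Primrec.nat_mod.comp hf hg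
@[fun_prop] theorem sch' {f : α → ℕ} (hf : PR f) : PR (fun x => sch (f x)) :=
  Primrec.fst.comp (Primrec.unpair.comp hf)
@[fun_prop] theorem iteb {f : α → Bool} {g h : α → β} (hf : PR f) (hg : PR g) (hh : PR h) :
    PR (fun x => if f x = true then g x else h x) :=
  Primrec.ite (Primrec.eq.comp hf (Primrec.const true)) hg hh

end PR

/-! ## Atoms -/

theorem Mp.eq [DecidableEq β] {f g : α → β} (hf : PR f) (hg : PR g) :
    Mp K fun _ _ a => f a = g a := Mp.prim (Primrec.eq.comp hf hg)

theorem Mp.ne [DecidableEq β] {f g : α → β} (hf : PR f) (hg : PR g) :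
    Mp K fun _ _ a => f a ≠ g a := (Mp.eq hf hg).not

theorem Mp.lt {f g : α → ℕ} (hf : PR f) (hg : PR g) : Mp K fun _ _ a => f a < g a :=
  Mp.prim (Primrec.nat_lt.comp hf hg)

theorem Mp.le {f g : α → ℕ} (hf : PR f) (hg : PR g) : Mp K fun _ _ a => f a ≤ g a :=
  Mp.prim (Primrec.nat_le.comp hf hg)

theorem Mp.pre [DecidableEq β] {f g : α → List β} (hf : PR f) (hg : PR g) :
    Mp K fun _ _ a => f a <+: g a := by
  have h : Mp K fun _ _ a => ∃ t, f a ++ t = g a :=
    Mp.ex (P := fun _ _ a t => f a ++ t = g a) (Mp.eq (by fun_prop) (by fun_prop))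
  exact h

theorem Mp.false : Mp K fun (_ : Set ℕ) (_ : Set ℕ) (_ : α) => False :=
  Mp.true.not.congr fun _ _ _ _ => by simp

end Pool.Agent.Helper24.AR
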